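import Pool.Agent.LibGM95.F1

/-!
TASK F2. The square root trick for the face orthants.
`card_Rc_le`: every `v ∈ Rc ω m n` has a coordinate `±n` (`OnBd`), so it lies in
`Vf ω m n dir σ` with `σ b = decide (0 ≤ v b)`; at most `2d` directions and `2^d` values of `σ`.
`Vf_symm`: `Fc_sp`, `Pr_tr`, `card_Vf_tr`.  `sqrt_trick`: `PB_fkg_family` over
`I = (Finset.univ : Finset (Dir d × (Fin d → Bool)))`, `S = EB n 0`, the decreasing events
`{card (Vf dir σ) ≤ k}` (`Vf_mono`, `Vf_congr`); all factors are equal by `Vf_symm`;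
`Fintype.card (Dir d × (Fin d → Bool)) = 2 * d * 2 ^ d`.
-/

set_option autoImplicit false

open MeasureTheory ProbabilityTheory Filter Topology

namespace Ein99.GM

variable {d : ℕ}

theorem F2_mem_Rc (ω : Om d) (m n : ℕ) (v : V d) :
    v ∈ Rc ω m n ↔ v ∈ Bx n (0 : V d) ∧ OnBd n 0 v ∧ Rch ω m n 0 v := by
  classical
  unfold Rc
  rw [Finset.mem_filter]

theorem F2_mem_Vf (ω : Om d) (m n : ℕ) (dir : Dir d) (σ : Fin d → Bool) (v : V d) :
    v ∈ Vf ω m n dir σ ↔ v ∈ Rc ω m n ∧ Fc n 0 dir σ v := by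
  classical
  unfold Vf
  rw [Finset.mem_filter]

theorem card_Rc_le (ω : Om d) (m n : ℕ) :
    (Rc ω m n).card ≤ ∑ i : Dir d × (Fin d → Bool), (Vf ω m n i.1 i.2).card := by
  classical
  have hsub : Rc ω m n ⊆
      (Finset.univ : Finset (Dir d × (Fin d → Bool))).biUnion (fun i => Vf ω m n i.1 i.2) := by
    intro v hv
    rw [Finset.mem_biUnion]
    have hv' := (F2_mem_Rc ω m n v).1 hv
    obtain ⟨i, hi⟩ := hv'.2.1.2
    rw [Pi.zero_apply, sub_zero] at hi
    refine ⟨((i, decide (0 ≤ v i)), fun b => decide (0 ≤ v b)), Finset.mem_univ _, ?_⟩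
    rw [F2_mem_Vf]
    refine ⟨hv, hv'.1, ?_, ?_⟩
    · show v i - (0 : V d) i = if decide (0 ≤ v i) then (n : ℤ) else -(n : ℤ)
      rw [Pi.zero_apply, sub_zero]
      by_cases h : 0 ≤ v i
      · rw [if_pos (by simpa using h)]
        omega
      · rw [if_neg (by simpa using h)]
        omega
    · intro b _
      show if decide (0 ≤ v b) then 0 ≤ v b - (0 : V d) b else v b - (0 : V d) b ≤ 0
      rw [Pi.zero_apply, sub_zero]
      by_cases h : 0 ≤ v b
      · rw [if_pos (by simpa using h)]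
        exact h
      · rw [if_neg (by simpa using h)]
        omega
  exact (Finset.card_le_card hsub).trans Finset.card_biUnion_le

theorem F2_dep (m n k : ℕ) (dir : Dir d) (σ : Fin d → Bool) :
    Dep (EB n (0 : V d) : Set (Ed d)) {ω : Om d | (Vf ω m n dir σ).card ≤ k} := by
  intro ω ω' h
  show (Vf ω m n dir σ).card ≤ k ↔ (Vf ω' m n dir σ).card ≤ k
  rw [Vf_congr m n dir σ ω ω' (fun e he => h e (Finset.mem_coe.2 he))]

theorem F2_decr (m n k : ℕ) (dir : Dir d) (σ : Fin d → Bool) :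
    Decr {ω : Om d | (Vf ω m n dir σ).card ≤ k} := by
  intro ω ω' h hω'
  exact le_trans (Finset.card_le_card (Vf_mono m n dir σ ω ω' h)) hω'

theorem Vf_symm (p : unitInterval) (m n k : ℕ) (dir dir' : Dir d) (σ σ' : Fin d → Bool) :
    (Pr d p).real {ω : Om d | (Vf ω m n dir σ).card ≤ k} =
      (Pr d p).real {ω : Om d | (Vf ω m n dir' σ').card ≤ k} := by
  obtain ⟨π, ε, h⟩ := Fc_sp dir dir' σ σ'
  have hm : MeasurableSet {ω : Om d | (Vf ω m n dir σ).card ≤ k} :=
    Dep.measurableSet (EB n (0 : V d)) (F2_dep m n k dir σ)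
  have h1 := Pr_tr p π ε hm
  have h2 : {ω : Om d | tr π ε ω ∈ {ω : Om d | (Vf ω m n dir σ).card ≤ k}} =
      {ω : Om d | (Vf ω m n dir' σ').card ≤ k} := by
    ext ω
    show (Vf (tr π ε ω) m n dir σ).card ≤ k ↔ (Vf ω m n dir' σ').card ≤ k
    rw [card_Vf_tr dir dir' σ σ' π ε n m (fun u => h n u) ω]
  rw [h2] at h1
  exact h1.symm

theorem sqrt_trick (p : unitInterval) (m n k : ℕ) (dir : Dir d) (σ : Fin d → Bool) :
    (Pr d p).real {ω : Om d | (Vf ω m n dir σ).card ≤ k} ^ (2 * d * 2 ^ d) ≤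
      (Pr d p).real {ω : Om d | (Rc ω m n).card ≤ 2 * d * 2 ^ d * k} := by
  classical
  have hcard : Fintype.card (Dir d × (Fin d → Bool)) = 2 * d * 2 ^ d := by
    rw [Fintype.card_prod, Fintype.card_prod, Fintype.card_fun, Fintype.card_fin,
      Fintype.card_bool]
    ring
  have h1 := PB_fkg_family (κ := Dir d × (Fin d → Bool)) (fun _ : Ed d => p) Finset.univ
    (EB n (0 : V d)) (fun i => {ω : Om d | (Vf ω m n i.1 i.2).card ≤ k})
    (fun i _ => F2_dep m n k i.1 i.2) (fun i _ => F2_decr m n k i.1 i.2)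
  have h2 : ∏ i : Dir d × (Fin d → Bool),
      (PB (fun _ : Ed d => p)).real {ω : Om d | (Vf ω m n i.1 i.2).card ≤ k} =
      (Pr d p).real {ω : Om d | (Vf ω m n dir σ).card ≤ k} ^ (2 * d * 2 ^ d) := by
    rw [← hcard, ← Finset.card_univ, ← Finset.prod_const]
    refine Finset.prod_congr rfl fun i _ => ?_
    exact Vf_symm p m n k i.1 dir i.2 σ
  rw [h2] at h1
  refine h1.trans ?_
  refine measureReal_mono ?_ (measure_ne_top _ _)
  intro ω hω
  show (Rc ω m n).card ≤ 2 * d * 2 ^ d * k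
  calc (Rc ω m n).card ≤ ∑ i : Dir d × (Fin d → Bool), (Vf ω m n i.1 i.2).card :=
        card_Rc_le ω m n
    _ ≤ ∑ _i : Dir d × (Fin d → Bool), k :=
        Finset.sum_le_sum fun i _ => hω i (Finset.mem_univ i)
    _ = 2 * d * 2 ^ d * k := by
        rw [Finset.sum_const, Finset.card_univ, hcard, smul_eq_mul]

end Ein99.GM
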