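import Pool.Agent.LibGM95.N1

/-!
TASK N2. Closing the outward edges of few reached vertices, and the choice of `n`.
`clo_ineq`: partition on the value `ρ` of `Rc ω m n` (`PB_partition` with `f = fun ω => Rc ω m n`,
`T = (Bx n 0).powerset`).  For fixed `ρ` the event `Rc ω m n = ρ` depends on `EB n 0` (`Rc_congr`), the
outward edges `ed v dir`, `v ∈ ρ`, `v + st dir ∉ Bx n 0`, are not in `EB n 0` and there are at most
`2 d |ρ|` of them; use `PB_indep` and `PB_false`.  `Pr d p = PB (fun _ => p)` is `rfl`.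
`few_small`: the events `(Rc ω m n).Nonempty ∧ Clo ω m n`, `n ≥ n0`, are pairwise disjoint
(`Clo_disjoint`) and measurable, so at most `1/c` of them have probability `≥ c`.
-/

set_option autoImplicit false

open MeasureTheory ProbabilityTheory Filter Topology

namespace Ein99.GM

variable {d : ℕ}

open Classical in
/-- the outward edges of the vertices in `ρ` -/
noncomputable def outE (n : ℕ) (ρ : Finset (V d)) : Finset (Ed d) :=
  ((ρ ×ˢ (Finset.univ : Finset (Dir d))).filter (fun x => x.1 + st x.2 ∉ Bx n (0 : V d))).image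
    (fun x => ed x.1 x.2)

theorem mem_outE {n : ℕ} {ρ : Finset (V d)} {e : Ed d} :
    e ∈ outE n ρ ↔ ∃ v ∈ ρ, ∃ dir : Dir d, v + st dir ∉ Bx n (0 : V d) ∧ ed v dir = e := by
  classical
  unfold outE
  simp only [Finset.mem_image, Finset.mem_filter, Finset.mem_product, Finset.mem_univ, and_true,
    Prod.exists]
  constructor
  · rintro ⟨v, i, b, ⟨h1, h2⟩, h3⟩
    exact ⟨v, h1, i, b, h2, h3⟩
  · rintro ⟨v, h1, i, b, h2, h3⟩
    exact ⟨v, i, b, ⟨h1, h2⟩, h3⟩

theorem card_outE (n : ℕ) (ρ : Finset (V d)) : (outE n ρ).card ≤ 2 * d * ρ.card := by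
  classical
  unfold outE
  refine Finset.card_image_le.trans ((Finset.card_filter_le _ _).trans ?_)
  rw [Finset.card_product]
  simp only [Finset.card_univ, Fintype.card_prod, Fintype.card_fin, Fintype.card_bool]
  apply le_of_eq
  ring

theorem st_false_add (i : Fin d) : (st (i, false) : V d) + Pi.single i 1 = 0 := by
  unfold st
  funext j
  by_cases h : j = i
  · subst h; simp
  · simp [Pi.single_eq_of_ne h]

theorem outE_disj (n : ℕ) (ρ : Finset (V d)) : Disjoint (EB n (0 : V d)) (outE n ρ) := by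
  classical
  rw [Finset.disjoint_left]
  intro e he ho
  obtain ⟨v, -, dir, hd, rfl⟩ := mem_outE.1 ho
  unfold EB at he
  rw [Finset.mem_filter, Finset.mem_product] at he
  obtain ⟨⟨h1, -⟩, h2⟩ := he
  obtain ⟨i, b⟩ := dir
  cases b with
  | true =>
    apply hd
    simpa [ed, st] using h2
  | false =>
    apply hd
    simpa [ed] using h1

theorem Clo_iff (ω : Om d) (m n : ℕ) :
    Clo ω m n ↔ ∀ e ∈ outE n (Rc ω m n), ω e = false := by
  constructor
  · intro h e he
    obtain ⟨v, hv, dir, hd, rfl⟩ := mem_outE.1 he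
    have := h v hv dir hd
    unfold opn at this
    simpa using this
  · intro h v hv dir hd
    unfold opn
    rw [h _ (mem_outE.2 ⟨v, hv, dir, hd, rfl⟩)]
    simp

theorem Rc_sub (ω : Om d) (m n : ℕ) : Rc ω m n ⊆ Bx n (0 : V d) := by
  classical
  unfold Rc
  exact Finset.filter_subset _ _

theorem outE_mono {n : ℕ} {ρ ρ' : Finset (V d)} (h : ρ ⊆ ρ') : outE n ρ ⊆ outE n ρ' := by
  intro e he
  obtain ⟨v, hv, dir, hd, rfl⟩ := mem_outE.1 he
  exact mem_outE.2 ⟨v, h hv, dir, hd, rfl⟩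

theorem Dep_Rc_eq (m n : ℕ) (ρ : Finset (V d)) :
    Dep (EB n (0 : V d) : Set (Ed d)) {ω : Om d | Rc ω m n = ρ} := by
  intro ω ω' h
  have : Rc ω m n = Rc ω' m n := Rc_congr m n ω ω' (fun e he => h e he)
  simp only [Set.mem_ofPred_eq, this]

theorem Dep_Rc_card (m n : ℕ) (Q : Finset (V d) → Prop) :
    Dep (EB n (0 : V d) : Set (Ed d)) {ω : Om d | Q (Rc ω m n)} := by
  intro ω ω' h
  have : Rc ω m n = Rc ω' m n := Rc_congr m n ω ω' (fun e he => h e he)
  simp only [Set.mem_ofPred_eq, this]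

open Classical in
theorem Dep_NC (m n : ℕ) :
    Dep ((EB n (0 : V d) ∪ outE n (Bx n (0 : V d)) : Finset (Ed d)) : Set (Ed d))
      {ω : Om d | (Rc ω m n).Nonempty ∧ Clo ω m n} := by
  intro ω ω' h
  have h0 : Rc ω m n = Rc ω' m n := Rc_congr m n ω ω' (fun e he => h e (by
    simp only [Finset.coe_union, Set.mem_union, Finset.mem_coe]; exact Or.inl he))
  simp only [Set.mem_ofPred_eq, Clo_iff, ← h0]
  apply and_congr Iff.rfl
  apply forall_congr'
  intro e
  apply forall_congr'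
  intro he
  rw [h e (by
    simp only [Finset.coe_union, Set.mem_union, Finset.mem_coe]
    exact Or.inr (outE_mono (Rc_sub ω m n) he))]

theorem clo_ineq (p : unitInterval) (m n k : ℕ) :
    (1 - (p : ℝ)) ^ (2 * d * k) *
        (Pr d p).real {ω : Om d | 1 ≤ (Rc ω m n).card ∧ (Rc ω m n).card ≤ k} ≤
      (Pr d p).real {ω : Om d | (Rc ω m n).Nonempty ∧ Clo ω m n} := by
  classical
  have hPr : Pr d p = PB (fun _ : Ed d => p) := rfl
  rw [hPr]
  have hT : ∀ ω : Om d, Rc ω m n ∈ (Bx n (0 : V d)).powerset := fun ω =>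
    Finset.mem_powerset.2 (Rc_sub ω m n)
  have hf : ∀ b ∈ (Bx n (0 : V d)).powerset, MeasurableSet {ω : Om d | Rc ω m n = b} :=
    fun b _ => Dep.measurableSet _ (Dep_Rc_eq m n b)
  have hA : MeasurableSet {ω : Om d | 1 ≤ (Rc ω m n).card ∧ (Rc ω m n).card ≤ k} :=
    Dep.measurableSet _ (Dep_Rc_card m n (fun ρ => 1 ≤ ρ.card ∧ ρ.card ≤ k))
  have hB : MeasurableSet {ω : Om d | (Rc ω m n).Nonempty ∧ Clo ω m n} :=
    Dep.measurableSet _ (Dep_NC m n)
  rw [PB_partition (fun _ : Ed d => p) (fun ω => Rc ω m n) _ hT hf hA,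
    PB_partition (fun _ : Ed d => p) (fun ω => Rc ω m n) _ hT hf hB, Finset.mul_sum]
  apply Finset.sum_le_sum
  intro ρ _
  have hp0 : (0 : ℝ) ≤ 1 - (p : ℝ) := by linarith [p.2.2]
  have hp1 : 1 - (p : ℝ) ≤ 1 := by linarith [p.2.1]
  by_cases hρ : 1 ≤ ρ.card ∧ ρ.card ≤ k
  · have e1 : {ω : Om d | 1 ≤ (Rc ω m n).card ∧ (Rc ω m n).card ≤ k} ∩ {ω | Rc ω m n = ρ} =
        {ω : Om d | Rc ω m n = ρ} := by
      ext ω
      simp only [Set.mem_inter_iff, Set.mem_ofPred_eq]
      constructor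
      · exact fun h => h.2
      · intro h
        rw [h]
        exact ⟨hρ, rfl⟩
    have e2 : {ω : Om d | (Rc ω m n).Nonempty ∧ Clo ω m n} ∩ {ω | Rc ω m n = ρ} =
        {ω : Om d | Rc ω m n = ρ} ∩ {ω : Om d | ∀ e ∈ outE n ρ, ω e = false} := by
      ext ω
      simp only [Set.mem_inter_iff, Set.mem_ofPred_eq, Clo_iff]
      constructor
      · rintro ⟨⟨h1, h2⟩, h3⟩
        rw [h3] at h2
        exact ⟨h3, h2⟩
      · rintro ⟨h1, h2⟩
        rw [h1]
        exact ⟨⟨Finset.card_pos.1 hρ.1, h2⟩, rfl⟩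
    rw [e1, e2]
    have hD : Dep (outE n ρ : Set (Ed d)) {ω : Om d | ∀ e ∈ outE n ρ, ω e = false} := by
      intro ω ω' h
      simp only [Set.mem_ofPred_eq]
      apply forall_congr'
      intro e
      apply forall_congr'
      intro he
      rw [h e he]
    rw [PB_indep _ _ _ (outE_disj n ρ) (Dep_Rc_eq m n ρ) hD, PB_false, Finset.prod_const, mul_comm]
    apply mul_le_mul_of_nonneg_left _ measureReal_nonneg
    apply pow_le_pow_of_le_one hp0 hp1
    exact (card_outE n ρ).trans (Nat.mul_le_mul_left _ hρ.2)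
  · have e1 : {ω : Om d | 1 ≤ (Rc ω m n).card ∧ (Rc ω m n).card ≤ k} ∩ {ω | Rc ω m n = ρ} = ∅ := by
      ext ω
      simp only [Set.mem_inter_iff, Set.mem_ofPred_eq, Set.mem_empty_iff_false, iff_false]
      rintro ⟨h1, h2⟩
      rw [h2] at h1
      exact hρ h1
    rw [e1]
    simp only [measureReal_empty, mul_zero]
    exact measureReal_nonneg

theorem few_small (p : unitInterval) (hp : (p : ℝ) < 1) (m k n0 : ℕ) (η : ℝ) (hη : 0 < η) :
    ∃ n, n0 ≤ n ∧ m ≤ n ∧
      (Pr d p).real {ω : Om d | 1 ≤ (Rc ω m n).card ∧ (Rc ω m n).card ≤ k} ≤ η := by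
  classical
  by_contra hcon
  push Not at hcon
  set c : ℝ := (1 - (p : ℝ)) ^ (2 * d * k) * η with hc
  have hc0 : 0 < c := mul_pos (pow_pos (by linarith) _) hη
  obtain ⟨J, hJ⟩ := exists_nat_gt (1 / c)
  set N0 := max n0 m with hN0
  set E : ℕ → Set (Om d) := fun j => {ω : Om d | (Rc ω m (N0 + j)).Nonempty ∧ Clo ω m (N0 + j)}
    with hE
  have hmeas : ∀ j, MeasurableSet (E j) := fun j => Dep.measurableSet _ (Dep_NC m (N0 + j))
  have hdis : Set.PairwiseDisjoint (↑(Finset.range J)) E := by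
    intro i _ j _ hij
    rw [Function.onFun, Set.disjoint_left]
    intro ω h1 h2
    exact Clo_disjoint ω (m := m) (n := N0 + i) (n' := N0 + j)
      (le_trans (le_max_right n0 m) (Nat.le_add_right _ _))
      (le_trans (le_max_right n0 m) (Nat.le_add_right _ _)) (by omega) h1 h2
  have hsum : ∑ j ∈ Finset.range J, (Pr d p).real (E j) ≤ 1 := by
    rw [← measureReal_biUnion_finset hdis (fun j _ => hmeas j)]
    exact measureReal_le_one
  have hge : ∀ j ∈ Finset.range J, c ≤ (Pr d p).real (E j) := by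
    intro j _
    have h1 := hcon (N0 + j) (le_trans (le_max_left n0 m) (Nat.le_add_right _ _))
      (le_trans (le_max_right n0 m) (Nat.le_add_right _ _))
    refine le_trans ?_ (clo_ineq p m (N0 + j) k)
    exact mul_le_mul_of_nonneg_left h1.le (pow_nonneg (by linarith) _)
  have h2 : (J : ℝ) * c ≤ 1 := by
    refine le_trans ?_ hsum
    have := Finset.card_nsmul_le_sum (Finset.range J) (fun j => (Pr d p).real (E j)) c hge
    simpa [nsmul_eq_mul] using this
  rw [div_lt_iff₀ hc0] at hJ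
  linarith

theorem few_le (p : unitInterval) (hp : (p : ℝ) < 1) (m k n0 : ℕ) (η η' : ℝ) (hη : 0 < η)
    (hbig : ∀ n, m ≤ n → (Pr d p).real {ω : Om d | ¬ ∃ v ∈ Bx m (0 : V d), ToBd ω n 0 v} ≤ η') :
    ∃ n, n0 ≤ n ∧ m ≤ n ∧ (Pr d p).real {ω : Om d | (Rc ω m n).card ≤ k} ≤ η + η' := by
  obtain ⟨n, h1, h2, h3⟩ := few_small (d := d) p hp m k n0 η hη
  refine ⟨n, h1, h2, ?_⟩
  have hsub : {ω : Om d | (Rc ω m n).card ≤ k} ⊆
      {ω : Om d | 1 ≤ (Rc ω m n).card ∧ (Rc ω m n).card ≤ k} ∪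
        {ω : Om d | ¬ ∃ v ∈ Bx m (0 : V d), ToBd ω n 0 v} := by
    intro ω hω
    simp only [Set.mem_union, Set.mem_ofPred_eq]
    by_cases h : (Rc ω m n).Nonempty
    · left
      exact ⟨Finset.card_pos.2 h, hω⟩
    · right
      rwa [← Rc_nonempty_iff ω h2]
  calc (Pr d p).real {ω : Om d | (Rc ω m n).card ≤ k}
      ≤ (Pr d p).real ({ω : Om d | 1 ≤ (Rc ω m n).card ∧ (Rc ω m n).card ≤ k} ∪
        {ω : Om d | ¬ ∃ v ∈ Bx m (0 : V d), ToBd ω n 0 v}) := measureReal_mono hsub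
    _ ≤ _ := measureReal_union_le _ _
    _ ≤ η + η' := add_le_add h3 (hbig n h2)

end Ein99.GM
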