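import Pool.Agent.LibGM95.Defs
import Pool.Agent.LibEin99.C_Meas
import Pool.Agent.LibEin99.C_Chain
import Pool.Agent.LibEin99.E_Lln

/-!
TASK Z1. Large boxes meet the infinite cluster.
`exists_inf`: the event `∃ x, InfC ω x` is invariant under all shifts (`InfC_sh`), its indicator is
a.s. constant by `ae_const_of_invariant` (`E_Lln.lean`), and it has positive probability because it
contains `{InfC ω 0}`.  `big0`: the events `∃ v ∈ Bx m 0, InfC ω v` increase to it
(`tendsto_measure_iUnion_atTop` / `tendsto_measure_iInter_atTop`).  `big`: `toBd_of_InfC`.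
-/

set_option autoImplicit false

open MeasureTheory ProbabilityTheory Filter Topology

namespace Ein99.GM

variable {d : ℕ}

theorem Z1_meas_ex : MeasurableSet {ω : Om d | ∃ x : V d, InfC ω x} := by
  have h : {ω : Om d | ∃ x : V d, InfC ω x} = ⋃ x : V d, {ω : Om d | InfC ω x} := by
    ext ω
    simp only [Set.mem_setOf_eq, Set.mem_iUnion]
  rw [h]
  exact MeasurableSet.iUnion fun x => measurableSet_InfC x

theorem Z1_meas_box (m : ℕ) : MeasurableSet {ω : Om d | ∃ v ∈ Bx m (0 : V d), InfC ω v} := by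
  have h : {ω : Om d | ∃ v ∈ Bx m (0 : V d), InfC ω v} =
      ⋃ v : V d, {ω : Om d | v ∈ Bx m (0 : V d) ∧ InfC ω v} := by
    ext ω
    simp only [Set.mem_setOf_eq, Set.mem_iUnion]
  rw [h]
  refine MeasurableSet.iUnion fun v => ?_
  exact (MeasurableSet.const _).inter (measurableSet_InfC v)

theorem exists_inf (p : unitInterval) (h0 : 0 < (Pr d p).real {ω : Om d | InfC ω 0}) :
    ∀ᵐ ω ∂(Pr d p), ∃ x : V d, InfC ω x := by
  classical
  rcases Nat.eq_zero_or_pos d with hd | hd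
  · subst hd
    exfalso
    have hE : {ω : Om 0 | InfC ω 0} = ∅ := by
      ext ω
      simp only [Set.mem_setOf_eq, Set.mem_empty_iff_false, iff_false]
      intro h
      exact h (Set.toFinite _)
    rw [hE, measureReal_empty] at h0
    exact lt_irrefl _ h0
  · set A : Set (Om d) := {ω : Om d | ∃ x : V d, InfC ω x} with hA
    have hmA : MeasurableSet A := Z1_meas_ex
    let z : V d := fun _ => 1
    have hz : z ≠ 0 := by
      intro h
      have h1 := congrFun h ⟨0, hd⟩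
      simp only [z, Pi.zero_apply] at h1
      exact one_ne_zero h1
    have hInt : Integrable (A.indicator (fun _ => (1 : ℝ))) (Pr d p) :=
      (integrable_const (1 : ℝ)).indicator hmA
    have hiff : ∀ ω : Om d, sh z ω ∈ A ↔ ω ∈ A := by
      intro ω
      constructor
      · rintro ⟨x, hx⟩
        exact ⟨x + z, (InfC_sh ω z x).1 hx⟩
      · rintro ⟨x, hx⟩
        refine ⟨x - z, (InfC_sh ω z (x - z)).2 ?_⟩
        rw [sub_add_cancel]
        exact hx
    have hc := ae_const_of_invariant p (A.indicator (fun _ => (1 : ℝ))) hInt z hz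
      (Filter.Eventually.of_forall fun ω => by
        by_cases h : ω ∈ A
        · rw [Set.indicator_of_mem h, Set.indicator_of_mem ((hiff ω).2 h)]
        · rw [Set.indicator_of_notMem h, Set.indicator_of_notMem (fun h' => h ((hiff ω).1 h'))])
    have hpos : 0 < (Pr d p).real A :=
      lt_of_lt_of_le h0 (measureReal_mono (fun ω hω => ⟨0, hω⟩) (measure_ne_top _ _))
    have hI : ∫ ω', A.indicator (fun _ => (1 : ℝ)) ω' ∂(Pr d p) = (Pr d p).real A := by
      rw [integral_indicator hmA]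
      simp
    filter_upwards [hc] with ω hω
    by_contra hcon
    have hn : ω ∉ A := hcon
    rw [Set.indicator_of_notMem hn, hI] at hω
    exact absurd hω (ne_of_lt hpos)

theorem big0 (p : unitInterval) (h0 : 0 < (Pr d p).real {ω : Om d | InfC ω 0}) (η : ℝ)
    (hη : 0 < η) :
    ∃ m0 : ℕ, ∀ m : ℕ, m0 ≤ m → (Pr d p).real {ω : Om d | ¬ ∃ v ∈ Bx m (0 : V d), InfC ω v} ≤ η := by
  classical
  have hcomp : ∀ m : ℕ, {ω : Om d | ¬ ∃ v ∈ Bx m (0 : V d), InfC ω v} =
      {ω : Om d | ∃ v ∈ Bx m (0 : V d), InfC ω v}ᶜ := fun m => rfl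
  have hmeas : ∀ m : ℕ, MeasurableSet {ω : Om d | ¬ ∃ v ∈ Bx m (0 : V d), InfC ω v} := by
    intro m
    rw [hcomp m]
    exact (Z1_meas_box m).compl
  have hanti : Antitone (fun m : ℕ => {ω : Om d | ¬ ∃ v ∈ Bx m (0 : V d), InfC ω v}) := by
    intro a b hab ω hω
    simp only [Set.mem_setOf_eq] at hω ⊢
    rintro ⟨v, hv, hv2⟩
    exact hω ⟨v, Bx_mono hab _ hv, hv2⟩
  have hinter : (⋂ m : ℕ, {ω : Om d | ¬ ∃ v ∈ Bx m (0 : V d), InfC ω v}) ⊆
      {ω : Om d | ¬ ∃ x : V d, InfC ω x} := by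
    intro ω hω
    simp only [Set.mem_iInter, Set.mem_setOf_eq] at hω ⊢
    rintro ⟨x, hx⟩
    refine hω (∑ i, (x i).natAbs) ⟨x, ?_, hx⟩
    rw [mem_Bx]
    intro i
    have h1 : (x i).natAbs ≤ ∑ i, (x i).natAbs :=
      Finset.single_le_sum (f := fun i => (x i).natAbs) (fun _ _ => Nat.zero_le _)
        (Finset.mem_univ i)
    rw [Pi.zero_apply, sub_zero, Int.abs_eq_natAbs]
    exact_mod_cast h1
  have hzero : (Pr d p) (⋂ m : ℕ, {ω : Om d | ¬ ∃ v ∈ Bx m (0 : V d), InfC ω v}) = 0 := by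
    refine measure_mono_null hinter ?_
    exact ae_iff.1 (exists_inf p h0)
  have hlim : Tendsto (fun m : ℕ => (Pr d p) {ω : Om d | ¬ ∃ v ∈ Bx m (0 : V d), InfC ω v}) atTop
      (𝓝 0) := by
    rw [← hzero]
    exact tendsto_measure_iInter_atTop (fun m => (hmeas m).nullMeasurableSet) hanti
      ⟨0, measure_ne_top _ _⟩
  have hlim2 : Tendsto (fun m : ℕ => (Pr d p).real {ω : Om d | ¬ ∃ v ∈ Bx m (0 : V d), InfC ω v})
      atTop (𝓝 0) := by
    have := (ENNReal.tendsto_toReal ENNReal.zero_ne_top).comp hlim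
    rw [ENNReal.toReal_zero] at this
    exact this
  have hev : ∀ᶠ m in atTop, (Pr d p).real {ω : Om d | ¬ ∃ v ∈ Bx m (0 : V d), InfC ω v} < η :=
    hlim2.eventually (gt_mem_nhds hη)
  obtain ⟨m0, hm0⟩ := eventually_atTop.1 hev
  exact ⟨m0, fun m hm => (hm0 m hm).le⟩

theorem big (p : unitInterval) (h0 : 0 < (Pr d p).real {ω : Om d | InfC ω 0}) (η : ℝ)
    (hη : 0 < η) :
    ∃ m0 : ℕ, ∀ m : ℕ, m0 ≤ m → ∀ n : ℕ, m ≤ n →
      (Pr d p).real {ω : Om d | ¬ ∃ v ∈ Bx m (0 : V d), ToBd ω n 0 v} ≤ η := by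
  obtain ⟨m0, hm0⟩ := big0 p h0 η hη
  refine ⟨m0, fun m hm n hmn => le_trans (measureReal_mono ?_ (measure_ne_top _ _)) (hm0 m hm)⟩
  intro ω hω
  simp only [Set.mem_setOf_eq] at hω ⊢
  rintro ⟨v, hv, hv2⟩
  exact hω ⟨v, hv, toBd_of_InfC ω n (Bx_mono hmn _ hv) hv2⟩

end Ein99.GM
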