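import Pool.Agent.LibGM95.S1
import Pool.Agent.LibGM95.F2
import Pool.Agent.LibGM95.N2
import Pool.Agent.LibGM95.Z1
import Pool.Agent.LibEin99.C_Shift

/-!
TASK S2. The seed lemma.
`seed_cond`: partition on the value of `Vf ω m n dir σ` (`PB_partition`, values in
`(Bx n 0).powerset`): on `Vf = S` with `card S > k` no seed event forces `∀ u ∈ S, ¬ Sd m ω dir u`,
which is independent of `Vf = S` (`Vf_congr`, `sdE_disjoint`, `PB_indep` with `EB n 0` and
`S.biUnion sdE`); the law of `Vf` is the same under `q1` and `p1` (`PB_congr`).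
`seed0`: `K = 2 d 2^d`, `η' = (η/2)^K / 2`; `m ≥ 1` from `big` with `η'`; `k` from `seeds_many` with
`η/2`; `n ≥ m` from `few_le` (with `K k`, `η'`, `η'`); `sqrt_trick` gives `P(card Vf ≤ k) ≤ η/2`
(`d ≥ 1` because `dir` exists; if `η ≥ 1` nothing is to be shown but the argument also works).
`seed`: translation by `x`: `PB_reindex` with the bijection `e ↦ (e.1 + x, e.2)`.
-/

set_option autoImplicit false

open MeasureTheory ProbabilityTheory Filter Topology

namespace Ein99.GM

variable {d : ℕ}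

theorem S2_SeedEv_congr {m n : ℕ} {x : V d} {dir : Dir d} {σ : Fin d → Bool} (ω ω' : Om d)
    (h : ∀ e ∈ EB (n + 2 * m + 1) x, ω e = ω' e) (hs : SeedEv ω m n x dir σ) :
    SeedEv ω' m n x dir σ := by
  obtain ⟨u, hF, hR, hS⟩ := hs
  refine ⟨u, hF, ?_, ?_⟩
  · refine (Dep_Rch m n x u ω ω' (fun e he => h e ?_)).1 hR
    exact EB_mono (by omega) x (Finset.mem_coe.1 he)
  · refine (Dep_Sd m dir u ω ω' (fun e he => h e ?_)).1 hS
    exact sdE_subset hF (Finset.mem_coe.1 he)

theorem Dep_SeedEv (m n : ℕ) (x : V d) (dir : Dir d) (σ : Fin d → Bool) :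
    Dep (EB (n + 2 * m + 1) x : Set (Ed d)) {ω : Om d | SeedEv ω m n x dir σ} := by
  intro ω ω' h
  exact ⟨S2_SeedEv_congr ω ω' (fun e he => h e (Finset.mem_coe.2 he)),
    S2_SeedEv_congr ω' ω (fun e he => (h e (Finset.mem_coe.2 he)).symm)⟩

theorem S2_mem_Vf {m n : ℕ} {dir : Dir d} {σ : Fin d → Bool} {ω : Om d} {u : V d} :
    u ∈ Vf ω m n dir σ ↔ u ∈ Bx n (0 : V d) ∧ OnBd n 0 u ∧ Rch ω m n 0 u ∧ Fc n 0 dir σ u := by
  classical
  unfold Vf Rc
  rw [Finset.mem_filter, Finset.mem_filter]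
  tauto

theorem S2_OnBd {n : ℕ} {dir : Dir d} {σ : Fin d → Bool} {u : V d} (h : Fc n 0 dir σ u) :
    OnBd n 0 u := by
  obtain ⟨h1, h2, -⟩ := h
  refine ⟨h1, dir.1, ?_⟩
  rw [h2]
  split_ifs <;> simp

theorem seed_cond (p1 de : unitInterval) (m n k : ℕ) (dir : Dir d) (σ : Fin d → Bool) (η η' : ℝ)
    (hη : 0 ≤ η)
    (h1 : (Pr d p1).real {ω : Om d | (Vf ω m n dir σ).card ≤ k} ≤ η')
    (h2 : ∀ S : Finset (V d), (∀ u ∈ S, Fc n 0 dir σ u) → k ≤ S.card →
      ∀ q : Ed d → unitInterval, (∀ e, e ∉ EB n (0 : V d) → q e = de) →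
        (PB q).real {ω : Om d | ∀ u ∈ S, ¬ Sd m ω dir u} ≤ η) :
    (PB (q1 p1 de n (0 : V d))).real {ω : Om d | ¬ SeedEv ω m n 0 dir σ} ≤ η + η' := by
  classical
  set q := q1 p1 de n (0 : V d) with hq
  have hqout : ∀ e, e ∉ EB n (0 : V d) → q e = de := fun e he => by
    rw [hq]; unfold q1; rw [if_neg he]
  have hqin : ∀ e ∈ EB n (0 : V d), q e = p1 := fun e he => by
    rw [hq]; unfold q1; rw [if_pos he]
  -- few vertices
  have hdf : Dep (EB n (0 : V d) : Set (Ed d)) {ω : Om d | (Vf ω m n dir σ).card ≤ k} := by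
    intro ω ω' h
    show (Vf ω m n dir σ).card ≤ k ↔ (Vf ω' m n dir σ).card ≤ k
    rw [Vf_congr m n dir σ ω ω' (fun e he => h e (Finset.mem_coe.2 he))]
  have hdV : ∀ S : Finset (V d), Dep (EB n (0 : V d) : Set (Ed d))
      {ω : Om d | Vf ω m n dir σ = S} := by
    intro S ω ω' h
    show Vf ω m n dir σ = S ↔ Vf ω' m n dir σ = S
    rw [Vf_congr m n dir σ ω ω' (fun e he => h e (Finset.mem_coe.2 he))]
  have hfew : (PB q).real {ω : Om d | (Vf ω m n dir σ).card ≤ k} ≤ η' := by
    have h3 : (PB q).real {ω : Om d | (Vf ω m n dir σ).card ≤ k} =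
        (PB (fun _ : Ed d => p1)).real {ω : Om d | (Vf ω m n dir σ).card ≤ k} :=
      PB_congr q (fun _ => p1) (EB n 0) hqin hdf
    rw [h3]
    exact h1
  have hsub : ∀ ω : Om d, Vf ω m n dir σ ∈ (Bx n (0 : V d)).powerset := fun ω => by
    rw [Finset.mem_powerset]
    intro u hu
    exact (S2_mem_Vf.1 hu).1
  have hVm : ∀ S ∈ (Bx n (0 : V d)).powerset, MeasurableSet {ω : Om d | Vf ω m n dir σ = S} :=
    fun S _ => (hdV S).measurableSet (EB n 0)
  have hNm : MeasurableSet {ω : Om d | ¬ SeedEv ω m n 0 dir σ} :=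
    (Dep_SeedEv m n 0 dir σ).compl.measurableSet (EB (n + 2 * m + 1) 0)
  have hfm : MeasurableSet {ω : Om d | (Vf ω m n dir σ).card ≤ k} := hdf.measurableSet (EB n 0)
  set A : Set (Om d) := {ω : Om d | ¬ SeedEv ω m n 0 dir σ} with hA
  set F : Set (Om d) := {ω : Om d | (Vf ω m n dir σ).card ≤ k} with hF
  have hsplit : (PB q).real A ≤ (PB q).real (A \ F) + (PB q).real F := by
    calc (PB q).real A ≤ (PB q).real ((A \ F) ∪ F) := by
          refine measureReal_mono ?_
          intro ω hω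
          by_cases h : ω ∈ F
          · exact Or.inr h
          · exact Or.inl ⟨hω, h⟩
      _ ≤ _ := measureReal_union_le _ _
  have hmain : (PB q).real (A \ F) ≤ η := by
    rw [PB_partition q (fun ω => Vf ω m n dir σ) (Bx n (0 : V d)).powerset hsub hVm
      (hNm.diff hfm)]
    have hone : ∑ S ∈ (Bx n (0 : V d)).powerset, (PB q).real {ω : Om d | Vf ω m n dir σ = S}
        ≤ 1 := by
      have h := PB_partition q (fun ω => Vf ω m n dir σ) (Bx n (0 : V d)).powerset hsub hVm
        (A := Set.univ) MeasurableSet.univ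
      simp only [Set.univ_inter] at h
      rw [← h]
      simp
    calc ∑ S ∈ (Bx n (0 : V d)).powerset, (PB q).real ((A \ F) ∩ {ω | Vf ω m n dir σ = S})
        ≤ ∑ S ∈ (Bx n (0 : V d)).powerset, (PB q).real {ω : Om d | Vf ω m n dir σ = S} * η := by
          refine Finset.sum_le_sum (fun S _ => ?_)
          by_cases hS : (∀ u ∈ S, Fc n 0 dir σ u) ∧ k < S.card
          · have hinc : (A \ F) ∩ {ω | Vf ω m n dir σ = S} ⊆
                {ω : Om d | Vf ω m n dir σ = S} ∩ {ω : Om d | ∀ u ∈ S, ¬ Sd m ω dir u} := by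
              rintro ω ⟨⟨h3, _⟩, h5⟩
              refine ⟨h5, fun u hu hsd => h3 ?_⟩
              have h5' : Vf ω m n dir σ = S := h5
              rw [← h5'] at hu
              have h6 := S2_mem_Vf.1 hu
              exact ⟨u, h6.2.2.2, h6.2.2.1, hsd⟩
            refine (measureReal_mono hinc).trans ?_
            have hdS : Dep ((S.biUnion (fun u => sdE m dir u) : Finset (Ed d)) : Set (Ed d))
                {ω : Om d | ∀ u ∈ S, ¬ Sd m ω dir u} := by
              intro ω ω' h
              have h7 : ∀ u ∈ S, (Sd m ω dir u ↔ Sd m ω' dir u) := fun u hu =>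
                Dep_Sd m dir u ω ω' (fun e he => h e (by
                  rw [Finset.mem_coe, Finset.mem_biUnion]
                  exact ⟨u, hu, Finset.mem_coe.1 he⟩))
              exact ⟨fun h8 u hu h9 => h8 u hu ((h7 u hu).2 h9),
                fun h8 u hu h9 => h8 u hu ((h7 u hu).1 h9)⟩
            have hdis : Disjoint (EB n (0 : V d)) (S.biUnion (fun u => sdE m dir u)) := by
              rw [Finset.disjoint_right]
              intro e he
              rw [Finset.mem_biUnion] at he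
              obtain ⟨u, hu, heu⟩ := he
              exact Finset.disjoint_left.1 (sdE_disjoint (hS.1 u hu)) heu
            rw [PB_indep q (EB n 0) (S.biUnion (fun u => sdE m dir u)) hdis (hdV S) hdS]
            refine mul_le_mul_of_nonneg_left ?_ measureReal_nonneg
            exact h2 S hS.1 hS.2.le q hqout
          · have hem : (A \ F) ∩ {ω | Vf ω m n dir σ = S} = ∅ := by
              ext ω
              constructor
              · rintro ⟨⟨_, h4⟩, h5⟩
                exfalso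
                apply hS
                have h5' : Vf ω m n dir σ = S := h5
                refine ⟨fun u hu => ?_, ?_⟩
                · rw [← h5'] at hu
                  exact (S2_mem_Vf.1 hu).2.2.2
                · rw [← h5']
                  exact not_le.1 h4
              · intro h
                exact absurd h (Set.notMem_empty ω)
            rw [hem]
            simp only [measureReal_empty]
            exact mul_nonneg measureReal_nonneg hη
      _ = (∑ S ∈ (Bx n (0 : V d)).powerset, (PB q).real {ω : Om d | Vf ω m n dir σ = S}) * η := by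
          rw [Finset.sum_mul]
      _ ≤ 1 * η := mul_le_mul_of_nonneg_right hone hη
      _ = η := one_mul η
  linarith

/-- the translation of the edges -/
def S2_eq (x : V d) : Ed d ≃ Ed d where
  toFun e := (e.1 + x, e.2)
  invFun e := (e.1 - x, e.2)
  left_inv e := by simp
  right_inv e := by simp

theorem S2_Bx (r : ℕ) (x c v : V d) : v + x ∈ Bx r (c + x) ↔ v ∈ Bx r c := by
  rw [mem_Bx, mem_Bx]
  have h : ∀ i, (v + x) i - (c + x) i = v i - c i := fun i => by
    simp only [Pi.add_apply]; ring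
  simp only [h]

theorem S2_Fc (n : ℕ) (x u : V d) (dir : Dir d) (σ : Fin d → Bool) :
    Fc n x dir σ (u + x) ↔ Fc n 0 dir σ u := by
  unfold Fc
  have h0 : u + x ∈ Bx n x ↔ u ∈ Bx n (0 : V d) := by
    have := S2_Bx n x 0 u
    rwa [zero_add] at this
  have h : ∀ i, (u + x) i - x i = u i - (0 : V d) i := fun i => by
    simp only [Pi.add_apply, Pi.zero_apply]; ring
  rw [h0]
  simp only [h]

theorem S2_Sd (m : ℕ) (ω : Om d) (x u : V d) (dir : Dir d) :
    Sd m (sh x ω) dir u ↔ Sd m ω dir (u + x) := by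
  unfold Sd
  rw [opn_sh]
  have hc : ctr m dir (u + x) = ctr m dir u + x := by unfold ctr; abel
  rw [hc]
  have hiff : (∀ e ∈ EB m (ctr m dir u), sh x ω e = true) ↔
      ∀ e ∈ EB m (ctr m dir u + x), ω e = true := by
    constructor
    · intro h e he
      have h1 : (e.1 - x, e.2) ∈ EB m (ctr m dir u) := by
        rw [Ein99.mem_EB] at he ⊢
        refine ⟨?_, ?_⟩
        · have := (S2_Bx m x (ctr m dir u) (e.1 - x)).1 (by rw [sub_add_cancel]; exact he.1)
          exact this
        · have := (S2_Bx m x (ctr m dir u) (e.1 - x + st (e.2, true))).1 (by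
            have h2 : e.1 - x + st (e.2, true) + x = e.1 + st (e.2, true) := by abel
            rw [h2]; exact he.2)
          exact this
      have h2 := h _ h1
      unfold sh at h2
      simpa using h2
    · intro h e he
      unfold sh
      apply h
      rw [Ein99.mem_EB] at he ⊢
      refine ⟨(S2_Bx m x _ _).2 he.1, ?_⟩
      have h2 : (e.1 + x, e.2).1 + st ((e.1 + x, e.2).2, true) = e.1 + st (e.2, true) + x := by
        show e.1 + x + st (e.2, true) = _
        abel
      rw [h2]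
      exact (S2_Bx m x _ _).2 he.2
  rw [hiff]

theorem S2_Rch (m n : ℕ) (ω : Om d) (x u : V d) :
    Rch (sh x ω) m n 0 u ↔ Rch ω m n x (u + x) := by
  unfold Rch
  constructor
  · rintro ⟨v, hv, hj⟩
    have h1 := (JoinIn_sh ω n 0 x v u).1 hj
    rw [zero_add] at h1
    refine ⟨v + x, ?_, h1⟩
    have := (S2_Bx m x 0 v).2 hv
    rwa [zero_add] at this
  · rintro ⟨v, hv, hj⟩
    refine ⟨v - x, ?_, ?_⟩
    · have := (S2_Bx m x 0 (v - x)).1 (by rw [zero_add, sub_add_cancel]; exact hv)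
      exact this
    · rw [JoinIn_sh, zero_add, sub_add_cancel]
      exact hj

theorem S2_SeedEv (m n : ℕ) (ω : Om d) (x : V d) (dir : Dir d) (σ : Fin d → Bool) :
    SeedEv (sh x ω) m n 0 dir σ ↔ SeedEv ω m n x dir σ := by
  unfold SeedEv
  constructor
  · rintro ⟨u, h1, h2, h3⟩
    exact ⟨u + x, (S2_Fc n x u dir σ).2 h1, (S2_Rch m n ω x u).1 h2, (S2_Sd m ω x u dir).1 h3⟩
  · rintro ⟨u, h1, h2, h3⟩
    refine ⟨u - x, (S2_Fc n x (u - x) dir σ).1 ?_, (S2_Rch m n ω x (u - x)).2 ?_,
      (S2_Sd m ω x (u - x) dir).2 ?_⟩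
    · rw [sub_add_cancel]; exact h1
    · rw [sub_add_cancel]; exact h2
    · rw [sub_add_cancel]; exact h3

theorem seed_shift (p1 de : unitInterval) (m n : ℕ) (x : V d) (dir : Dir d) (σ : Fin d → Bool) :
    (PB (q1 p1 de n x)).real {ω : Om d | SeedEv ω m n x dir σ} =
      (PB (q1 p1 de n (0 : V d))).real {ω : Om d | SeedEv ω m n 0 dir σ} := by
  have hm : MeasurableSet {ω : Om d | SeedEv ω m n 0 dir σ} :=
    (Dep_SeedEv m n 0 dir σ).measurableSet (EB (n + 2 * m + 1) 0)
  have h := PB_reindex (S2_eq x) (q1 p1 de n x) hm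
  have h1 : {ω : Om d | (fun k => ω (S2_eq x k)) ∈ {ω : Om d | SeedEv ω m n 0 dir σ}} =
      {ω : Om d | SeedEv ω m n x dir σ} := by
    ext ω
    exact S2_SeedEv m n ω x dir σ
  have h2 : (fun k => q1 p1 de n x (S2_eq x k)) = q1 p1 de n (0 : V d) := by
    funext e
    unfold q1
    have h3 : S2_eq x e ∈ EB n x ↔ e ∈ EB n (0 : V d) := by
      rw [Ein99.mem_EB, Ein99.mem_EB]
      have h4 : (S2_eq x e).1 = e.1 + x := rfl
      have h5 : (S2_eq x e).2 = e.2 := rfl
      rw [h4, h5]
      have h6 := S2_Bx n x 0 e.1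
      have h7 := S2_Bx n x 0 (e.1 + st (e.2, true))
      rw [zero_add] at h6 h7
      have h8 : e.1 + x + st (e.2, true) = e.1 + st (e.2, true) + x := by abel
      rw [h8, h6, h7]
    by_cases h4 : e ∈ EB n (0 : V d)
    · rw [if_pos h4, if_pos (h3.2 h4)]
    · rw [if_neg h4, if_neg (fun h5 => h4 (h3.1 h5))]
  rw [h1, h2] at h
  exact h

theorem seed (d : ℕ) (p1 de : unitInterval) (h0 : 0 < (Pr d p1).real {ω : Om d | InfC ω 0})
    (hp1 : (p1 : ℝ) < 1) (hde : 0 < (de : ℝ)) (η : ℝ) (hη : 0 < η) :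
    ∃ m n : ℕ, 1 ≤ m ∧ m ≤ n ∧ ∀ (x : V d) (dir : Dir d) (σ : Fin d → Bool),
      1 - η ≤ (PB (q1 p1 de n x)).real {ω : Om d | SeedEv ω m n x dir σ} := by
  set K : ℕ := 2 * d * 2 ^ d with hK
  set η' : ℝ := (η / 2) ^ K / 2 with hη'
  have hη'0 : 0 < η' := by positivity
  obtain ⟨m0, hm0⟩ := big p1 h0 η' hη'0
  set m : ℕ := max m0 1 with hm
  obtain ⟨k, hk⟩ := seeds_many d m de hde (η / 2) (by positivity)
  obtain ⟨n, -, hmn, hn⟩ := few_le p1 hp1 m (K * k) 0 η' η' hη'0 (hm0 m (le_max_left _ _))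
  refine ⟨m, n, le_max_right _ _, hmn, ?_⟩
  intro x dir σ
  rw [seed_shift]
  have hd : 0 < d := Fin.pos dir.1
  have hK0 : K ≠ 0 := by
    rw [hK]
    positivity
  have hsq := sqrt_trick p1 m n k dir σ
  rw [← hK] at hsq
  have hle : (Pr d p1).real {ω : Om d | (Vf ω m n dir σ).card ≤ k} ^ K ≤ (η / 2) ^ K := by
    refine hsq.trans (hn.trans ?_)
    rw [hη']
    linarith
  have hle' : (Pr d p1).real {ω : Om d | (Vf ω m n dir σ).card ≤ k} ≤ η / 2 :=
    le_of_pow_le_pow_left₀ hK0 (by positivity) hle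
  have hc := seed_cond p1 de m n k dir σ (η / 2) (η / 2) (by positivity) hle'
    (fun S hS hkS q hq => hk n 0 dir σ S hS hkS q hq)
  have hmeas : MeasurableSet {ω : Om d | SeedEv ω m n 0 dir σ} :=
    (Dep_SeedEv m n 0 dir σ).measurableSet (EB (n + 2 * m + 1) 0)
  have hcompl : {ω : Om d | ¬ SeedEv ω m n 0 dir σ} = {ω : Om d | SeedEv ω m n 0 dir σ}ᶜ := rfl
  rw [hcompl, probReal_compl_eq_one_sub hmeas] at hc
  linarith

end Ein99.GM
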