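import Pool.Agent.LibGM95.P2
import Pool.Agent.LibGM95.S2

/-!
TASK P3. The one-step lemma (assembly).
-/

set_option autoImplicit false

open MeasureTheory ProbabilityTheory Filter Topology

namespace Ein99.GM

variable {d : ℕ}

theorem real_lemma {κ : Type*} (I : Finset κ) (w : κ → ℝ) (c : κ → ℕ) (a b ε : ℝ) (t : ℕ)
    (hw : ∀ i ∈ I, 0 ≤ w i) (hw1 : ∑ i ∈ I, w i ≤ 1) (ha0 : 0 < a) (ha1 : a ≤ 1) (hb0 : 0 ≤ b)
    (hb1 : b ≤ 1) (h1 : ∑ i ∈ I, w i * a ^ c i ≤ a ^ t * (ε / 2)) (h2 : b ^ t ≤ ε / 2) :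
    ∑ i ∈ I, w i * b ^ c i ≤ ε := by
  have hat : 0 < a ^ t := by positivity
  have hbt : 0 ≤ b ^ t := by positivity
  have key : ∀ i ∈ I, w i * b ^ c i ≤ w i * a ^ c i / a ^ t + w i * b ^ t := by
    intro i hi
    have hwi := hw i hi
    rcases le_or_gt (c i) t with h | h
    · have h3 : a ^ t ≤ a ^ c i := pow_le_pow_of_le_one ha0.le ha1 h
      have h4 : w i ≤ w i * a ^ c i / a ^ t := by
        rw [le_div_iff₀ hat]
        exact mul_le_mul_of_nonneg_left h3 hwi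
      have h5 : w i * b ^ c i ≤ w i := by
        have := pow_le_one₀ (n := c i) hb0 hb1
        nlinarith
      have h6 : 0 ≤ w i * b ^ t := mul_nonneg hwi hbt
      linarith
    · have h3 : b ^ c i ≤ b ^ t := pow_le_pow_of_le_one hb0 hb1 h.le
      have h4 : w i * b ^ c i ≤ w i * b ^ t := mul_le_mul_of_nonneg_left h3 hwi
      have h5 : 0 ≤ w i * a ^ c i / a ^ t := by positivity
      linarith
  calc ∑ i ∈ I, w i * b ^ c i ≤ ∑ i ∈ I, (w i * a ^ c i / a ^ t + w i * b ^ t) :=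
        Finset.sum_le_sum key
    _ = (∑ i ∈ I, w i * a ^ c i) / a ^ t + (∑ i ∈ I, w i) * b ^ t := by
        rw [Finset.sum_add_distrib, Finset.sum_div, Finset.sum_mul]
    _ ≤ ε / 2 + 1 * (ε / 2) := by
        refine add_le_add ?_ ?_
        · rw [div_le_iff₀ hat]
          linarith
        · exact mul_le_mul hw1 h2 hbt zero_le_one
    _ = ε := by ring

theorem step (d : ℕ) (p1 de : unitInterval) (h0 : 0 < (Pr d p1).real {ω : Om d | InfC ω 0})
    (hp1 : (p1 : ℝ) < 1) (hde : 0 < (de : ℝ)) (ε : ℝ) (hε : 0 < ε) :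
    ∃ m n : ℕ, 1 ≤ m ∧ m ≤ n ∧ ∀ (x : V d) (dir : Dir d) (σ : Fin d → Bool) (C : Finset (V d)),
      Bx m x ⊆ C → ∀ a : Ed d → unitInterval, (∀ e, de ≤ a e) →
      (∀ e ∈ EB n x, e.1 ∉ C → e.1 + st (e.2, true) ∉ C → p1 ≤ a e) →
      1 - ε ≤ (PB a).real {ω : Om d | Succ ω m n x dir σ C} := by
  classical
  obtain ⟨t, ht⟩ := exists_pow_lt_of_lt_one (half_pos hε) (show 1 - (de : ℝ) < 1 by linarith)
  have hp0 : 0 < 1 - (p1 : ℝ) := by linarith
  have hp01 : 1 - (p1 : ℝ) ≤ 1 := by linarith [p1.2.1]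
  obtain ⟨m, n, hm, hmn, hs⟩ := seed d p1 de h0 hp1 hde ((1 - (p1 : ℝ)) ^ t * (ε / 2))
    (by positivity)
  refine ⟨m, n, hm, hmn, ?_⟩
  intro x dir σ C hC a ha1 ha2
  have hsm : MeasurableSet {ω : Om d | SeedEv ω m n x dir σ} :=
    (Dep_SeedEv m n x dir σ).measurableSet (EB (n + 2 * m + 1) x)
  have hbad : (PB (q1 p1 de n x)).real {ω : Om d | ¬ E0 ω m n x dir σ C ∧
        ∀ e ∈ UU ω m n x dir σ C, ω e = false} ≤ (1 - (p1 : ℝ)) ^ t * (ε / 2) := by
    have h1 : (PB (q1 p1 de n x)).real {ω : Om d | ¬ E0 ω m n x dir σ C ∧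
        ∀ e ∈ UU ω m n x dir σ C, ω e = false} ≤
        (PB (q1 p1 de n x)).real {ω : Om d | SeedEv ω m n x dir σ}ᶜ := by
      refine measureReal_mono ?_
      rintro ω ⟨h2, h3⟩
      exact not_seed ω m n x dir σ C hC h2 h3
    rw [probReal_compl_eq_one_sub hsm] at h1
    have h2 := hs x dir σ
    linarith
  rw [← sum_q1] at hbad
  have hmain := real_lemma (EB n x).powerset
    (fun U => (PB (q1 p1 de n x)).real
      {ω : Om d | UU ω m n x dir σ C = U ∧ ¬ E0 ω m n x dir σ C})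
    (fun U => U.card) (1 - (p1 : ℝ)) (1 - (de : ℝ)) ε t (fun _ _ => measureReal_nonneg)
    (sum_le_one p1 de m n x dir σ C) hp0 hp01 (by linarith [de.2.2]) (by linarith) hbad ht.le
  rw [sum_q2] at hmain
  have hSm : MeasurableSet {ω : Om d | Succ ω m n x dir σ C} :=
    (Dep_Succ m n x dir σ C).measurableSet (EB (n + 2 * m + 1) x)
  have hq2 : 1 - ε ≤ (PB (q2 p1 de n x C)).real {ω : Om d | Succ ω m n x dir σ C} := by
    have h1 : (PB (q2 p1 de n x C)).real {ω : Om d | Succ ω m n x dir σ C}ᶜ ≤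
        (PB (q2 p1 de n x C)).real {ω : Om d | ¬ E0 ω m n x dir σ C ∧
        ∀ e ∈ UU ω m n x dir σ C, ω e = false} := by
      refine measureReal_mono ?_
      intro ω hω
      refine ⟨fun h2 => hω (succ_of ω m n x dir σ C (Or.inl h2)), fun e he => ?_⟩
      by_contra h3
      refine hω (succ_of ω m n x dir σ C (Or.inr ⟨e, he, ?_⟩))
      simpa using h3
    rw [probReal_compl_eq_one_sub hSm] at h1
    linarith
  refine hq2.trans (PB_mono _ _ (EB (n + 2 * m + 1) x) (fun e _ => ?_) (Dep_Succ m n x dir σ C)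
    (Inc_Succ m n x dir σ C))
  unfold q2
  split_ifs with h
  · exact ha2 e h.1 h.2.1 h.2.2
  · exact ha1 e

end Ein99.GM
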