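import Pool.Agent.LibEin99.Defs4

/-!
# The core cluster: interface between the exploration and the merging of clusters
-/

open MeasureTheory ProbabilityTheory Filter Topology

namespace Ein99

variable {d : ℕ}

/-- Every nearest neighbour path of coarse vertices inside `Bx ρ 0` of diameter more than `2 k`
contains a coarse vertex `u` whose block `Bx N (N u)` meets `M`. -/
def Hits (N k ρ : ℕ) (M : Set (V d)) : Prop :=
  ∀ (S : Set (V d)) (z z' : V d), S ⊆ (Bx ρ (0 : V d) : Set (V d)) → NJoin S z z' → z ∈ S →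
    z' ∉ Bx (2 * k) z → ∃ u ∈ S, ∃ v ∈ M, v ∈ Bx N ((N : ℤ) • u)

/-- The configuration has a connected set of vertices in `Bx R 0` which is hit by all long coarse
paths. -/
def Core (N k ρ R : ℕ) (ω : Om d) : Prop :=
  ∃ M : Set (V d), M ⊆ (Bx R (0 : V d) : Set (V d)) ∧
    (∀ x ∈ M, ∀ y ∈ M, JoinIn ω (Bx R (0 : V d) : Set (V d)) x y) ∧ Hits N k ρ M

end Ein99
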