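import Pool.Agent.LibEin99.Defs

/-!
# LibGM95: seed lemma and one-step lemma for supercritical percolation, all `d`

Namespace `Ein99.GM`.  `PB q`: product Bernoulli measure on `ι → Bool` with parameters `q`;
`Pr d p = PB (fun _ => p)` by `rfl`.
-/

set_option autoImplicit false

open MeasureTheory ProbabilityTheory Filter Topology

namespace Ein99.GM

/-- The product measure on `ι → Bool` for which the coordinate `i` is `true` with probability
`q i`. -/
noncomputable def PB {ι : Type*} (q : ι → unitInterval) : Measure (ι → Bool) :=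
  Measure.infinitePi (fun i => bernoulliMeasure true false (q i))

instance {ι : Type*} (q : ι → unitInterval) : IsProbabilityMeasure (PB q) := by
  unfold PB; infer_instance

/-- `A` only depends on the coordinates in `S`. -/
def Dep {ι : Type*} (S : Set ι) (A : Set (ι → Bool)) : Prop :=
  ∀ ω ω' : ι → Bool, (∀ i ∈ S, ω i = ω' i) → (ω ∈ A ↔ ω' ∈ A)

/-- Increasing events. -/
def Inc {ι : Type*} (A : Set (ι → Bool)) : Prop :=
  ∀ ω ω' : ι → Bool, (∀ i, ω i = true → ω' i = true) → ω ∈ A → ω' ∈ A

/-- Decreasing events. -/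
def Decr {ι : Type*} (A : Set (ι → Bool)) : Prop :=
  ∀ ω ω' : ι → Bool, (∀ i, ω i = true → ω' i = true) → ω' ∈ A → ω ∈ A

variable {d : ℕ}

/-- The face orthant of the box of radius `n` around `x` in direction `dir` with steering `σ`. -/
def Fc (n : ℕ) (x : V d) (dir : Dir d) (σ : Fin d → Bool) (u : V d) : Prop :=
  u ∈ Bx n x ∧ u dir.1 - x dir.1 = (if dir.2 then (n : ℤ) else -(n : ℤ)) ∧
  ∀ b, b ≠ dir.1 → (if σ b then 0 ≤ u b - x b else u b - x b ≤ 0)

/-- The centre of the seed attached to `u` in direction `dir`. -/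
def ctr (m : ℕ) (dir : Dir d) (u : V d) : V d := u + (m + 1) • st dir

/-- The edge from `u` in direction `dir` and all edges of the seed box are open. -/
def Sd (m : ℕ) (ω : Om d) (dir : Dir d) (u : V d) : Prop :=
  opn ω u dir ∧ ∀ e ∈ EB m (ctr m dir u), ω e = true

/-- `u` is joined to the box of radius `m` around `x` inside the box of radius `n`. -/
def Rch (ω : Om d) (m n : ℕ) (x u : V d) : Prop :=
  ∃ v ∈ Bx m x, JoinIn ω (Bx n x : Set (V d)) v u

/-- The seed event: some vertex of the face orthant is reached and carries a seed. -/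
def SeedEv (ω : Om d) (m n : ℕ) (x : V d) (dir : Dir d) (σ : Fin d → Bool) : Prop :=
  ∃ u, Fc n x dir σ u ∧ Rch ω m n x u ∧ Sd m ω dir u

open Classical in
/-- The vertices of the boundary of the box of radius `n` reached from the box of radius `m`. -/
noncomputable def Rc (ω : Om d) (m n : ℕ) : Finset (V d) :=
  (Bx n (0 : V d)).filter (fun v => OnBd n 0 v ∧ Rch ω m n 0 v)

/-- All edges leaving the box from the reached boundary vertices are closed. -/
def Clo (ω : Om d) (m n : ℕ) : Prop :=
  ∀ v ∈ Rc ω m n, ∀ dir : Dir d, v + st dir ∉ Bx n (0 : V d) → ¬ opn ω v dir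

open Classical in
/-- The reached vertices of a face orthant. -/
noncomputable def Vf (ω : Om d) (m n : ℕ) (dir : Dir d) (σ : Fin d → Bool) : Finset (V d) :=
  (Rc ω m n).filter (fun u => Fc n 0 dir σ u)

/-- The signed permutation of the coordinates. -/
def sp (π : Equiv.Perm (Fin d)) (ε : Fin d → Bool) (x : V d) : V d :=
  fun i => if ε i then x (π i) else - x (π i)

/-- The action of the signed permutation on directions. -/
def spd (π : Equiv.Perm (Fin d)) (ε : Fin d → Bool) (dir : Dir d) : Dir d :=
  (π.symm dir.1, if ε (π.symm dir.1) then dir.2 else !dir.2)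

/-- The action of the signed permutation on edges. -/
def spe (π : Equiv.Perm (Fin d)) (ε : Fin d → Bool) (e : Ed d) : Ed d :=
  ed (sp π ε e.1) (spd π ε (e.2, true))

open Classical in
/-- Parameters of the seed lemma: `p1` inside the box, `δ` outside. -/
noncomputable def q1 (p1 δ : unitInterval) (n : ℕ) (x : V d) : Ed d → unitInterval :=
  fun e => if e ∈ EB n x then p1 else δ

open Classical in
/-- Parameters of the step lemma: `p1` on the edges of the box without endpoint in `C`, `δ`
elsewhere. -/
noncomputable def q2 (p1 δ : unitInterval) (n : ℕ) (x : V d) (C : Finset (V d)) :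
    Ed d → unitInterval :=
  fun e => if e ∈ EB n x ∧ e.1 ∉ C ∧ e.1 + st (e.2, true) ∉ C then p1 else δ

open Classical in
/-- The edges of the box from `C` to vertices outside `C` which are joined off `C` inside the box
to a vertex of the face orthant carrying a seed. -/
noncomputable def UU (ω : Om d) (m n : ℕ) (x : V d) (dir : Dir d) (σ : Fin d → Bool)
    (C : Finset (V d)) : Finset (Ed d) :=
  (EB n x).filter (fun e => ∃ a ∈ C, ∃ δ' : Dir d, ed a δ' = e ∧ a + st δ' ∉ C ∧
    ∃ u, Fc n x dir σ u ∧ u ∉ C ∧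
      JoinIn ω ((Bx n x : Set (V d)) \ (C : Set (V d))) (a + st δ') u ∧ Sd m ω dir u)

/-- A vertex of the face orthant in `C` carries a seed. -/
def E0 (ω : Om d) (m n : ℕ) (x : V d) (dir : Dir d) (σ : Fin d → Bool) (C : Finset (V d)) : Prop :=
  ∃ u ∈ C, Fc n x dir σ u ∧ Sd m ω dir u

/-- The position of the new seed centre relative to the old one. -/
def New (n m : ℕ) (x : V d) (dir : Dir d) (σ : Fin d → Bool) (b' : V d) : Prop :=
  b' dir.1 - x dir.1 = (if dir.2 then ((n + m + 1 : ℕ) : ℤ) else -((n + m + 1 : ℕ) : ℤ)) ∧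
  ∀ b, b ≠ dir.1 → |b' b - x b| ≤ n ∧ (if σ b then 0 ≤ b' b - x b else b' b - x b ≤ 0)

/-- Success of the step: a new seed is joined to `C` inside the large box. -/
def Succ (ω : Om d) (m n : ℕ) (x : V d) (dir : Dir d) (σ : Fin d → Bool) (C : Finset (V d)) : Prop :=
  ∃ b', New n m x dir σ b' ∧ ∀ y ∈ Bx m b', y ∈ C ∨
    ∃ v ∈ C, JoinIn ω (Bx (n + 2 * m + 1) x : Set (V d)) v y

end Ein99.GM
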