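import Pool.Agent.LibGM95.G1

/-!
TASK F1. Symmetries of the lattice.
-/

set_option autoImplicit false

open MeasureTheory ProbabilityTheory Filter Topology

namespace Ein99.GM

variable {d : ℕ}

theorem sp_add (π : Equiv.Perm (Fin d)) (ε : Fin d → Bool) (x y : V d) :
    sp π ε (x + y) = sp π ε x + sp π ε y := by
  funext i
  simp only [sp, Pi.add_apply]
  split_ifs <;> ring

theorem F1_inv (π : Equiv.Perm (Fin d)) (ε : Fin d → Bool) (x : V d) :
    sp π.symm (fun i => ε (π.symm i)) (sp π ε x) = x := by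
  funext i
  simp only [sp, Equiv.apply_symm_apply]
  cases ε (π.symm i) <;> simp

theorem F1_inv' (π : Equiv.Perm (Fin d)) (ε : Fin d → Bool) (x : V d) :
    sp π ε (sp π.symm (fun i => ε (π.symm i)) x) = x := by
  funext i
  simp only [sp, Equiv.symm_apply_apply]
  cases ε i <;> simp

theorem sp_bij (π : Equiv.Perm (Fin d)) (ε : Fin d → Bool) : Function.Bijective (sp π ε) :=
  ⟨fun x y h => by rw [← F1_inv π ε x, h, F1_inv], fun y => ⟨_, F1_inv' π ε y⟩⟩

theorem spd_bij (π : Equiv.Perm (Fin d)) (ε : Fin d → Bool) : Function.Bijective (spd π ε) := by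
  constructor
  · rintro ⟨i, b⟩ ⟨j, c⟩ h
    simp only [spd, Prod.mk.injEq] at h
    obtain ⟨h1, h2⟩ := h
    have h3 : i = j := π.symm.injective h1
    subst h3
    cases hε : ε (π.symm i) <;> simp_all
  · rintro ⟨i, b⟩
    refine ⟨(π i, if ε i then b else !b), ?_⟩
    simp only [spd, Equiv.symm_apply_apply]
    cases ε i <;> simp

theorem sp_st (π : Equiv.Perm (Fin d)) (ε : Fin d → Bool) (δ : Dir d) :
    sp π ε (st δ) = st (spd π ε δ) := by
  funext i
  obtain ⟨j, b⟩ := δ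
  simp only [sp, st, spd]
  by_cases h : i = π.symm j
  · subst h
    rw [Equiv.apply_symm_apply, Pi.single_eq_same, Pi.single_eq_same]
    cases ε (π.symm j) <;> cases b <;> simp
  · have h1 : π i ≠ j := fun h2 => h (by rw [← h2, Equiv.symm_apply_apply])
    rw [Pi.single_eq_of_ne h1, Pi.single_eq_of_ne h]
    simp

theorem F1_ed_rv (x : V d) (δ : Dir d) : ed (x + st δ) (rv δ) = ed x δ := by
  have h2 : x + st δ + st (rv δ) = x := by rw [st_rv]; abel
  obtain ⟨i, b⟩ := δ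
  cases b
  · simp [ed, rv]
  · have h3 : (rv (i, true) : Dir d).2 = false := rfl
    unfold ed
    rw [if_neg (by rw [h3]; simp), if_pos rfl, h2]
    rfl

theorem F1_spd_rv (π : Equiv.Perm (Fin d)) (ε : Fin d → Bool) (δ : Dir d) :
    spd π ε (rv δ) = rv (spd π ε δ) := by
  obtain ⟨i, b⟩ := δ
  simp only [spd, rv]
  cases ε (π.symm i) <;> simp

theorem spe_ed (π : Equiv.Perm (Fin d)) (ε : Fin d → Bool) (x : V d) (δ : Dir d) :
    spe π ε (ed x δ) = ed (sp π ε x) (spd π ε δ) := by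
  obtain ⟨i, b⟩ := δ
  cases b with
  | true => rfl
  | false =>
    have h1 : ed x ((i, false) : Dir d) = (x + st (i, false), i) := rfl
    rw [h1]
    unfold spe
    have h2 : spd π ε (i, true) = rv (spd π ε (i, false)) := by
      rw [← F1_spd_rv]
      rfl
    show ed (sp π ε (x + st (i, false))) (spd π ε (i, true)) = _
    rw [h2, sp_add, sp_st, F1_ed_rv]

theorem F1_spe_inv (π : Equiv.Perm (Fin d)) (ε : Fin d → Bool) (e : Ed d) :
    spe π.symm (fun i => ε (π.symm i)) (spe π ε e) = e := by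
  unfold spe
  have h1 : ∀ (ρ : Equiv.Perm (Fin d)) (η : Fin d → Bool) (x : V d) (δ : Dir d),
      ed (sp ρ η (ed x δ).1) (spd ρ η ((ed x δ).2, true)) = ed (sp ρ η x) (spd ρ η δ) :=
    fun ρ η x δ => spe_ed ρ η x δ
  rw [h1, F1_inv]
  have h2 : spd π.symm (fun i => ε (π.symm i)) (spd π ε (e.2, true)) = (e.2, true) := by
    simp only [spd, Equiv.symm_symm, Equiv.apply_symm_apply]
    cases ε (π.symm e.2) <;> simp
  rw [h2]
  rfl

theorem F1_spe_inv' (π : Equiv.Perm (Fin d)) (ε : Fin d → Bool) (e : Ed d) :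
    spe π ε (spe π.symm (fun i => ε (π.symm i)) e) = e := by
  unfold spe
  have h1 : ∀ (ρ : Equiv.Perm (Fin d)) (η : Fin d → Bool) (x : V d) (δ : Dir d),
      ed (sp ρ η (ed x δ).1) (spd ρ η ((ed x δ).2, true)) = ed (sp ρ η x) (spd ρ η δ) :=
    fun ρ η x δ => spe_ed ρ η x δ
  rw [h1, F1_inv']
  have h2 : spd π ε (spd π.symm (fun i => ε (π.symm i)) (e.2, true)) = (e.2, true) := by
    simp only [spd, Equiv.symm_symm, Equiv.symm_apply_apply]
    cases ε e.2 <;> simp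
  rw [h2]
  rfl

theorem spe_bij (π : Equiv.Perm (Fin d)) (ε : Fin d → Bool) : Function.Bijective (spe π ε) :=
  ⟨fun x y h => by rw [← F1_spe_inv π ε x, h, F1_spe_inv], fun y => ⟨_, F1_spe_inv' π ε y⟩⟩

/-- the transported configuration -/
def tr (π : Equiv.Perm (Fin d)) (ε : Fin d → Bool) (ω : Om d) : Om d := fun e => ω (spe π ε e)

theorem opn_tr (π : Equiv.Perm (Fin d)) (ε : Fin d → Bool) (ω : Om d) (x : V d) (δ : Dir d) :
    opn (tr π ε ω) x δ ↔ opn ω (sp π ε x) (spd π ε δ) := by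
  unfold opn tr
  rw [spe_ed]

theorem sp_mem_Bx (π : Equiv.Perm (Fin d)) (ε : Fin d → Bool) (n : ℕ) (x : V d) :
    sp π ε x ∈ Bx n (0 : V d) ↔ x ∈ Bx n (0 : V d) := by
  have h0 : ∀ i, |(sp π ε x) i - (0 : V d) i| = |x (π i)| := fun i => by
    simp only [sp, Pi.zero_apply, sub_zero]
    split_ifs
    · rfl
    · rw [abs_neg]
  rw [mem_Bx, mem_Bx]
  constructor
  · intro h i
    have h1 := h (π.symm i)
    rw [h0, Equiv.apply_symm_apply] at h1
    simpa using h1
  · intro h i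
    rw [h0]
    simpa using h (π i)

theorem sp_OnBd (π : Equiv.Perm (Fin d)) (ε : Fin d → Bool) (n : ℕ) (x : V d) :
    OnBd n 0 (sp π ε x) ↔ OnBd n 0 x := by
  unfold OnBd
  rw [sp_mem_Bx]
  have h0 : ∀ i, ((sp π ε x) i - (0 : V d) i).natAbs = (x (π i)).natAbs := fun i => by
    simp only [sp, Pi.zero_apply, sub_zero]
    split_ifs
    · rfl
    · rw [Int.natAbs_neg]
  refine and_congr_right (fun _ => ?_)
  constructor
  · rintro ⟨i, hi⟩
    rw [h0] at hi
    exact ⟨π i, by simpa using hi⟩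
  · rintro ⟨i, hi⟩
    refine ⟨π.symm i, ?_⟩
    rw [h0, Equiv.apply_symm_apply]
    simpa using hi

theorem JoinIn_tr (π : Equiv.Perm (Fin d)) (ε : Fin d → Bool) (ω : Om d) (n : ℕ) (x y : V d) :
    JoinIn (tr π ε ω) (Bx n (0 : V d) : Set (V d)) x y ↔
      JoinIn ω (Bx n (0 : V d) : Set (V d)) (sp π ε x) (sp π ε y) := by
  constructor
  · intro h
    induction h with
    | refl => exact Relation.ReflTransGen.refl
    | @tail b c _ hbc ih =>
      obtain ⟨hb, hc, δ, h1, h2⟩ := hbc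
      refine Relation.ReflTransGen.tail ih ⟨?_, ?_, spd π ε δ, (opn_tr π ε ω b δ).1 h1, ?_⟩
      · exact Finset.mem_coe.2 ((sp_mem_Bx π ε n b).2 (Finset.mem_coe.1 hb))
      · exact Finset.mem_coe.2 ((sp_mem_Bx π ε n c).2 (Finset.mem_coe.1 hc))
      · rw [h2, sp_add, sp_st]
  · intro h
    have key : ∀ u v : V d, JoinIn ω (Bx n (0 : V d) : Set (V d)) u v →
        ∀ a, u = sp π ε a → ∃ b, v = sp π ε b ∧
          JoinIn (tr π ε ω) (Bx n (0 : V d) : Set (V d)) a b := by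
      intro u v huv a ha
      induction huv with
      | refl => exact ⟨a, ha, Relation.ReflTransGen.refl⟩
      | @tail b c _ hbc ih =>
        obtain ⟨b', hb', hj⟩ := ih
        obtain ⟨hb, hc, δ, h1, h2⟩ := hbc
        obtain ⟨δ', hδ'⟩ := (spd_bij π ε).2 δ
        refine ⟨b' + st δ', ?_, Relation.ReflTransGen.tail hj ⟨?_, ?_, δ', ?_, rfl⟩⟩
        · rw [h2, hb', sp_add, sp_st, hδ']
        · rw [hb'] at hb
          exact Finset.mem_coe.2 ((sp_mem_Bx π ε n b').1 (Finset.mem_coe.1 hb))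
        · have h3 : c = sp π ε (b' + st δ') := by rw [h2, hb', sp_add, sp_st, hδ']
          rw [h3] at hc
          exact Finset.mem_coe.2 ((sp_mem_Bx π ε n _).1 (Finset.mem_coe.1 hc))
        · rw [opn_tr, hδ', ← hb']
          exact h1
    obtain ⟨b, hb, hj⟩ := key _ _ h x rfl
    rw [(sp_bij π ε).1 hb]
    exact hj

theorem Rch_tr (π : Equiv.Perm (Fin d)) (ε : Fin d → Bool) (ω : Om d) (m n : ℕ) (u : V d) :
    Rch (tr π ε ω) m n 0 u ↔ Rch ω m n 0 (sp π ε u) := by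
  constructor
  · rintro ⟨v, hv, hj⟩
    exact ⟨sp π ε v, (sp_mem_Bx π ε m v).2 hv, (JoinIn_tr π ε ω n v u).1 hj⟩
  · rintro ⟨v, hv, hj⟩
    obtain ⟨v', hv'⟩ := (sp_bij π ε).2 v
    subst hv'
    exact ⟨v', (sp_mem_Bx π ε m v').1 hv, (JoinIn_tr π ε ω n v' u).2 hj⟩

/-- the signed permutations act transitively on the face orthants -/
theorem Fc_sp (dir dir' : Dir d) (σ σ' : Fin d → Bool) :
    ∃ (π : Equiv.Perm (Fin d)) (ε : Fin d → Bool), ∀ (n : ℕ) (u : V d),
      Fc n 0 dir σ u ↔ Fc n 0 dir' σ' (sp π ε u) := by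
  refine ⟨Equiv.swap dir.1 dir'.1, fun b => if b = dir'.1 then (dir.2 == dir'.2)
    else (σ (Equiv.swap dir.1 dir'.1 b) == σ' b), ?_⟩
  intro n u
  unfold Fc
  rw [sp_mem_Bx]
  refine and_congr_right (fun _ => and_congr ?_ ?_)
  · simp only [sp, Equiv.swap_apply_right, if_true, Pi.zero_apply, sub_zero]
    cases dir.2 <;> cases dir'.2 <;> simp [neg_eq_iff_eq_neg]
  · constructor
    · intro h b hb
      have hne : Equiv.swap dir.1 dir'.1 b ≠ dir.1 := by
        intro h1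
        apply hb
        have h2 := congrArg (Equiv.swap dir.1 dir'.1) h1
        rwa [Equiv.swap_apply_self, Equiv.swap_apply_left] at h2
      have h3 := h _ hne
      simp only [sp, Pi.zero_apply, sub_zero, if_neg hb] at h3 ⊢
      cases h4 : σ (Equiv.swap dir.1 dir'.1 b) <;> cases h5 : σ' b <;> rw [h4] at h3 <;> simp_all
    · intro h b hb
      have hne : Equiv.swap dir.1 dir'.1 b ≠ dir'.1 := by
        intro h1
        apply hb
        have h2 := congrArg (Equiv.swap dir.1 dir'.1) h1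
        rwa [Equiv.swap_apply_self, Equiv.swap_apply_right] at h2
      have h3 := h _ hne
      simp only [sp, Pi.zero_apply, sub_zero, if_neg hne, Equiv.swap_apply_self] at h3 ⊢
      cases h4 : σ b <;> cases h5 : σ' (Equiv.swap dir.1 dir'.1 b) <;> rw [h4, h5] at h3 <;>
        simp_all

/-- the transport preserves the law -/
theorem Pr_tr (p : unitInterval) (π : Equiv.Perm (Fin d)) (ε : Fin d → Bool) {A : Set (Om d)}
    (hA : MeasurableSet A) :
    (Pr d p).real {ω : Om d | tr π ε ω ∈ A} = (Pr d p).real A :=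
  PB_reindex (Equiv.ofBijective (spe π ε) (spe_bij π ε)) (fun _ => p) hA

theorem card_Vf_tr (dir dir' : Dir d) (σ σ' : Fin d → Bool) (π : Equiv.Perm (Fin d))
    (ε : Fin d → Bool) (n m : ℕ)
    (h : ∀ u : V d, Fc n 0 dir σ u ↔ Fc n 0 dir' σ' (sp π ε u)) (ω : Om d) :
    (Vf (tr π ε ω) m n dir σ).card = (Vf ω m n dir' σ').card := by
  refine Finset.card_bij (fun u _ => sp π ε u) ?_ ?_ ?_
  · intro u hu
    rw [G1_mem_Vf, G1_mem_Rc] at hu ⊢
    obtain ⟨⟨h1, h2, h3⟩, h4⟩ := hu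
    exact ⟨⟨(sp_mem_Bx π ε n u).2 h1, (sp_OnBd π ε n u).2 h2, (Rch_tr π ε ω m n u).1 h3⟩,
      (h u).1 h4⟩
  · intro u _ v _ huv
    exact (sp_bij π ε).1 huv
  · intro v hv
    obtain ⟨u, rfl⟩ := (sp_bij π ε).2 v
    refine ⟨u, ?_, rfl⟩
    rw [G1_mem_Vf, G1_mem_Rc] at hv ⊢
    obtain ⟨⟨h1, h2, h3⟩, h4⟩ := hv
    exact ⟨⟨(sp_mem_Bx π ε n u).1 h1, (sp_OnBd π ε n u).1 h2, (Rch_tr π ε ω m n u).2 h3⟩,
      (h u).2 h4⟩

end Ein99.GM
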