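import Pool.Agent.LibGM95.T4
import Pool.Agent.LibEin99.C_Loc2
import Pool.Agent.LibEin99.C_Chain

/-!
TASK G1. Locality (`Dep`) and monotonicity (`Inc`) of the events.
`Loc_JoinIn`, `JoinIn_congr`, `rel_congr` of `LibEin99/C_Loc2.lean` are the model.  For
`Dep_JoinIn_sub`: each step of the path uses an edge with both endpoints in `S`.
-/

set_option autoImplicit false

open MeasureTheory ProbabilityTheory Filter Topology

namespace Ein99.GM

variable {d : ℕ}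

/-- the edges used by the seed at `u` -/
noncomputable def sdE (m : ℕ) (dir : Dir d) (u : V d) : Finset (Ed d) := by
  classical exact insert (ed u dir) (EB m (ctr m dir u))

theorem G1_mem_sdE {m : ℕ} {dir : Dir d} {u : V d} {e : Ed d} :
    e ∈ sdE m dir u ↔ e = ed u dir ∨ e ∈ EB m (ctr m dir u) := by
  unfold sdE
  rw [Finset.mem_insert]

theorem G1_Sd_congr {m : ℕ} {dir : Dir d} {u : V d} {ω ω' : Om d}
    (h : ∀ e ∈ sdE m dir u, ω e = ω' e) (hs : Sd m ω dir u) : Sd m ω' dir u := by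
  refine ⟨?_, fun e he => ?_⟩
  · have h1 : ω (ed u dir) = true := hs.1
    show ω' (ed u dir) = true
    rw [← h _ (G1_mem_sdE.2 (Or.inl rfl))]
    exact h1
  · rw [← h e (G1_mem_sdE.2 (Or.inr he))]
    exact hs.2 e he

theorem Dep_Sd (m : ℕ) (dir : Dir d) (u : V d) :
    Dep (sdE m dir u : Set (Ed d)) {ω : Om d | Sd m ω dir u} := by
  intro ω ω' h
  exact ⟨G1_Sd_congr (fun e he => h e (Finset.mem_coe.2 he)),
    G1_Sd_congr (fun e he => (h e (Finset.mem_coe.2 he)).symm)⟩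

theorem Inc_Sd (m : ℕ) (dir : Dir d) (u : V d) : Inc {ω : Om d | Sd m ω dir u} := by
  intro ω ω' h hs
  exact ⟨h _ hs.1, fun e he => h e (hs.2 e he)⟩

/-- the endpoints of `ed a δ` -/
theorem G1_ends (a : V d) (δ : Dir d) :
    ((ed a δ).1 = a ∧ (ed a δ).1 + st ((ed a δ).2, true) = a + st δ) ∨
    ((ed a δ).1 = a + st δ ∧ (ed a δ).1 + st ((ed a δ).2, true) = a) := by
  obtain ⟨i, b⟩ := δ
  cases b with
  | true =>
    left
    simp [ed]
  | false =>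
    right
    have h : (st (i, true) : V d) = - st (i, false) := by
      have := st_rv (d := d) (i, false)
      simpa [rv] using this
    have h1 : (ed a ((i, false) : Dir d)).1 = a + st (i, false) := rfl
    have h2 : (ed a ((i, false) : Dir d)).2 = i := rfl
    refine ⟨h1, ?_⟩
    rw [h1, h2, h, add_neg_cancel_right]

theorem G1_join_congr {S : Set (V d)} {x y : V d} {ω ω' : Om d}
    (h : ∀ e : Ed d, e.1 ∈ S → e.1 + st (e.2, true) ∈ S → ω e = ω' e)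
    (hj : JoinIn ω S x y) : JoinIn ω' S x y := by
  induction hj with
  | refl => exact Relation.ReflTransGen.refl
  | @tail b c _ hbc ih =>
    obtain ⟨hb, hc, δ, h1, h2⟩ := hbc
    refine Relation.ReflTransGen.tail ih ⟨hb, hc, δ, ?_, h2⟩
    have h1' : ω (ed b δ) = true := h1
    show ω' (ed b δ) = true
    rw [← h (ed b δ) ?_ ?_]
    · exact h1'
    · rcases G1_ends b δ with h3 | h3
      · rw [h3.1]; exact hb
      · rw [h3.1, ← h2]; exact hc
    · rcases G1_ends b δ with h3 | h3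
      · rw [h3.2, ← h2]; exact hc
      · rw [h3.2]; exact hb

theorem Dep_JoinIn_sub (S : Set (V d)) (x y : V d) :
    Dep {e : Ed d | e.1 ∈ S ∧ e.1 + st (e.2, true) ∈ S} {ω : Om d | JoinIn ω S x y} := by
  intro ω ω' h
  exact ⟨G1_join_congr (fun e h1 h2 => h e ⟨h1, h2⟩),
    G1_join_congr (fun e h1 h2 => (h e ⟨h1, h2⟩).symm)⟩

theorem G1_join_mono {S : Set (V d)} {x y : V d} {ω ω' : Om d}
    (h : ∀ e, ω e = true → ω' e = true) (hj : JoinIn ω S x y) : JoinIn ω' S x y := by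
  induction hj with
  | refl => exact Relation.ReflTransGen.refl
  | tail _ hbc ih =>
    obtain ⟨hb, hc, δ, h1, h2⟩ := hbc
    exact Relation.ReflTransGen.tail ih ⟨hb, hc, δ, h _ h1, h2⟩

theorem Inc_JoinIn (S : Set (V d)) (x y : V d) : Inc {ω : Om d | JoinIn ω S x y} :=
  fun _ _ h hj => G1_join_mono h hj

theorem G1_Rch_congr {m n : ℕ} {x u : V d} {ω ω' : Om d} (h : ∀ e ∈ EB n x, ω e = ω' e)
    (hr : Rch ω m n x u) : Rch ω' m n x u := by
  obtain ⟨v, hv, hj⟩ := hr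
  refine ⟨v, hv, G1_join_congr (fun e h1 h2 => h e ?_) hj⟩
  rw [mem_EB]
  exact ⟨Finset.mem_coe.1 h1, Finset.mem_coe.1 h2⟩

theorem Dep_Rch (m n : ℕ) (x u : V d) : Dep (EB n x : Set (Ed d)) {ω : Om d | Rch ω m n x u} := by
  intro ω ω' h
  exact ⟨G1_Rch_congr (fun e he => h e (Finset.mem_coe.2 he)),
    G1_Rch_congr (fun e he => (h e (Finset.mem_coe.2 he)).symm)⟩

theorem Inc_Rch (m n : ℕ) (x u : V d) : Inc {ω : Om d | Rch ω m n x u} := by
  rintro ω ω' h ⟨v, hv, hj⟩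
  exact ⟨v, hv, G1_join_mono h hj⟩

theorem G1_mem_Rc {m n : ℕ} {ω : Om d} {v : V d} :
    v ∈ Rc ω m n ↔ v ∈ Bx n (0 : V d) ∧ OnBd n 0 v ∧ Rch ω m n 0 v := by
  classical
  unfold Rc
  rw [Finset.mem_filter]

theorem G1_mem_Vf {m n : ℕ} {dir : Dir d} {σ : Fin d → Bool} {ω : Om d} {u : V d} :
    u ∈ Vf ω m n dir σ ↔ u ∈ Rc ω m n ∧ Fc n 0 dir σ u := by
  classical
  unfold Vf
  rw [Finset.mem_filter]

/-- `Rc` only depends on the edges of the box -/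
theorem Rc_congr (m n : ℕ) (ω ω' : Om d) (h : ∀ e ∈ EB n (0 : V d), ω e = ω' e) :
    Rc ω m n = Rc ω' m n := by
  ext v
  rw [G1_mem_Rc, G1_mem_Rc]
  constructor
  · rintro ⟨h1, h2, h3⟩
    exact ⟨h1, h2, G1_Rch_congr h h3⟩
  · rintro ⟨h1, h2, h3⟩
    exact ⟨h1, h2, G1_Rch_congr (fun e he => (h e he).symm) h3⟩

theorem Vf_congr (m n : ℕ) (dir : Dir d) (σ : Fin d → Bool) (ω ω' : Om d)
    (h : ∀ e ∈ EB n (0 : V d), ω e = ω' e) : Vf ω m n dir σ = Vf ω' m n dir σ := by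
  ext v
  rw [G1_mem_Vf, G1_mem_Vf, Rc_congr m n ω ω' h]

theorem Vf_mono (m n : ℕ) (dir : Dir d) (σ : Fin d → Bool) (ω ω' : Om d)
    (h : ∀ e, ω e = true → ω' e = true) : Vf ω m n dir σ ⊆ Vf ω' m n dir σ := by
  intro v hv
  rw [G1_mem_Vf, G1_mem_Rc] at hv ⊢
  obtain ⟨⟨h1, h2, h3⟩, h4⟩ := hv
  exact ⟨⟨h1, h2, Inc_Rch m n 0 v ω ω' h h3⟩, h4⟩

theorem Inc_SeedEv (m n : ℕ) (x : V d) (dir : Dir d) (σ : Fin d → Bool) :
    Inc {ω : Om d | SeedEv ω m n x dir σ} := by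
  rintro ω ω' h ⟨u, h1, h2, h3⟩
  exact ⟨u, h1, Inc_Rch m n x u ω ω' h h2, Inc_Sd m dir u ω ω' h h3⟩

theorem Inc_Succ (m n : ℕ) (x : V d) (dir : Dir d) (σ : Fin d → Bool) (C : Finset (V d)) :
    Inc {ω : Om d | Succ ω m n x dir σ C} := by
  rintro ω ω' h ⟨b', h1, h2⟩
  refine ⟨b', h1, fun y hy => ?_⟩
  rcases h2 y hy with h3 | ⟨v, hv, h3⟩
  · exact Or.inl h3
  · exact Or.inr ⟨v, hv, G1_join_mono h h3⟩

theorem G1_Succ_congr {m n : ℕ} {x : V d} {dir : Dir d} {σ : Fin d → Bool} {C : Finset (V d)}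
    {ω ω' : Om d} (h : ∀ e ∈ EB (n + 2 * m + 1) x, ω e = ω' e) (hs : Succ ω m n x dir σ C) :
    Succ ω' m n x dir σ C := by
  obtain ⟨b', h1, h2⟩ := hs
  refine ⟨b', h1, fun y hy => ?_⟩
  rcases h2 y hy with h3 | ⟨v, hv, h3⟩
  · exact Or.inl h3
  · refine Or.inr ⟨v, hv, G1_join_congr (fun e h4 h5 => h e ?_) h3⟩
    rw [mem_EB]
    exact ⟨Finset.mem_coe.1 h4, Finset.mem_coe.1 h5⟩

theorem Dep_Succ (m n : ℕ) (x : V d) (dir : Dir d) (σ : Fin d → Bool) (C : Finset (V d)) :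
    Dep (EB (n + 2 * m + 1) x : Set (Ed d)) {ω : Om d | Succ ω m n x dir σ C} := by
  intro ω ω' h
  exact ⟨G1_Succ_congr (fun e he => h e (Finset.mem_coe.2 he)),
    G1_Succ_congr (fun e he => (h e (Finset.mem_coe.2 he)).symm)⟩

end Ein99.GM
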