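import Pool.Agent.LibGM95.G1
import Pool.Agent.LibEin99.H_Outside

/-!
TASK G2. Geometry of the seeds.
Let `Fc n x dir σ u`.  The vertices of the box `Bx m (ctr m dir u)` have `dir`-coordinate (relative to
`x`, with the sign of `dir`) between `n+1` and `n+2m+1`, the others at most `n+m` in absolute value.
`seed_join`: `u + st dir ∈ Bx m (ctr m dir u)`; `box_connected` (`H_Outside.lean`) gives a nearest
neighbour path of the seed box, all its edges are open.
-/

set_option autoImplicit false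

open MeasureTheory ProbabilityTheory Filter Topology

namespace Ein99.GM

variable {d : ℕ}

/-! ### Coordinates -/

theorem st_same (dir : Dir d) : st dir dir.1 = (if dir.2 then 1 else -1) := by
  unfold st
  rw [Pi.single_eq_same]

theorem st_ne (dir : Dir d) {i : Fin d} (hi : i ≠ dir.1) : st dir i = 0 := by
  unfold st
  rw [Pi.single_eq_of_ne hi]

theorem ctr_same (m : ℕ) (dir : Dir d) (u : V d) :
    ctr m dir u dir.1 = u dir.1 + (if dir.2 then ((m : ℤ) + 1) else -((m : ℤ) + 1)) := by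
  unfold ctr
  rw [Pi.add_apply, Pi.smul_apply, st_same, nsmul_eq_mul]
  split_ifs <;> push_cast <;> ring

theorem ctr_ne (m : ℕ) (dir : Dir d) (u : V d) {i : Fin d} (hi : i ≠ dir.1) :
    ctr m dir u i = u i := by
  unfold ctr
  simp only [Pi.add_apply, Pi.smul_apply, st_ne dir hi, smul_zero, add_zero]

theorem G2_mem_EB {r : ℕ} {z : V d} {e : Ed d} :
    e ∈ EB r z ↔ e.1 ∈ Bx r z ∧ e.1 + Pi.single e.2 1 ∈ Bx r z := by
  unfold EB
  rw [Finset.mem_filter, Finset.mem_product]
  simp

theorem mem_sdE {m : ℕ} {dir : Dir d} {u : V d} {e : Ed d} :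
    e ∈ sdE m dir u ↔ e = ed u dir ∨ e ∈ EB m (ctr m dir u) := by
  unfold sdE
  rw [Finset.mem_insert]

/-- the edge from `a` in direction `δ` belongs to `EB r z` iff both endpoints are in the box -/
theorem G2_ed_mem_EB {r : ℕ} {z a : V d} {δ : Dir d} :
    ed a δ ∈ EB r z ↔ a ∈ Bx r z ∧ a + st δ ∈ Bx r z := by
  obtain ⟨i, b⟩ := δ
  rw [G2_mem_EB]
  cases b
  · have h2 : a + st (i, false) + Pi.single i 1 = a := by
      unfold st
      simp only [Bool.false_eq_true, if_false]
      rw [add_assoc, ← Pi.single_add]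
      simp
    unfold ed
    simp only [Bool.false_eq_true, if_false]
    rw [h2]
    exact and_comm
  · unfold ed st
    simp

theorem New_ctr {m n : ℕ} {x u : V d} {dir : Dir d} {σ : Fin d → Bool} (h : Fc n x dir σ u) :
    New n m x dir σ (ctr m dir u) := by
  obtain ⟨h1, h2, h3⟩ := h
  refine ⟨?_, fun b hb => ⟨?_, ?_⟩⟩
  · rw [ctr_same]
    split_ifs at h2 ⊢ <;> push_cast <;> linarith
  · rw [ctr_ne m dir u hb]
    exact mem_Bx.1 h1 b
  · rw [ctr_ne m dir u hb]
    exact h3 b hb

theorem ctr_mem {m n : ℕ} {x u : V d} {dir : Dir d} {σ : Fin d → Bool} (h : Fc n x dir σ u) :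
    ctr m dir u ∈ Bx (n + m + 1) x := by
  obtain ⟨h1, h2, h3⟩ := h
  rw [mem_Bx]
  intro i
  have hi := abs_le.1 (mem_Bx.1 h1 i)
  by_cases hid : i = dir.1
  · subst hid
    rw [ctr_same, abs_le]
    split_ifs <;> push_cast <;> constructor <;> linarith [hi.1, hi.2]
  · rw [ctr_ne m dir u hid, abs_le]
    push_cast
    constructor <;> linarith [hi.1, hi.2]

theorem ctr_box_subset {m n : ℕ} {x u : V d} {dir : Dir d} {σ : Fin d → Bool}
    (h : Fc n x dir σ u) : Bx m (ctr m dir u) ⊆ Bx (n + 2 * m + 1) x := by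
  have := Bx_subset (r := m) (ctr_mem (m := m) h)
  intro y hy
  have hy' := this hy
  have e : m + (n + m + 1) = n + 2 * m + 1 := by ring
  rwa [e] at hy'

theorem st_mem {m n : ℕ} {x u : V d} {dir : Dir d} {σ : Fin d → Bool} (h : Fc n x dir σ u) :
    u ∈ Bx (n + 2 * m + 1) x ∧ u + st dir ∈ Bx (n + 2 * m + 1) x := by
  refine ⟨Bx_mono (by omega) _ h.1, ?_⟩
  exact Bx_mono (by omega) _ (Bx_trans h.1 (add_st_mem_Bx u dir))

theorem sdE_subset {m n : ℕ} {x u : V d} {dir : Dir d} {σ : Fin d → Bool} (h : Fc n x dir σ u) :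
    sdE m dir u ⊆ EB (n + 2 * m + 1) x := by
  intro e he
  rcases mem_sdE.1 he with rfl | he
  · exact G2_ed_mem_EB.2 (st_mem h)
  · rw [G2_mem_EB] at he ⊢
    exact ⟨ctr_box_subset h he.1, ctr_box_subset h he.2⟩

theorem sdE_disjoint {m n : ℕ} {x u : V d} {dir : Dir d} {σ : Fin d → Bool} (h : Fc n x dir σ u) :
    Disjoint (sdE m dir u) (EB n x) := by
  rw [Finset.disjoint_left]
  intro e he hn
  obtain ⟨h1, h2, h3⟩ := h
  rcases mem_sdE.1 he with rfl | he
  · have h4 := (G2_ed_mem_EB.1 hn).2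
    have h5 := abs_le.1 (mem_Bx.1 h4 dir.1)
    simp only [Pi.add_apply, st_same] at h5
    split_ifs at h2 h5 <;> linarith [h5.1, h5.2]
  · have h4 := abs_le.1 (mem_Bx.1 (G2_mem_EB.1 hn).1 dir.1)
    have h5 := abs_le.1 (mem_Bx.1 (G2_mem_EB.1 he).1 dir.1)
    rw [ctr_same] at h5
    split_ifs at h2 h5 <;> linarith [h5.1, h5.2, h4.1, h4.2]

/-- the coordinate different from `dir.1` of an edge used by the seed -/
theorem sdE_coord {m : ℕ} {dir : Dir d} {u : V d} {e : Ed d} (he : e ∈ sdE m dir u) {i : Fin d}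
    (hi : i ≠ dir.1) : |e.1 i - u i| ≤ m := by
  rcases mem_sdE.1 he with rfl | he
  · have : (ed u dir).1 i = u i := by
      unfold ed
      split_ifs
      · rfl
      · simp [st_ne dir hi]
    rw [this, sub_self, abs_zero]
    positivity
  · have := mem_Bx.1 (G2_mem_EB.1 he).1 i
    rwa [ctr_ne m dir u hi] at this

/-- two vertices of the face in the same residue class have disjoint seeds -/
theorem sdE_disjoint' {m n : ℕ} {x u v : V d} {dir : Dir d} {σ : Fin d → Bool}
    (hu : Fc n x dir σ u) (hv : Fc n x dir σ v) (huv : u ≠ v)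
    (hr : ∀ i, ∃ c : ℤ, u i - v i = c * (2 * m + 1)) :
    Disjoint (sdE m dir u) (sdE m dir v) := by
  rw [Finset.disjoint_left]
  intro e he he'
  obtain ⟨i, hi⟩ : ∃ i, u i ≠ v i := by
    by_contra hc
    push Not at hc
    exact huv (funext hc)
  have hid : i ≠ dir.1 := by
    rintro rfl
    apply hi
    have h1 := hu.2.1
    have h2 := hv.2.1
    linarith
  have h1 := abs_le.1 (sdE_coord he hid)
  have h2 := abs_le.1 (sdE_coord he' hid)
  obtain ⟨c, hc⟩ := hr i
  have hc0 : c ≠ 0 := by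
    rintro rfl
    apply hi
    linarith
  rcases lt_or_gt_of_ne hc0 with hneg | hpos
  · have : c * (2 * (m : ℤ) + 1) ≤ (-1) * (2 * (m : ℤ) + 1) :=
      mul_le_mul_of_nonneg_right (by omega) (by positivity)
    linarith [h1.1, h1.2, h2.1, h2.2]
  · have : 1 * (2 * (m : ℤ) + 1) ≤ c * (2 * (m : ℤ) + 1) :=
      mul_le_mul_of_nonneg_right (by omega) (by positivity)
    linarith [h1.1, h1.2, h2.1, h2.2]

theorem card_sdE (m : ℕ) (dir : Dir d) (u : V d) :
    (sdE m dir u).card ≤ 1 + d * (2 * m + 1) ^ d := by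
  unfold sdE
  refine (Finset.card_insert_le _ _).trans ?_
  have h : (EB m (ctr m dir u)).card ≤ d * (2 * m + 1) ^ d := by
    unfold EB
    refine (Finset.card_filter_le _ _).trans ?_
    rw [Finset.card_product, card_Bx, Finset.card_univ, Fintype.card_fin, mul_comm]
  omega

/-- a box all of whose edges are open is connected inside itself -/
theorem open_box_join (ω : Om d) (m : ℕ) (c : V d) (h : ∀ e ∈ EB m c, ω e = true) (y z : V d)
    (hy : y ∈ Bx m c) (hz : z ∈ Bx m c) : JoinIn ω (Bx m c : Set (V d)) y z := by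
  have hN := box_connected m c y z hy hz
  unfold NJoin at hN
  unfold JoinIn
  refine Relation.ReflTransGen.mono ?_ _ _ hN
  rintro a b ⟨ha, hb, δ, rfl⟩
  exact ⟨ha, hb, δ, h _ (G2_ed_mem_EB.2 ⟨ha, hb⟩), rfl⟩

theorem seed_join {m n : ℕ} {x u : V d} {dir : Dir d} {σ : Fin d → Bool} (h : Fc n x dir σ u)
    (ω : Om d) (hs : Sd m ω dir u) (y : V d) (hy : y ∈ Bx m (ctr m dir u)) :
    JoinIn ω (Bx (n + 2 * m + 1) x : Set (V d)) u y := by
  have h1 : u + st dir ∈ Bx m (ctr m dir u) := by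
    rw [mem_Bx]
    intro i
    by_cases hid : i = dir.1
    · subst hid
      rw [ctr_same]
      simp only [Pi.add_apply, st_same]
      rw [abs_le]
      split_ifs <;> constructor <;> linarith [show (0 : ℤ) ≤ (m : ℤ) from Int.natCast_nonneg m]
    · rw [ctr_ne m dir u hid]
      simp only [Pi.add_apply, st_ne dir hid]
      simp
  have h2 := open_box_join ω m (ctr m dir u) hs.2 _ y h1 hy
  refine Relation.ReflTransGen.head ?_ (JoinIn_mono ω ?_ h2)
  · exact ⟨Finset.mem_coe.2 (st_mem h).1, Finset.mem_coe.2 (st_mem h).2, dir, hs.1, rfl⟩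
  · exact_mod_cast ctr_box_subset h

end Ein99.GM
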