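import Pool.Agent.LibEin99.H_Block
import Pool.Agent.LibEin99.H_Outside
import Pool.Agent.LibEin99.A_Box
import Pool.Agent.LibEin99.C_Chain
import Pool.Agent.LibGM95.CoreDefs

/-!
# Crossings of annuli and the blocks they visit
-/

open MeasureTheory ProbabilityTheory Filter Topology

namespace Ein99

variable {d : ℕ}

/-- A path from a small box to the outside of a larger one crosses the annulus. -/
theorem crossing (ω : Om d) (S : Set (V d)) (a b : ℕ) (hab : a + 1 ≤ b) (x y : V d)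
    (hx : x ∈ Bx a (0 : V d)) (hy : y ∉ Bx b (0 : V d)) (h : JoinIn ω S x y) :
    ∃ v1 v2, JoinIn ω S x v1 ∧ v1 ∈ Bx (a + 1) (0 : V d) ∧ v1 ∉ Bx a (0 : V d) ∧
      v2 ∉ Bx b (0 : V d) ∧ v2 ∈ Bx (b + 1) (0 : V d) ∧
      JoinIn ω (S ∩ {v | v ∉ Bx a (0 : V d) ∧ v ∈ Bx (b + 1) (0 : V d)}) v1 v2 := by
  have key : ∀ v, JoinIn ω S x v → (∃ v1 v2, JoinIn ω S x v1 ∧ v1 ∈ Bx (a + 1) (0 : V d) ∧
      v1 ∉ Bx a (0 : V d) ∧ v2 ∉ Bx b (0 : V d) ∧ v2 ∈ Bx (b + 1) (0 : V d) ∧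
      JoinIn ω (S ∩ {v | v ∉ Bx a (0 : V d) ∧ v ∈ Bx (b + 1) (0 : V d)}) v1 v2) ∨
      v ∈ Bx a (0 : V d) ∨ (v ∉ Bx a (0 : V d) ∧ v ∈ Bx b (0 : V d) ∧
        ∃ v1, JoinIn ω S x v1 ∧ v1 ∈ Bx (a + 1) (0 : V d) ∧ v1 ∉ Bx a (0 : V d) ∧
        JoinIn ω (S ∩ {v | v ∉ Bx a (0 : V d) ∧ v ∈ Bx (b + 1) (0 : V d)}) v1 v) := by
    intro v hv
    unfold JoinIn at hv
    induction hv with
    | refl => exact Or.inr (Or.inl hx)
    | @tail v w hxv hvw ih =>
      have hxw : JoinIn ω S x w := Relation.ReflTransGen.tail hxv hvw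
      obtain ⟨hvS, hwS, hadj⟩ := hvw
      have hwv : w ∈ Bx 1 v := by
        obtain ⟨δ, _, rfl⟩ := hadj
        exact add_st_mem_Bx v δ
      rcases ih with h1 | h1 | ⟨h1, h2, v1, h3, h4, h5, h6⟩
      · exact Or.inl h1
      · by_cases hwa : w ∈ Bx a (0 : V d)
        · exact Or.inr (Or.inl hwa)
        · have hwa1 : w ∈ Bx (a + 1) (0 : V d) := Bx_trans h1 hwv
          exact Or.inr (Or.inr ⟨hwa, Bx_mono hab _ hwa1, w, hxw, hwa1, hwa,
            Relation.ReflTransGen.refl⟩)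
      · by_cases hwa : w ∈ Bx a (0 : V d)
        · exact Or.inr (Or.inl hwa)
        · have hwb1 : w ∈ Bx (b + 1) (0 : V d) := Bx_trans h2 hwv
          have h7 : JoinIn ω (S ∩ {v | v ∉ Bx a (0 : V d) ∧ v ∈ Bx (b + 1) (0 : V d)}) v1 w :=
            Relation.ReflTransGen.tail h6 ⟨⟨hvS, h1, Bx_mono (Nat.le_succ b) _ h2⟩,
              ⟨hwS, hwa, hwb1⟩, hadj⟩
          by_cases hwb : w ∈ Bx b (0 : V d)
          · exact Or.inr (Or.inr ⟨hwa, hwb, v1, h3, h4, h5, h7⟩)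
          · exact Or.inl ⟨v1, w, h3, h4, h5, hwb, hwb1, h7⟩
  rcases key y h with h1 | h1 | ⟨h1, h2, _⟩
  · exact h1
  · exact absurd (Bx_mono (by omega) _ h1) hy
  · exact absurd h2 hy

/-- the vertices of a path inside `S` are in `S` -/
theorem JoinIn_mem (ω : Om d) {S : Set (V d)} {x y : V d} (hx : x ∈ S) (h : JoinIn ω S x y) :
    y ∈ S := by
  unfold JoinIn at h
  induction h with
  | refl => exact hx
  | tail _ hbc _ => exact hbc.2.1

/-- The blocks visited by the crossing of an annulus contain a block met by `M`. -/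
theorem cross_hits (N k ρ r W : ℕ) (hN : 1 ≤ N) (hW : N * (2 * k + 8) ≤ W)
    (hr : r + W ≤ N * (ρ - 1)) (M : Set (V d)) (hM : Hits N k ρ M) (ω : Om d) (x : V d)
    (hx : x ∈ Bx r (0 : V d)) (h : ToBd ω (r + W) 0 x) :
    ∃ u v : V d, (∃ w ∈ M, w ∈ Bx N ((N : ℤ) • u)) ∧ v ∈ Bx N ((N : ℤ) • u) ∧
      JoinIn ω (Bx (r + W) (0 : V d) : Set (V d)) x v ∧
      (∀ w ∈ Bx N ((N : ℤ) • u), w ∈ Bx (r + W) (0 : V d) ∧ w ∉ Bx r (0 : V d)) := by
  obtain ⟨y, ⟨hyB, i, hyi⟩, hxy⟩ := h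
  have hNW : N * (2 * k + 8) = 2 * (N * k) + 8 * N := by ring
  set a := r + 2 * N with ha
  obtain ⟨b, hb⟩ : ∃ b, r + W = b + 1 + 2 * N := ⟨r + W - 1 - 2 * N, by omega⟩
  have hab : a + 1 ≤ b := by omega
  have hyb : y ∉ Bx b (0 : V d) := by
    intro hc
    rw [mem_Bx] at hc
    have := hc i
    simp only [Pi.zero_apply, sub_zero] at this hyi
    rw [Int.abs_eq_natAbs, hyi] at this
    omega
  obtain ⟨v1, v2, h1, h2, h3, h4, h5, h6⟩ := crossing ω _ a b hab x y (Bx_mono (by omega) _ hx)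
    hyb hxy
  set T : Set (V d) := (Bx (r + W) (0 : V d) : Set (V d)) ∩
    {v | v ∉ Bx a (0 : V d) ∧ v ∈ Bx (b + 1) (0 : V d)} with hT
  have hv1T : v1 ∈ T := by
    refine ⟨?_, h3, Bx_mono (by omega) _ h2⟩
    have : v1 ∈ Bx (a + 1) (0 : V d) := h2
    exact Bx_mono (by omega) _ this
  have hpath := blk_path N hN ω T v1 v2 h6
  have hN0 : (0 : ℤ) < N := by exact_mod_cast hN
  have hsub : {z | ∃ v, JoinIn ω T v1 v ∧ blk N v = z} ⊆ (Bx ρ (0 : V d) : Set (V d)) := by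
    rintro z ⟨v, hv, rfl⟩
    have hvT := JoinIn_mem ω hv1T hv
    have hv' : v ∈ Bx (r + W) (0 : V d) := hvT.1
    rw [mem_Bx] at hv'
    rw [Finset.mem_coe, mem_Bx]
    intro j
    have h8 := hv' j
    simp only [Pi.zero_apply, sub_zero] at h8 ⊢
    have h9 := Int.emod_add_mul_ediv (v j) N
    have h10 := Int.emod_nonneg (v j) hN0.ne'
    have h11 := Int.emod_lt_of_pos (v j) hN0
    have hρ : (1 : ℤ) ≤ ρ := by
      by_contra hc
      have : ρ = 0 := by omega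
      subst this
      simp at hr
      omega
    have hr' : ((r + W : ℕ) : ℤ) ≤ N * ((ρ : ℤ) - 1) := by
      have : ((r + W : ℕ) : ℤ) ≤ ((N * (ρ - 1) : ℕ) : ℤ) := by exact_mod_cast hr
      rw [Nat.cast_mul, Nat.cast_sub (by omega)] at this
      exact_mod_cast this
    have h12 := abs_le.1 h8
    rw [abs_le]
    simp only [blk]
    constructor
    · by_contra hc
      push Not at hc
      have : (N : ℤ) * (v j / N) ≤ N * (-(ρ : ℤ) - 1) :=
        mul_le_mul_of_nonneg_left (by omega) hN0.le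
      nlinarith
    · by_contra hc
      push Not at hc
      have : (N : ℤ) * ((ρ : ℤ) + 1) ≤ N * (v j / N) :=
        mul_le_mul_of_nonneg_left (by omega) hN0.le
      nlinarith
  have hfar : blk N v2 ∉ Bx (2 * k) (blk N v1) := by
    intro hc
    rw [mem_Bx] at hc
    apply h4
    rw [mem_Bx]
    intro j
    have h8 := abs_le.1 (hc j)
    simp only [blk] at h8
    have h9 := Int.emod_add_mul_ediv (v1 j) N
    have h10 := Int.emod_nonneg (v1 j) hN0.ne'
    have h11 := Int.emod_lt_of_pos (v1 j) hN0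
    have h9' := Int.emod_add_mul_ediv (v2 j) N
    have h10' := Int.emod_nonneg (v2 j) hN0.ne'
    have h11' := Int.emod_lt_of_pos (v2 j) hN0
    rw [mem_Bx] at h2
    have h12 := abs_le.1 (h2 j)
    simp only [Pi.zero_apply, sub_zero] at h12 ⊢
    have e1 : (N : ℤ) * (v2 j / N - v1 j / N) ≤ N * (2 * k) :=
      mul_le_mul_of_nonneg_left (by have := h8.2; push_cast at this; linarith) hN0.le
    have e2 : -((N : ℤ) * (2 * k)) ≤ N * (v2 j / N - v1 j / N) := by
      have := mul_le_mul_of_nonneg_left (a := (N : ℤ)) (b := -(2 * (k : ℤ)))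
        (c := v2 j / N - v1 j / N) (by have := h8.1; push_cast at this; linarith) hN0.le
      linarith
    have e3 : ((N * k : ℕ) : ℤ) = (N : ℤ) * k := by push_cast; ring
    have hWz : (2 * ((N : ℤ) * k) + 8 * N) ≤ W := by
      have := hW
      rw [hNW] at this
      exact_mod_cast this
    have hbz : (r : ℤ) + W = b + 1 + 2 * N := by exact_mod_cast hb
    have haz : (a : ℤ) = r + 2 * N := by rw [ha]; push_cast; ring
    rw [mul_sub] at e1 e2
    have h12a := h12.1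
    have h12b := h12.2
    push_cast at h12a h12b
    have hN1 : (1 : ℤ) ≤ N := by exact_mod_cast hN
    rw [abs_le]
    constructor
    · linarith
    · linarith
  obtain ⟨u, ⟨v, hv, rfl⟩, w, hwM, hw⟩ := hM _ _ _ hsub hpath
    ⟨v1, Relation.ReflTransGen.refl, rfl⟩ hfar
  have hvT := JoinIn_mem ω hv1T hv
  refine ⟨blk N v, v, ⟨w, hwM, hw⟩, mem_blk N hN v, h1.trans (JoinIn_mono ω (fun q hq => hq.1) hv),
    ?_⟩
  intro q hq
  have hq1 : q ∈ Bx (2 * N) v := by
    have := Bx_trans (Bx_comm.1 (mem_blk N hN v)) hq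
    rwa [← two_mul] at this
  constructor
  · have := Bx_trans hvT.2.2 hq1
    exact Bx_mono (by omega) _ this
  · intro hc
    apply hvT.2.1
    have := Bx_trans hc (Bx_comm.1 hq1)
    exact Bx_mono (by omega) _ this

end Ein99
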