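import Pool.Agent.LibEin99.Defs4

/-!
# The union of two independent percolation layers is a percolation layer
-/

open MeasureTheory ProbabilityTheory Filter Topology

namespace Ein99

variable {d : ℕ}

/-- the union of two configurations -/
def orC (A B : Om d) : Om d := fun e => A e || B e

theorem measurable_orC : Measurable (fun x : Om d × Om d => orC x.1 x.2) := by
  refine measurable_pi_iff.mpr fun e => ?_
  have h : Measurable (fun y : Bool × Bool => y.1 || y.2) := measurable_of_finite _
  have h1 : Measurable (fun x : Om d × Om d => x.1 e) :=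
    (measurable_pi_apply e).comp measurable_fst
  have h2 : Measurable (fun x : Om d × Om d => x.2 e) :=
    (measurable_pi_apply e).comp measurable_snd
  exact h.comp (h1.prodMk h2)

/-- The one edge computation. -/
theorem bern_or (a b c : unitInterval) (h : (1 - (a : ℝ)) * (1 - (b : ℝ)) = 1 - (c : ℝ))
    (t : Set Bool) :
    ∫⁻ x, bernoulliMeasure true false b {y | (x || y) ∈ t} ∂(bernoulliMeasure true false a)
      = bernoulliMeasure true false c t := by
  classical
  have key : ∀ q : unitInterval, ∀ s : Set Bool, bernoulliMeasure true false q s =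
      ENNReal.ofReal ((q : ℝ) * (if true ∈ s then 1 else 0)
        + (1 - (q : ℝ)) * (if false ∈ s then 1 else 0)) := by
    intro q s
    have hs : MeasurableSet s := s.toFinite.measurableSet
    have h1 := bernoulliMeasure_real_apply (x := true) (y := false) q hs
    have h2 : bernoulliMeasure true false q s
        = ENNReal.ofReal ((bernoulliMeasure true false q).real s) := by
      rw [Measure.real, ENNReal.ofReal_toReal (measure_ne_top _ _)]
    rw [h2, h1]
    by_cases ht : true ∈ s <;> by_cases hf : false ∈ s <;> simp [ht, hf]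
  have h0 : ∀ f : Bool → ENNReal, ∫⁻ x, f x ∂(bernoulliMeasure true false a)
      = ENNReal.ofReal (a : ℝ) * f true + ENNReal.ofReal (1 - (a : ℝ)) * f false := by
    intro f
    rw [lintegral_fintype]
    have e1 : bernoulliMeasure true false a {true} = ENNReal.ofReal (a : ℝ) := by
      rw [key]; simp
    have e2 : bernoulliMeasure true false a {false} = ENNReal.ofReal (1 - (a : ℝ)) := by
      rw [key]; simp
    rw [Fintype.sum_bool, e1, e2, mul_comm, mul_comm (f false)]
  rw [h0, key, key, key]
  have ha0 : 0 ≤ (a : ℝ) := a.2.1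
  have ha1 : 0 ≤ 1 - (a : ℝ) := by linarith [a.2.2]
  have hb0 : 0 ≤ (b : ℝ) := b.2.1
  have hb1 : 0 ≤ 1 - (b : ℝ) := by linarith [b.2.2]
  have hc : (c : ℝ) = 1 - (1 - (a : ℝ)) * (1 - (b : ℝ)) := by linarith
  rw [← ENNReal.ofReal_mul ha0, ← ENNReal.ofReal_mul ha1, ← ENNReal.ofReal_add]
  · congr 1
    rw [hc]
    by_cases ht : true ∈ t <;> by_cases hf : false ∈ t <;> simp [ht, hf] <;> ring
  · by_cases ht : true ∈ t <;> by_cases hf : false ∈ t <;> simp [ht, hf] <;> nlinarith
  · by_cases ht : true ∈ t <;> by_cases hf : false ∈ t <;> simp [ht, hf] <;> nlinarith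

/-- The union of independent layers with parameters `a` and `b` has law `Pr d c` if
`(1-a)(1-b) = 1-c`. -/
theorem map_orC (a b c : unitInterval) (h : (1 - (a : ℝ)) * (1 - (b : ℝ)) = 1 - (c : ℝ)) :
    ((Pr d a).prod (Pr d b)).map (fun x => orC x.1 x.2) = Pr d c := by
  classical
  refine Measure.eq_infinitePi (μ := fun _ : Ed d => bernoulliMeasure true false c) ?_
  intro s t ht
  have hset : MeasurableSet (Set.pi (s : Set (Ed d)) t) :=
    MeasurableSet.pi s.countable_toSet fun e _ => ht e
  rw [Measure.map_apply measurable_orC hset, Measure.prod_apply (measurable_orC hset)]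
  have h1 : ∀ A : Om d, (Pr d b) (Prod.mk A ⁻¹' ((fun x : Om d × Om d => orC x.1 x.2) ⁻¹'
      (Set.pi (s : Set (Ed d)) t))) = ∏ e ∈ s, bernoulliMeasure true false b
        {y | (A e || y) ∈ t e} := by
    intro A
    have : Prod.mk A ⁻¹' ((fun x : Om d × Om d => orC x.1 x.2) ⁻¹' (Set.pi (s : Set (Ed d)) t))
        = Set.pi (s : Set (Ed d)) (fun e => {y | (A e || y) ∈ t e}) := by
      ext B
      simp [orC, Set.mem_pi]
    rw [this]
    unfold Pr
    exact Measure.infinitePi_pi _ (fun e _ => (Set.toFinite _).measurableSet)
  simp_rw [h1]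
  have hm : ∀ e : Ed d, Measurable (fun x : Bool => bernoulliMeasure true false b
      {y | (x || y) ∈ t e}) := fun e => measurable_of_finite _
  have hind : iIndepFun (fun (e : Ed d) (A : Om d) => bernoulliMeasure true false b
      {y | (A e || y) ∈ t e}) (Pr d a) := by
    exact iIndepFun_infinitePi (P := fun _ : Ed d => bernoulliMeasure true false a)
      (X := fun e x => bernoulliMeasure true false b {y | (x || y) ∈ t e}) hm
  rw [lintegral_prod_eq_prod_lintegral_of_indepFun s _ hind
    (fun e => (hm e).comp (measurable_pi_apply e))]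
  refine Finset.prod_congr rfl fun e _ => ?_
  rw [← bern_or a b c h (t e)]
  have h3 : (Pr d a).map (fun A : Om d => A e) = bernoulliMeasure true false a := by
    unfold Pr
    exact Measure.infinitePi_map_eval _ e
  rw [← h3, lintegral_map (hm e) (measurable_pi_apply e)]

end Ein99
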