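import Pool.Agent.LibEin99.C_Loc
import Pool.Agent.LibEin99.C_Loc2
import Pool.Agent.LibEin99.C_Meas
import Pool.Agent.LibGM95.M_Cross
import Pool.Agent.LibGM95.M_Law

/-!
# The annulus step of the merging argument
-/

open MeasureTheory ProbabilityTheory Filter Topology

namespace Ein99

variable {d : ℕ}

open Classical in
/-- close all edges of `F` -/
noncomputable def offF (F : Set (Ed d)) (ω : Om d) : Om d := fun e => if e ∈ F then false else ω e

/-- Stop a path when it first meets `U`; up to this time no edge inside `U` is used. -/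
theorem first_touch (U : Set (V d)) (F : Set (Ed d))
    (hF : ∀ e ∈ F, e.1 ∈ U ∧ e.1 + st (e.2, true) ∈ U) (ω : Om d) (S : Set (V d)) (x v : V d)
    (h : JoinIn ω S x v) :
    JoinIn (offF F ω) S x v ∨ ∃ w ∈ U, JoinIn (offF F ω) S x w := by
  unfold JoinIn at h
  induction h with
  | refl => exact Or.inl Relation.ReflTransGen.refl
  | @tail b c _ hbc ih =>
    rcases ih with h1 | h1
    · by_cases hb : b ∈ U
      · exact Or.inr ⟨b, hb, h1⟩
      · left
        obtain ⟨hbS, hcS, δ, hδ, rfl⟩ := hbc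
        refine Relation.ReflTransGen.tail h1 ⟨hbS, hcS, δ, ?_, rfl⟩
        have hnF : ed b δ ∉ F := by
          intro hc
          obtain ⟨h2, h3⟩ := hF _ hc
          obtain ⟨i, s⟩ := δ
          cases s with
          | true => exact hb h2
          | false =>
            apply hb
            simp only [ed, Bool.false_eq_true, if_false] at h3
            have h4 : (st (i, true) : V d) = - st (i, false) := by
              have := st_rv (d := d) (i, false)
              simpa [rv] using this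
            rwa [h4, add_neg_cancel_right] at h3
        unfold opn offF
        rw [if_neg hnF]
        exact hδ
    · exact Or.inr h1

theorem JoinIn_offF (F : Set (Ed d)) (ω : Om d) {S : Set (V d)} {x y : V d}
    (h : JoinIn (offF F ω) S x y) : JoinIn ω S x y := by
  unfold JoinIn at h ⊢
  induction h with
  | refl => exact Relation.ReflTransGen.refl
  | tail _ hbc ih =>
    refine Relation.ReflTransGen.tail ih ⟨hbc.1, hbc.2.1, ?_⟩
    obtain ⟨δ, hδ, h2⟩ := hbc.2.2
    refine ⟨δ, ?_, h2⟩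
    unfold opn offF at hδ
    unfold opn
    split_ifs at hδ with h3
    exact hδ

/-- The vertices of a box with all edges open are joined. -/
theorem JoinIn_of_open (N : ℕ) (c : V d) (ω : Om d) (hω : ∀ e ∈ EB N c, ω e = true) (x y : V d)
    (hx : x ∈ Bx N c) (hy : y ∈ Bx N c) : JoinIn ω (Bx N c : Set (V d)) x y := by
  have h := box_connected N c x y hx hy
  unfold NJoin at h
  unfold JoinIn
  induction h with
  | refl => exact Relation.ReflTransGen.refl
  | @tail b w _ hbw ih =>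
    obtain ⟨hb, hw, δ, rfl⟩ := hbw
    refine Relation.ReflTransGen.tail (ih hb) ⟨hb, hw, δ, ?_, rfl⟩
    exact hω _ (ed_mem_EB.2 ⟨hb, hw⟩)

/-- the event at radius `r`: `x` is joined to the boundary of `Bx r 0` but not to `M` -/
def EvM (A : Om d) (M : Set (V d)) (x : V d) (r : ℕ) (B : Om d) : Prop :=
  ToBd (orC A B) r 0 x ∧ ∀ v ∈ M, ¬ JoinIn (orC A B) (Bx r (0 : V d) : Set (V d)) x v

theorem Loc_orC {α : Type*} (S : Set (Ed d)) (A : Om d) {g : Om d → α} (hg : Loc S g) :
    Loc S (fun B => g (orC A B)) := by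
  intro ω ω' h
  apply hg
  intro e he
  simp only [orC, h e he]

theorem Loc_EvM (A : Om d) (M : Set (V d)) (x : V d) (r : ℕ) :
    Loc (EB r (0 : V d) : Set (Ed d)) (fun B => EvM A M x r B) := by
  intro ω ω' h
  have h1 := Loc_orC _ A (Loc_ToBd r (0 : V d) x) ω ω' h
  have h2 : ∀ v, JoinIn (orC A ω) (Bx r (0 : V d) : Set (V d)) x v
      = JoinIn (orC A ω') (Bx r (0 : V d) : Set (V d)) x v :=
    fun v => Loc_orC _ A (Loc_JoinIn r (0 : V d) x v) ω ω' h
  simp only at h1
  simp only [EvM, h1, h2]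

open Classical in
/-- the blocks of the annulus met by `M` -/
noncomputable def Zs (N r W : ℕ) (M : Set (V d)) : Finset (V d) :=
  (Bx (r + W) (0 : V d)).filter (fun u => (∃ w ∈ M, w ∈ Bx N ((N : ℤ) • u)) ∧
    ∀ w ∈ Bx N ((N : ℤ) • u), w ∈ Bx (r + W) (0 : V d) ∧ w ∉ Bx r (0 : V d))

/-- the edges inside these blocks -/
def FF (N r W : ℕ) (M : Set (V d)) : Set (Ed d) := {e | ∃ u ∈ Zs N r W M, e ∈ EB N ((N : ℤ) • u)}

/-- the vertices of these blocks -/
def UU (N r W : ℕ) (M : Set (V d)) : Set (V d) := {v | ∃ u ∈ Zs N r W M, v ∈ Bx N ((N : ℤ) • u)}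

open Classical in
/-- the blocks touched by the cluster of `x` explored off the blocks -/
noncomputable def TT (N r W : ℕ) (M : Set (V d)) (A : Om d) (x : V d) (B : Om d) : Finset (V d) :=
  (Zs N r W M).filter (fun u => ∃ v ∈ Bx N ((N : ℤ) • u),
    JoinIn (offF (FF N r W M) (orC A B)) (Bx (r + W) (0 : V d) : Set (V d)) x v)

theorem mem_Zs {N r W : ℕ} (hN : 1 ≤ N) {M : Set (V d)} {u : V d} :
    u ∈ Zs N r W M ↔ (∃ w ∈ M, w ∈ Bx N ((N : ℤ) • u)) ∧
      ∀ w ∈ Bx N ((N : ℤ) • u), w ∈ Bx (r + W) (0 : V d) ∧ w ∉ Bx r (0 : V d) := by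
  classical
  unfold Zs
  rw [Finset.mem_filter]
  refine ⟨fun h => h.2, fun h => ⟨?_, h⟩⟩
  have h1 := (h.2 _ (self_mem_Bx N ((N : ℤ) • u))).1
  rw [mem_Bx] at h1 ⊢
  intro i
  have h2 := h1 i
  simp only [Pi.smul_apply, smul_eq_mul, Pi.zero_apply, sub_zero] at h2 ⊢
  rw [abs_mul] at h2
  have h3 : (1 : ℤ) ≤ |(N : ℤ)| := by
    rw [abs_of_nonneg (by positivity)]
    exact_mod_cast hN
  have h4 := abs_nonneg (u i)
  nlinarith

theorem FF_UU {N r W : ℕ} {M : Set (V d)} : ∀ e ∈ FF N r W M,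
    e.1 ∈ UU N r W M ∧ e.1 + st (e.2, true) ∈ UU N r W M := by
  rintro e ⟨u, hu, he⟩
  rw [mem_EB] at he
  exact ⟨⟨u, hu, he.1⟩, ⟨u, hu, he.2⟩⟩

/-- On the event at the outer radius some block is touched. -/
theorem TT_nonempty (N k ρ r W : ℕ) (hN : 1 ≤ N) (hW : N * (2 * k + 8) ≤ W)
    (hr : r + W ≤ N * (ρ - 1)) (M : Set (V d)) (hM : Hits N k ρ M) (A : Om d) (x : V d)
    (hx : x ∈ Bx r (0 : V d)) (B : Om d) (h : EvM A M x (r + W) B) :
    (TT N r W M A x B).Nonempty := by
  classical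
  obtain ⟨u, v, h1, h2, h3, h4⟩ := cross_hits N k ρ r W hN hW hr M hM (orC A B) x hx h.1
  have hu : u ∈ Zs N r W M := (mem_Zs hN).2 ⟨h1, h4⟩
  have hvU : v ∈ UU N r W M := ⟨u, hu, h2⟩
  have key : ∃ w ∈ UU N r W M, JoinIn (offF (FF N r W M) (orC A B))
      (Bx (r + W) (0 : V d) : Set (V d)) x w := by
    rcases first_touch (UU N r W M) (FF N r W M) FF_UU (orC A B) _ x v h3 with h5 | h5
    · exact ⟨v, hvU, h5⟩
    · exact h5
  obtain ⟨w, ⟨u', hu', hw⟩, h6⟩ := key
  exact ⟨u', Finset.mem_filter.2 ⟨hu', w, hw, h6⟩⟩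

/-- If all edges of a touched block are open then `x` is joined to `M`. -/
theorem join_of_TT (N r W : ℕ) (hN : 1 ≤ N) (M : Set (V d)) (A : Om d) (x : V d) (B : Om d)
    (u : V d) (hu : u ∈ TT N r W M A x B) (hB : ∀ e ∈ EB N ((N : ℤ) • u), B e = true) :
    ∃ v ∈ M, JoinIn (orC A B) (Bx (r + W) (0 : V d) : Set (V d)) x v := by
  classical
  unfold TT at hu
  rw [Finset.mem_filter] at hu
  obtain ⟨hu, v, hv, hj⟩ := hu
  obtain ⟨⟨w, hwM, hw⟩, h2⟩ := (mem_Zs hN).1 hu
  refine ⟨w, hwM, (JoinIn_offF _ _ hj).trans ?_⟩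
  refine JoinIn_mono _ (fun q hq => (h2 q hq).1) (JoinIn_of_open N ((N : ℤ) • u) _ ?_ v w hv hw)
  intro e he
  simp [orC, hB e he]

theorem Loc_TT (N r W : ℕ) (M : Set (V d)) (A : Om d) (x : V d) (u : V d)
    (hu : u ∈ Zs N r W M) :
    Loc ((EB (r + W) (0 : V d) \ EB N ((N : ℤ) • u) : Finset (Ed d)) : Set (Ed d))
      (fun B => TT N r W M A x B) := by
  classical
  intro ω ω' h
  have h0 : ∀ v, JoinIn (offF (FF N r W M) (orC A ω)) (Bx (r + W) (0 : V d) : Set (V d)) x v =
      JoinIn (offF (FF N r W M) (orC A ω')) (Bx (r + W) (0 : V d) : Set (V d)) x v := by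
    intro v
    refine Loc_JoinIn (r + W) (0 : V d) x v _ _ ?_
    intro e he
    unfold offF
    split_ifs with h1
    · rfl
    · have h2 : e ∉ EB N ((N : ℤ) • u) := fun hc => h1 ⟨u, hu, hc⟩
      have h3 : ω e = ω' e := by
        apply h
        rw [Finset.mem_coe, Finset.mem_sdiff]
        exact ⟨he, h2⟩
      simp only [orC, h3]
  unfold TT
  simp only [h0]

theorem indep_events (q : unitInterval) (S T : Finset (Ed d)) (hST : Disjoint S T)
    (A C : Set (Om d)) (hA : Loc (S : Set (Ed d)) (fun ω => ω ∈ A))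
    (hC : Loc (T : Set (Ed d)) (fun ω => ω ∈ C)) :
    (Pr d q).real (A ∩ C) = (Pr d q).real A * (Pr d q).real C := by
  have h := Loc.indepFun q S T hST (g := fun ω => ω ∈ A) (h := fun ω => ω ∈ C) hA hC
  have h1 := h.measure_inter_preimage_eq_mul {True} {True} (MeasurableSet.singleton _)
    (MeasurableSet.singleton _)
  have e1 : (fun ω => ω ∈ A) ⁻¹' {True} = A := by ext ω; simp
  have e2 : (fun ω => ω ∈ C) ⁻¹' {True} = C := by ext ω; simp
  rw [e1, e2] at h1
  rw [Measure.real, h1, ENNReal.toReal_mul]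
  rfl

theorem prob_all_open (q : unitInterval) (S : Finset (Ed d)) :
    (Pr d q).real {ω | ∀ e ∈ S, ω e = true} = (q : ℝ) ^ S.card := by
  classical
  have h1 : {ω : Om d | ∀ e ∈ S, ω e = true} = Set.pi (S : Set (Ed d)) (fun _ => {true}) := by
    ext ω
    simp [Set.mem_pi]
  have h2 : bernoulliMeasure true false q {true} = ENNReal.ofReal (q : ℝ) := by
    have h3 := bernoulliMeasure_real_apply (x := true) (y := false) q
      (MeasurableSet.singleton true)
    have h4 : (bernoulliMeasure true false q).real {true} = (q : ℝ) := by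
      rw [h3]; simp
    rw [← h4, Measure.real, ENNReal.ofReal_toReal (measure_ne_top _ _)]
  rw [h1, Measure.real, Pr, Measure.infinitePi_pi _ (fun e _ => MeasurableSet.singleton true)]
  simp only [h2]
  rw [Finset.prod_const, ENNReal.toReal_pow, ENNReal.toReal_ofReal q.2.1]

theorem prob_not_all_open (q : unitInterval) (N : ℕ) (u : V d) :
    (Pr d q).real {ω | ¬ ∀ e ∈ EB N u, ω e = true} ≤ 1 - (q : ℝ) ^ (d * (2 * N + 1) ^ d) := by
  have h0 : MeasurableSet {ω : Om d | ∀ e ∈ EB N u, ω e = true} := by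
    refine Loc.measurableSet (EB N u) ?_
    intro ω ω' h
    simp only [Set.mem_ofPred_eq, eq_iff_iff]
    exact ⟨fun h1 e he => by rw [← h e he]; exact h1 e he,
      fun h1 e he => by rw [h e he]; exact h1 e he⟩
  have h1 : {ω : Om d | ¬ ∀ e ∈ EB N u, ω e = true} = {ω : Om d | ∀ e ∈ EB N u, ω e = true}ᶜ := rfl
  rw [h1, measureReal_compl h0, prob_all_open]
  have h2 : (Pr d q).real Set.univ = 1 := by simp
  rw [h2]
  have h3 : (EB N u).card ≤ d * (2 * N + 1) ^ d := by
    have := card_EB_le (d := d) N u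
    exact_mod_cast this
  have h4 := pow_le_pow_of_le_one q.2.1 q.2.2 h3
  linarith

/-- The annulus step. -/
theorem annulus_step (N k ρ r W : ℕ) (hN : 1 ≤ N) (hW : N * (2 * k + 8) ≤ W)
    (hr : r + W ≤ N * (ρ - 1)) (M : Set (V d)) (hM : Hits N k ρ M) (A : Om d) (x : V d)
    (hx : x ∈ Bx r (0 : V d)) (q : unitInterval) :
    (Pr d q).real {B | EvM A M x (r + W) B} ≤
      (1 - (q : ℝ) ^ (d * (2 * N + 1) ^ d)) * (Pr d q).real {B | EvM A M x r B} := by
  classical
  obtain ⟨f, hf⟩ : ∃ f : Finset (V d) → V d, ∀ T : Finset (V d), T.Nonempty → f T ∈ T :=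
    ⟨fun T => if h : T.Nonempty then h.choose else 0, fun T h => by
      simp only [h, dif_pos]; exact h.choose_spec⟩
  set Z := Zs N r W M with hZ
  set T := fun B : Om d => TT N r W M A x B with hT
  set Au : V d → Set (Om d) := fun u => {B | EvM A M x r B ∧ (T B).Nonempty ∧ f (T B) = u} with hAu
  set Cu : V d → Set (Om d) := fun u => {B | ¬ ∀ e ∈ EB N ((N : ℤ) • u), B e = true} with hCu
  have hrad : r ≤ r + W := by omega
  -- from the outer event to the inner one
  have hEv : ∀ B, EvM A M x (r + W) B → EvM A M x r B := by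
    intro B h
    refine ⟨ToBd_mono _ (Bx_mono hrad _) hx h.1, fun v hv hj => h.2 v hv (JoinIn_mono _ ?_ hj)⟩
    intro y hy
    exact Bx_mono hrad _ hy
  have hsub : {B | EvM A M x (r + W) B} ⊆ ⋃ u ∈ Z, Au u ∩ Cu u := by
    intro B hB
    have hne := TT_nonempty N k ρ r W hN hW hr M hM A x hx B hB
    have hmem := hf (T B) hne
    have hmemZ : f (T B) ∈ Z := (Finset.mem_filter.1 hmem).1
    rw [Set.mem_iUnion₂]
    refine ⟨f (T B), hmemZ, ⟨hEv B hB, hne, rfl⟩, ?_⟩
    intro hopen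
    obtain ⟨v, hv, hj⟩ := join_of_TT N r W hN M A x B _ hmem hopen
    exact hB.2 v hv hj
  have hdisjEB : ∀ u ∈ Z, ∀ e ∈ EB r (0 : V d), e ∉ EB N ((N : ℤ) • u) := by
    intro u hu e he hc
    rw [mem_EB] at he hc
    exact (((mem_Zs hN).1 hu).2 _ hc.1).2 he.1
  have hLA : ∀ u ∈ Z, Loc ((EB (r + W) (0 : V d) \ EB N ((N : ℤ) • u) : Finset (Ed d)) :
      Set (Ed d)) (fun B => B ∈ Au u) := by
    intro u hu ω ω' h
    have h1 : EvM A M x r ω = EvM A M x r ω' := by
      apply Loc_EvM A M x r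
      intro e he
      apply h
      rw [Finset.mem_coe, Finset.mem_sdiff]
      exact ⟨EB_mono hrad _ he, hdisjEB u hu e he⟩
    have h2 : T ω = T ω' := Loc_TT N r W M A x u hu ω ω' h
    simp only [hAu, Set.mem_ofPred_eq, h1, h2]
  have hLC : ∀ u, Loc ((EB N ((N : ℤ) • u) : Finset (Ed d)) : Set (Ed d))
      (fun B => B ∈ Cu u) := by
    intro u ω ω' h
    have : (∀ e ∈ EB N ((N : ℤ) • u), ω e = true) ↔ (∀ e ∈ EB N ((N : ℤ) • u), ω' e = true) :=
      ⟨fun h1 e he => by rw [← h e he]; exact h1 e he,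
        fun h1 e he => by rw [h e he]; exact h1 e he⟩
    simp only [hCu, Set.mem_ofPred_eq, this]
  have hmA : ∀ u ∈ Z, MeasurableSet (Au u) := fun u hu => Loc.measurableSet _ (hLA u hu)
  have hc0 : 0 ≤ 1 - (q : ℝ) ^ (d * (2 * N + 1) ^ d) := by
    have := pow_le_one₀ (n := d * (2 * N + 1) ^ d) q.2.1 q.2.2
    linarith
  calc (Pr d q).real {B | EvM A M x (r + W) B}
      ≤ (Pr d q).real (⋃ u ∈ Z, Au u ∩ Cu u) := measureReal_mono hsub (measure_ne_top _ _)
    _ ≤ ∑ u ∈ Z, (Pr d q).real (Au u ∩ Cu u) := measureReal_biUnion_finset_le _ _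
    _ ≤ ∑ u ∈ Z, (1 - (q : ℝ) ^ (d * (2 * N + 1) ^ d)) * (Pr d q).real (Au u) := by
        refine Finset.sum_le_sum fun u hu => ?_
        rw [indep_events q _ _ Finset.sdiff_disjoint _ _ (hLA u hu) (hLC u), mul_comm]
        exact mul_le_mul_of_nonneg_right (prob_not_all_open q N _) measureReal_nonneg
    _ = (1 - (q : ℝ) ^ (d * (2 * N + 1) ^ d)) * (Pr d q).real (⋃ u ∈ Z, Au u) := by
        rw [← Finset.mul_sum, measureReal_biUnion_finset]
        · intro u _ v _ huv
          refine Set.disjoint_left.2 fun B hB1 hB2 => huv ?_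
          exact hB1.2.2.symm.trans hB2.2.2
        · exact hmA
    _ ≤ (1 - (q : ℝ) ^ (d * (2 * N + 1) ^ d)) * (Pr d q).real {B | EvM A M x r B} := by
        refine mul_le_mul_of_nonneg_left (measureReal_mono ?_) hc0
        intro B hB
        rw [Set.mem_iUnion₂] at hB
        obtain ⟨u, _, h1, _⟩ := hB
        exact h1

end Ein99
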