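import Pool.Agent.LibGM95.M_Good
import Pool.Agent.LibEin99.H_Crit

/-!
# The geometric hypothesis for all supercritical parameters, from the exploration
-/

open MeasureTheory ProbabilityTheory Filter Topology

namespace Ein99

variable {d : ℕ}

/-- Assembly: `hcore` is the output of the exploration, `hbig` the ergodicity statement. -/
theorem hypH_of_parts (hd : 2 ≤ d) (p0 p : unitInterval) (hp : p0 < p)
    (hcore : ∀ p1 : unitInterval, p0 < p1 → ∀ η : ℝ, 0 < η → ∃ N : ℕ, 1 ≤ N ∧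
      ∀ᶠ t : ℕ in atTop, (Pr d p1).real
        {ω | ¬ Core N t (3 * t ^ 2 - t - 4) (3 * (N * t ^ 2)) ω} ≤ η)
    (hbig : ∀ η : ℝ, 0 < η → ∃ m : ℕ, ∀ n : ℕ, m ≤ n → (Pr d p).real
      {ω | ¬ ∃ x ∈ Bx m (0 : V d), ToBd ω n (0 : V d) x} ≤ η) :
    ∃ (K : ℕ) (C c : ℝ), HypH d p K C c := by
  obtain ⟨p1, h1, h2⟩ := exists_between hp
  have hδ : 0 < del0 d / 3 := by
    unfold del0
    positivity
  obtain ⟨N, hN, hc⟩ := hcore p1 h1 (del0 d / 3) hδ
  obtain ⟨m, hm⟩ := hbig (del0 d / 3) hδ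
  have hb : ∀ᶠ b : ℕ in atTop, (Pr d p).real
      {ω | ¬ ∃ x ∈ Bx b (0 : V d), ToBd ω (4 * b) (0 : V d) x} ≤ del0 d / 3 := by
    filter_upwards [eventually_ge_atTop m] with b hb
    refine (measureReal_mono ?_ (measure_ne_top _ _)).trans (hm (4 * b) (by omega))
    intro ω hω hc
    obtain ⟨x, hx, hx2⟩ := hc
    exact hω ⟨x, Bx_mono hb _ hx, hx2⟩
  obtain ⟨b, hb1, hb2⟩ := goodB_of_core p1 p h2 N hN (del0 d / 3) hδ hc hb
  obtain ⟨C, c, h⟩ := hypH_of_crit d hd p b hb1 (by linarith)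
  exact ⟨4, C, c, h⟩

end Ein99
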