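import Pool.Agent.LibGM95.M_Iter

/-!
# From the core cluster to the good block event
-/

open MeasureTheory ProbabilityTheory Filter Topology

namespace Ein99

variable {d : ℕ}

theorem poly_geom (a : ℝ) (ha0 : 0 ≤ a) (ha1 : a < 1) (N D : ℕ) :
    Tendsto (fun t : ℕ => (4 * ((N * t ^ 2 : ℕ) : ℝ) + 1) ^ D * a ^ (t / 4)) atTop (𝓝 0) := by
  have h1 : Tendsto (fun n : ℕ => (n : ℝ) ^ (2 * D) * a ^ n) atTop (𝓝 0) :=
    tendsto_pow_const_mul_const_pow_of_abs_lt_one (2 * D) (by rw [abs_of_nonneg ha0]; exact ha1)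
  have h2 : Tendsto (fun t : ℕ => t / 4) atTop atTop := Nat.tendsto_div_const_atTop (by norm_num)
  have h3 : Tendsto (fun t : ℕ => (256 * (N : ℝ) + 1) ^ D *
      (((t / 4 : ℕ) : ℝ) ^ (2 * D) * a ^ (t / 4))) atTop (𝓝 0) := by
    have := (h1.comp h2).const_mul ((256 * (N : ℝ) + 1) ^ D)
    simpa using this
  refine squeeze_zero' (Eventually.of_forall fun t => by positivity) ?_ h3
  filter_upwards [eventually_ge_atTop 4] with t ht
  rw [← mul_assoc]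
  refine mul_le_mul_of_nonneg_right ?_ (pow_nonneg ha0 _)
  rw [pow_mul, ← mul_pow]
  refine pow_le_pow_left₀ (by positivity) ?_ D
  have h4 : 1 ≤ t / 4 := by omega
  have h5 : t ≤ 8 * (t / 4) := by omega
  have h6 : (1 : ℝ) ≤ ((t / 4 : ℕ) : ℝ) := by exact_mod_cast h4
  have h7 : (t : ℝ) ≤ 8 * ((t / 4 : ℕ) : ℝ) := by exact_mod_cast h5
  have h8 : (t : ℝ) ^ 2 ≤ 64 * ((t / 4 : ℕ) : ℝ) ^ 2 := by
    have := pow_le_pow_left₀ (by positivity) h7 2
    nlinarith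
  push_cast
  have hN : (0 : ℝ) ≤ N := by positivity
  have h9 : (1 : ℝ) ≤ ((t / 4 : ℕ) : ℝ) ^ 2 := by nlinarith
  nlinarith [mul_le_mul_of_nonneg_left h8 hN]

theorem exists_layer (p1 p : unitInterval) (h : p1 < p) :
    ∃ q : unitInterval, 0 < (q : ℝ) ∧ (1 - (p1 : ℝ)) * (1 - (q : ℝ)) = 1 - (p : ℝ) := by
  have h1 : (p1 : ℝ) < p := h
  have h2 : (p : ℝ) ≤ 1 := p.2.2
  have h3 : 0 < 1 - (p1 : ℝ) := by linarith
  refine ⟨⟨((p : ℝ) - p1) / (1 - p1), ?_, ?_⟩, ?_, ?_⟩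
  · exact div_nonneg (by linarith) h3.le
  · rw [div_le_one h3]; linarith
  · exact div_pos (by linarith) h3
  · field_simp
    ring

/-- Increasing events are more likely for larger `p`. -/
theorem Pr_mono (p1 p : unitInterval) (h : p1 ≤ p) (E : Set (Om d)) (hE : MeasurableSet E)
    (hinc : ∀ A B : Om d, A ∈ E → orC A B ∈ E) : (Pr d p1).real E ≤ (Pr d p).real E := by
  rcases h.eq_or_lt with rfl | h
  · exact le_rfl
  obtain ⟨q, _, hq⟩ := exists_layer p1 p h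
  have h1 : (Pr d p1) E ≤ (Pr d p) E := by
    rw [← map_orC p1 q p hq, Measure.map_apply measurable_orC hE]
    have h2 : E ×ˢ (Set.univ : Set (Om d)) ⊆ (fun x : Om d × Om d => orC x.1 x.2) ⁻¹' E := by
      rintro ⟨A, B⟩ ⟨hA, _⟩
      exact hinc A B hA
    refine le_trans ?_ (measure_mono h2)
    rw [Measure.prod_prod, measure_univ, mul_one]
  exact ENNReal.toReal_mono (measure_ne_top _ _) h1

/-- **From the core cluster to the finite size criterion.** -/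
theorem goodB_of_core (p1 p : unitInterval) (hp : p1 < p) (N : ℕ) (hN : 1 ≤ N) (η : ℝ)
    (hη : 0 < η)
    (hcore : ∀ᶠ t : ℕ in atTop, (Pr d p1).real
      {ω | ¬ Core N t (3 * t ^ 2 - t - 4) (3 * (N * t ^ 2)) ω} ≤ η)
    (hbig : ∀ᶠ b : ℕ in atTop, (Pr d p).real
      {ω | ¬ ∃ x ∈ Bx b (0 : V d), ToBd ω (4 * b) (0 : V d) x} ≤ η) :
    ∃ b : ℕ, 1 ≤ b ∧ (Pr d p).real {ω : Om d | ¬ GoodB b ω 0} ≤ 3 * η := by
  obtain ⟨q, hq0, hq⟩ := exists_layer p1 p hp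
  set a : ℝ := 1 - (q : ℝ) ^ (d * (2 * N + 1) ^ d) with ha
  have ha1 : a < 1 := by
    have : 0 < (q : ℝ) ^ (d * (2 * N + 1) ^ d) := pow_pos hq0 _
    linarith
  have ha0 : 0 ≤ a := by
    have := pow_le_one₀ (n := d * (2 * N + 1) ^ d) q.2.1 q.2.2
    linarith
  have h1 := (poly_geom a ha0 ha1 N d).eventually_le_const hη
  have h2 : Tendsto (fun t : ℕ => N * t ^ 2) atTop atTop := by
    refine tendsto_atTop_mono (fun t => ?_) tendsto_id
    simp only [id]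
    nlinarith [Nat.zero_le t, Nat.le_self_pow (n := 2) (by norm_num) t,
      Nat.mul_le_mul hN (le_refl (t ^ 2))]
  have h3 := h2.eventually hbig
  obtain ⟨t, ht1, ht2, ht3, ht4⟩ := (h1.and (h3.and (hcore.and (eventually_ge_atTop 20)))).exists
  refine ⟨N * t ^ 2, ?_, ?_⟩
  · exact Nat.mul_pos hN (pow_pos (by omega) 2)
  have hsub : {ω : Om d | ¬ GoodB (N * t ^ 2) ω 0} ⊆
      {ω | ¬ ∃ x ∈ Bx (N * t ^ 2) (0 : V d), ToBd ω (4 * (N * t ^ 2)) (0 : V d) x} ∪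
      {ω | ¬ Uq (N * t ^ 2) ω} := by
    intro ω hω
    by_contra hc
    rw [Set.mem_union, not_or] at hc
    obtain ⟨hc1, hc2⟩ := hc
    simp only [Set.mem_ofPred_eq, not_not] at hc1 hc2
    apply hω
    unfold GoodB
    rw [smul_zero]
    exact ⟨hc1, hc2⟩
  have hj : 4 * (t / 4) ≤ t := by omega
  have e1 : (t / 4) * (N * (2 * t + 8)) ≤ N * (t ^ 2 - t - 5) := by
    have e2 : (t / 4) * (2 * t + 8) ≤ t ^ 2 - t - 5 := by
      have e3 : 2 * ((t / 4) * (2 * t + 8)) ≤ t * (t + 4) := by nlinarith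
      have e4 : t * (t + 4) + 2 * (t + 5) ≤ 2 * t ^ 2 := by nlinarith
      have e5 : t + 5 ≤ t ^ 2 := by nlinarith
      omega
    calc (t / 4) * (N * (2 * t + 8)) = N * ((t / 4) * (2 * t + 8)) := by ring
      _ ≤ N * (t ^ 2 - t - 5) := Nat.mul_le_mul le_rfl e2
  have e5 : t + 5 ≤ t ^ 2 := by nlinarith
  have hr : 2 * (N * t ^ 2) + (t / 4) * (N * (2 * t + 8)) ≤ N * (3 * t ^ 2 - t - 4 - 1) := by
    have e6 : 3 * t ^ 2 - t - 4 - 1 = 2 * t ^ 2 + (t ^ 2 - t - 5) := by omega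
    rw [e6, Nat.mul_add N (2 * t ^ 2)]
    have e7 : 2 * (N * t ^ 2) = N * (2 * t ^ 2) := by ring
    rw [e7]
    exact Nat.add_le_add_left e1 _
  have hr' : 2 * (N * t ^ 2) + (t / 4) * (N * (2 * t + 8)) ≤ 3 * (N * t ^ 2) := by
    have e8 : N * (t ^ 2 - t - 5) ≤ N * t ^ 2 := Nat.mul_le_mul le_rfl (by omega)
    omega
  have hmain := merge_bound (d := d) N t (3 * t ^ 2 - t - 4) (N * t ^ 2) (N * (2 * t + 8)) hN
    le_rfl (t / 4) hr hr' p1 q p hq
  refine (measureReal_mono hsub (measure_ne_top _ _)).trans ?_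
  refine (measureReal_union_le _ _).trans ?_
  have : (4 * (((N * t ^ 2 : ℕ)) : ℝ) + 1) ^ d * a ^ (t / 4) ≤ η := ht1
  linarith

end Ein99
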