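import Pool.Agent.LibGM95.M_Claim

/-!
# Iteration over the annuli, and the merging theorem
-/

open MeasureTheory ProbabilityTheory Filter Topology

namespace Ein99

variable {d : ℕ}

theorem Ev_anti (A : Om d) (M : Set (V d)) (x : V d) (r s : ℕ) (hrs : r ≤ s)
    (hx : x ∈ Bx r (0 : V d)) (B : Om d) (h : EvM A M x s B) : EvM A M x r B := by
  refine ⟨ToBd_mono _ (Bx_mono hrs _) hx h.1, fun v hv hj => h.2 v hv (JoinIn_mono _ ?_ hj)⟩
  intro y hy
  exact Bx_mono hrs _ hy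

/-- Iteration of the annulus step. -/
theorem annulus_iter (N k ρ r W : ℕ) (hN : 1 ≤ N) (hW : N * (2 * k + 8) ≤ W)
    (M : Set (V d)) (hM : Hits N k ρ M) (A : Om d) (x : V d)
    (hx : x ∈ Bx r (0 : V d)) (q : unitInterval) (j : ℕ) (hr : r + j * W ≤ N * (ρ - 1)) :
    (Pr d q).real {B | EvM A M x (r + j * W) B} ≤ (1 - (q : ℝ) ^ (d * (2 * N + 1) ^ d)) ^ j := by
  have hc0 : 0 ≤ 1 - (q : ℝ) ^ (d * (2 * N + 1) ^ d) := by
    have := pow_le_one₀ (n := d * (2 * N + 1) ^ d) q.2.1 q.2.2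
    linarith
  induction j with
  | zero => simp
  | succ j ih =>
    have e : r + (j + 1) * W = (r + j * W) + W := by ring
    rw [e] at hr ⊢
    refine (annulus_step N k ρ (r + j * W) W hN hW hr M hM A x
      (Bx_mono (by omega) _ hx) q).trans ?_
    rw [pow_succ, mul_comm]
    exact mul_le_mul_of_nonneg_right (ih (by omega)) hc0

/-- Union bound over the starting points. -/
theorem bad_bound (N k ρ b W : ℕ) (hN : 1 ≤ N) (hW : N * (2 * k + 8) ≤ W)
    (M : Set (V d)) (hM : Hits N k ρ M) (A : Om d) (q : unitInterval) (j : ℕ)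
    (hr : 2 * b + j * W ≤ N * (ρ - 1)) (hr' : 2 * b + j * W ≤ 3 * b) :
    (Pr d q).real {B | ∃ x ∈ Bx (2 * b) (0 : V d), EvM A M x (3 * b) B} ≤
      (4 * (b : ℝ) + 1) ^ d * (1 - (q : ℝ) ^ (d * (2 * N + 1) ^ d)) ^ j := by
  have hsub : {B : Om d | ∃ x ∈ Bx (2 * b) (0 : V d), EvM A M x (3 * b) B} ⊆
      ⋃ x ∈ Bx (2 * b) (0 : V d), {B | EvM A M x (2 * b + j * W) B} := by
    rintro B ⟨x, hx, h⟩
    rw [Set.mem_iUnion₂]
    exact ⟨x, hx, Ev_anti A M x _ _ hr' (Bx_mono (by omega) _ hx) B h⟩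
  refine (measureReal_mono hsub (measure_ne_top _ _)).trans ?_
  refine (measureReal_biUnion_finset_le _ _).trans ?_
  refine (Finset.sum_le_sum fun x hx =>
    annulus_iter N k ρ (2 * b) W hN hW M hM A x hx q j hr).trans ?_
  rw [Finset.sum_const, card_Bx, nsmul_eq_mul]
  push_cast
  have : (2 * (2 * (b : ℝ)) + 1) = 4 * b + 1 := by ring
  rw [this]

/-- the uniqueness part of the block event -/
def Uq (b : ℕ) (ω : Om d) : Prop :=
  ∀ x ∈ Bx (2 * b) (0 : V d), ∀ y ∈ Bx (2 * b) (0 : V d),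
    ToBd ω (3 * b) (0 : V d) x → ToBd ω (3 * b) (0 : V d) y →
    JoinIn ω (Bx (3 * b) (0 : V d) : Set (V d)) x y

theorem Loc_Uq (b : ℕ) : Loc (EB (3 * b) (0 : V d) : Set (Ed d)) (fun ω => Uq b ω) := by
  intro ω ω' h
  have h1 : ∀ x, ToBd ω (3 * b) (0 : V d) x = ToBd ω' (3 * b) (0 : V d) x :=
    fun x => Loc_ToBd (3 * b) (0 : V d) x ω ω' h
  have h2 : ∀ x y, JoinIn ω (Bx (3 * b) (0 : V d) : Set (V d)) x y
      = JoinIn ω' (Bx (3 * b) (0 : V d) : Set (V d)) x y :=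
    fun x y => Loc_JoinIn (3 * b) (0 : V d) x y ω ω' h
  simp only [Uq, h1, h2]

theorem Loc_Core (N k ρ R : ℕ) :
    Loc (EB R (0 : V d) : Set (Ed d)) (fun ω => Core N k ρ R ω) := by
  intro ω ω' h
  have h2 : ∀ x y, JoinIn ω (Bx R (0 : V d) : Set (V d)) x y
      = JoinIn ω' (Bx R (0 : V d) : Set (V d)) x y :=
    fun x y => Loc_JoinIn R (0 : V d) x y ω ω' h
  simp only [Core, h2]

theorem JoinIn_orC (A B : Om d) {S : Set (V d)} {x y : V d} (h : JoinIn A S x y) :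
    JoinIn (orC A B) S x y := by
  unfold JoinIn at h ⊢
  induction h with
  | refl => exact Relation.ReflTransGen.refl
  | tail _ hbc ih =>
    refine Relation.ReflTransGen.tail ih ⟨hbc.1, hbc.2.1, ?_⟩
    obtain ⟨δ, hδ, h2⟩ := hbc.2.2
    refine ⟨δ, ?_, h2⟩
    unfold opn at hδ ⊢
    simp [orC, hδ]

theorem uq_of_core (b : ℕ) (A B : Om d) (M : Set (V d))
    (hM2 : ∀ x ∈ M, ∀ y ∈ M, JoinIn A (Bx (3 * b) (0 : V d) : Set (V d)) x y)
    (h : ¬ ∃ x ∈ Bx (2 * b) (0 : V d), EvM A M x (3 * b) B) : Uq b (orC A B) := by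
  intro x hx y hy h1 h2
  have key : ∀ z ∈ Bx (2 * b) (0 : V d), ToBd (orC A B) (3 * b) (0 : V d) z →
      ∃ v ∈ M, JoinIn (orC A B) (Bx (3 * b) (0 : V d) : Set (V d)) z v := by
    intro z hz h3
    by_contra hc
    push Not at hc
    exact h ⟨z, hz, h3, fun v hv => hc v hv⟩
  obtain ⟨v, hv, hxv⟩ := key x hx h1
  obtain ⟨w, hw, hyw⟩ := key y hy h2
  exact (hxv.trans (JoinIn_orC A B (hM2 v hv w hw))).trans (JoinIn_symm _ _ hyw)

/-- The merging theorem. -/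
theorem merge_bound (N k ρ b W : ℕ) (hN : 1 ≤ N) (hW : N * (2 * k + 8) ≤ W) (j : ℕ)
    (hr : 2 * b + j * W ≤ N * (ρ - 1)) (hr' : 2 * b + j * W ≤ 3 * b)
    (p1 q p : unitInterval) (hp : (1 - (p1 : ℝ)) * (1 - (q : ℝ)) = 1 - (p : ℝ)) :
    (Pr d p).real {ω | ¬ Uq b ω} ≤ (Pr d p1).real {ω | ¬ Core N k ρ (3 * b) ω} +
      (4 * (b : ℝ) + 1) ^ d * (1 - (q : ℝ) ^ (d * (2 * N + 1) ^ d)) ^ j := by
  classical
  set c : ℝ := (4 * (b : ℝ) + 1) ^ d * (1 - (q : ℝ) ^ (d * (2 * N + 1) ^ d)) ^ j with hc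
  have hc0 : 0 ≤ c := by
    have h1 := pow_le_one₀ (n := d * (2 * N + 1) ^ d) q.2.1 q.2.2
    have h2 : 0 ≤ (1 - (q : ℝ) ^ (d * (2 * N + 1) ^ d)) := by linarith
    positivity
  have hmU : MeasurableSet {ω : Om d | ¬ Uq b ω} := by
    refine Loc.measurableSet (EB (3 * b) (0 : V d)) ?_
    intro ω ω' h
    simp only [Set.mem_ofPred_eq]
    have := Loc_Uq b ω ω' h
    simp only at this
    rw [this]
  have hmC : MeasurableSet {ω : Om d | ¬ Core N k ρ (3 * b) ω} := by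
    refine Loc.measurableSet (EB (3 * b) (0 : V d)) ?_
    intro ω ω' h
    simp only [Set.mem_ofPred_eq]
    have := Loc_Core N k ρ (3 * b) ω ω' h
    simp only at this
    rw [this]
  have h1 : (Pr d p) {ω | ¬ Uq b ω} ≤ (Pr d p1) {ω | ¬ Core N k ρ (3 * b) ω} + ENNReal.ofReal c := by
    rw [← map_orC p1 q p hp, Measure.map_apply measurable_orC hmU,
      Measure.prod_apply (measurable_orC hmU)]
    have h2 : ∀ A : Om d, (Pr d q) (Prod.mk A ⁻¹' ((fun x : Om d × Om d => orC x.1 x.2) ⁻¹'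
        {ω : Om d | ¬ Uq b ω})) ≤
        {ω : Om d | ¬ Core N k ρ (3 * b) ω}.indicator (fun _ => 1) A + ENNReal.ofReal c := by
      intro A
      by_cases hA : Core N k ρ (3 * b) A
      · obtain ⟨M, hM1, hM2, hM3⟩ := hA
        refine le_trans ?_ le_add_self
        have h3 : Prod.mk A ⁻¹' ((fun x : Om d × Om d => orC x.1 x.2) ⁻¹'
            {ω : Om d | ¬ Uq b ω}) ⊆ {B | ∃ x ∈ Bx (2 * b) (0 : V d), EvM A M x (3 * b) B} := by
          intro B hB
          by_contra hcon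
          exact hB (uq_of_core b A B M hM2 hcon)
        refine (measure_mono h3).trans ?_
        have h4 := bad_bound N k ρ b W hN hW M hM3 A q j hr hr'
        rw [Measure.real] at h4
        rw [← ENNReal.ofReal_toReal (measure_ne_top (Pr d q) _)]
        exact ENNReal.ofReal_le_ofReal h4
      · have h5 : A ∈ {ω : Om d | ¬ Core N k ρ (3 * b) ω} := hA
        rw [Set.indicator_of_mem h5]
        exact prob_le_one.trans le_self_add
    refine (lintegral_mono h2).trans ?_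
    rw [lintegral_add_right _ measurable_const, lintegral_indicator hmC]
    simp
  have h6 : (Pr d p1) {ω | ¬ Core N k ρ (3 * b) ω} + ENNReal.ofReal c ≠ ⊤ :=
    ENNReal.add_ne_top.2 ⟨measure_ne_top _ _, ENNReal.ofReal_ne_top⟩
  have h7 := ENNReal.toReal_mono h6 h1
  rw [ENNReal.toReal_add (measure_ne_top _ _) ENNReal.ofReal_ne_top,
    ENNReal.toReal_ofReal hc0] at h7
  exact h7

end Ein99
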