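import Pool.Agent.LibGM77.S_Final
import Pool.Agent.LibGM77.X_Step
import Pool.Agent.LibGM95.Z1
import Pool.Agent.LibGM95.M_Final

/-!
# The geometric hypothesis holds for all supercritical parameters
-/

open MeasureTheory ProbabilityTheory Filter Topology

namespace Ein99

variable {d : ℕ}

theorem Loc_exToBd (m n : ℕ) :
    Loc (EB n (0 : V d) : Set (Ed d)) (fun ω => ∃ x ∈ Bx m (0 : V d), ToBd ω n (0 : V d) x) := by
  intro ω ω' h
  have h1 : ∀ x, ToBd ω n (0 : V d) x = ToBd ω' n (0 : V d) x :=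
    fun x => Loc_ToBd n (0 : V d) x ω ω' h
  simp only [h1]

theorem ToBd_orC (A B : Om d) {r : ℕ} {z x : V d} (h : ToBd A r z x) : ToBd (orC A B) r z x := by
  obtain ⟨y, hy, hj⟩ := h
  exact ⟨y, hy, JoinIn_orC A B hj⟩

theorem big_mono (p0 p : unitInterval) (hp : p0 ≤ p)
    (h0 : 0 < (Pr d p0).real {ω : Om d | InfC ω 0}) (η : ℝ) (hη : 0 < η) :
    ∃ m : ℕ, ∀ n : ℕ, m ≤ n → (Pr d p).real
      {ω | ¬ ∃ x ∈ Bx m (0 : V d), ToBd ω n (0 : V d) x} ≤ η := by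
  obtain ⟨m, hm⟩ := GM.big p0 h0 η hη
  refine ⟨m, fun n hn => ?_⟩
  have h1 := hm m le_rfl n hn
  have hE : MeasurableSet {ω : Om d | ∃ x ∈ Bx m (0 : V d), ToBd ω n (0 : V d) x} :=
    Loc.measurableSet (EB n (0 : V d)) (Loc_exToBd m n)
  have h2 := Pr_mono p0 p hp _ hE (by
    rintro A B ⟨x, hx, h⟩
    exact ⟨x, hx, ToBd_orC A B h⟩)
  have h3 : ∀ q : unitInterval, (Pr d q).real
      {ω | ¬ ∃ x ∈ Bx m (0 : V d), ToBd ω n (0 : V d) x} =
      1 - (Pr d q).real {ω : Om d | ∃ x ∈ Bx m (0 : V d), ToBd ω n (0 : V d) x} := by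
    intro q
    have h4 : {ω : Om d | ¬ ∃ x ∈ Bx m (0 : V d), ToBd ω n (0 : V d) x} =
      {ω : Om d | ∃ x ∈ Bx m (0 : V d), ToBd ω n (0 : V d) x}ᶜ := rfl
    rw [h4, measureReal_compl hE]
    simp
  rw [h3] at h1 ⊢
  linarith

/-- **Local uniqueness for all supercritical parameters** (`d ≥ 2`). -/
theorem hypH_of_perc (d : ℕ) (hd : 2 ≤ d) (p0 p : unitInterval)
    (h0 : 0 < (Pr d p0).real {ω : Om d | InfC ω 0}) (hp : p0 < p) :
    ∃ (K : ℕ) (C c : ℝ), HypH d p K C c := by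
  have hp0 : (p0 : ℝ) < 1 := lt_of_lt_of_le (show (p0 : ℝ) < p from hp) p.2.2
  refine hypH_of_parts hd p0 p hp ?_ (big_mono p0 p hp.le h0)
  intro p1 h1 η hη
  exact GMA.core_all hd p0 p1 h1 (fun ε δ hε hδ hδ1 => GMA.step_ok d p0 h0 hp0 ε δ hε hδ hδ1) η hη

end Ein99
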