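import Pool.Agent.LibGM95.G1

/-!
TASK N1. Deterministic properties of the reached boundary vertices.
First exit: a path inside `Bx n' 0` from `v ∈ Bx m 0 ⊆ Bx n 0` to a vertex outside `Bx n 0` has a
first step `w → w + st δ` with `w + st δ ∉ Bx n 0`; then `w ∈ Rc ω m n` and the edge is open (compare
`conn_dich` in `C_Chain.lean`).
-/

set_option autoImplicit false

open MeasureTheory ProbabilityTheory Filter Topology

namespace Ein99.GM

variable {d : ℕ}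

/-- first exit along a path -/
theorem N1_dich (ω : Om d) (n : ℕ) {v y : V d} (hv : v ∈ Bx n (0 : V d)) (h : Conn ω v y) :
    (∃ w, w ∈ Bx n (0 : V d) ∧ JoinIn ω (Bx n (0 : V d) : Set (V d)) v w ∧
      ∃ dir : Dir d, w + st dir ∉ Bx n (0 : V d) ∧ opn ω w dir) ∨
    (y ∈ Bx n (0 : V d) ∧ JoinIn ω (Bx n (0 : V d) : Set (V d)) v y) := by
  induction h with
  | refl => exact Or.inr ⟨hv, Relation.ReflTransGen.refl⟩
  | @tail b c _ hbc ih =>
    rcases ih with h1 | ⟨hb, hj⟩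
    · exact Or.inl h1
    · by_cases hc : c ∈ Bx n (0 : V d)
      · exact Or.inr ⟨hc, Relation.ReflTransGen.tail hj ⟨hb, hc, hbc⟩⟩
      · left
        obtain ⟨δ, hδ, rfl⟩ := hbc
        exact ⟨b, hb, hj, δ, hc, hδ⟩

/-- a vertex of the box with a neighbour outside lies on the boundary -/
theorem N1_onBd (n : ℕ) {w : V d} (hw : w ∈ Bx n (0 : V d)) (dir : Dir d)
    (h : w + st dir ∉ Bx n (0 : V d)) : OnBd n 0 w := by
  refine ⟨hw, ?_⟩
  rw [mem_Bx] at h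
  push Not at h
  obtain ⟨i, hi⟩ := h
  refine ⟨i, ?_⟩
  have h1 := (mem_Bx.1 (add_st_mem_Bx w dir)) i
  have h2 := (mem_Bx.1 hw) i
  rw [abs_le] at h1 h2
  rw [lt_abs] at hi
  push_cast at h1
  omega

theorem exit_Rc (ω : Om d) {m n n' : ℕ} (hmn : m ≤ n) (hn : n < n') (h : (Rc ω m n').Nonempty) :
    ∃ w ∈ Rc ω m n, ∃ dir : Dir d, w + st dir ∉ Bx n (0 : V d) ∧ opn ω w dir := by
  classical
  obtain ⟨u, hu⟩ := h
  unfold Rc at hu
  rw [Finset.mem_filter] at hu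
  obtain ⟨_, ⟨_, i, hi⟩, v, hv, hj⟩ := hu
  have hvn : v ∈ Bx n (0 : V d) := Bx_mono hmn 0 hv
  rcases N1_dich ω n hvn (JoinIn.conn ω hj) with ⟨w, hw, hjw, dir, hdir, hopn⟩ | ⟨h1, _⟩
  · refine ⟨w, ?_, dir, hdir, hopn⟩
    unfold Rc
    rw [Finset.mem_filter]
    exact ⟨hw, N1_onBd n hw dir hdir, v, hv, hjw⟩
  · exfalso
    have h2 := (mem_Bx.1 h1) i
    rw [abs_le] at h2
    omega

theorem Rc_empty_of_Clo (ω : Om d) {m n n' : ℕ} (hmn : m ≤ n) (hn : n < n') (h : Clo ω m n) :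
    ¬ (Rc ω m n').Nonempty := by
  intro hne
  obtain ⟨w, hw, dir, hdir, hopn⟩ := exit_Rc ω hmn hn hne
  exact h w hw dir hdir hopn

theorem Rc_nonempty_iff (ω : Om d) {m n : ℕ} (hmn : m ≤ n) :
    (Rc ω m n).Nonempty ↔ ∃ v ∈ Bx m (0 : V d), ToBd ω n 0 v := by
  have _ := hmn
  classical
  constructor
  · rintro ⟨u, hu⟩
    unfold Rc at hu
    rw [Finset.mem_filter] at hu
    obtain ⟨_, hb, v, hv, hj⟩ := hu
    exact ⟨v, hv, u, hb, hj⟩
  · rintro ⟨v, hv, u, hb, hj⟩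
    refine ⟨u, ?_⟩
    unfold Rc
    rw [Finset.mem_filter]
    exact ⟨hb.1, hb, v, hv, hj⟩

/-- the events `Rc` nonempty and `Clo` are disjoint for different `n` -/
theorem Clo_disjoint (ω : Om d) {m n n' : ℕ} (hmn : m ≤ n) (hmn' : m ≤ n') (hn : n ≠ n')
    (h : (Rc ω m n).Nonempty ∧ Clo ω m n) : ¬ ((Rc ω m n').Nonempty ∧ Clo ω m n') := by
  rintro ⟨h1, h2⟩
  rcases Nat.lt_or_gt_of_ne hn with h3 | h3
  · exact Rc_empty_of_Clo ω hmn h3 h.2 h1
  · exact Rc_empty_of_Clo ω hmn' h3 h2 h.1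

end Ein99.GM
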