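import Pool.Agent.LibGM95.G2

/-!
TASK P1. Deterministic part of the one-step lemma.
`last_exit`: a path in `S` from `v ∈ C` to `u ∉ C` has a last vertex in `C`.
`not_seed`: if `SeedEv` holds then the vertex `u` of the face orthant with a seed is reached from
`v ∈ Bx m x ⊆ C` inside `Bx n x`; either `u ∈ C` (so `E0`) or the last exit from `C` gives an open edge
of `UU`.
`succ_of`: `E0` or an open edge of `UU` gives `Succ`: `seed_join`, `New_ctr`, `Bx_mono`.
-/

set_option autoImplicit false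

open MeasureTheory ProbabilityTheory Filter Topology

namespace Ein99.GM

variable {d : ℕ}

theorem last_exit (ω : Om d) (S C : Set (V d)) {v u : V d} (hv : v ∈ C) (hu : u ∉ C)
    (h : JoinIn ω S v u) :
    ∃ a ∈ C, ∃ δ : Dir d, opn ω a δ ∧ a ∈ S ∧ a + st δ ∈ S ∧ a + st δ ∉ C ∧
      JoinIn ω (S \ C) (a + st δ) u := by
  have key : ∀ w : V d, JoinIn ω S w u → (w ∉ C ∧ JoinIn ω (S \ C) w u) ∨
      (∃ a ∈ C, ∃ δ : Dir d, opn ω a δ ∧ a ∈ S ∧ a + st δ ∈ S ∧ a + st δ ∉ C ∧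
        JoinIn ω (S \ C) (a + st δ) u) := by
    intro w hw
    unfold JoinIn at hw
    induction hw using Relation.ReflTransGen.head_induction_on with
    | refl => exact Or.inl ⟨hu, Relation.ReflTransGen.refl⟩
    | head h1 _ ih =>
      obtain ⟨haS, hcS, hadj⟩ := h1
      rcases ih with ⟨hcC, hc⟩ | hr
      · rename_i a c _
        by_cases haC : a ∈ C
        · right
          obtain ⟨δ, hδ, hce⟩ := hadj
          subst hce
          exact ⟨a, haC, δ, hδ, haS, hcS, hcC, hc⟩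
        · left
          exact ⟨haC, Relation.ReflTransGen.head ⟨⟨haS, haC⟩, ⟨hcS, hcC⟩, hadj⟩ hc⟩
      · exact Or.inr hr
  rcases key v h with ⟨hvC, _⟩ | h2
  · exact absurd hv hvC
  · exact h2

theorem not_seed (ω : Om d) (m n : ℕ) (x : V d) (dir : Dir d) (σ : Fin d → Bool)
    (C : Finset (V d)) (hC : Bx m x ⊆ C) (h0 : ¬ E0 ω m n x dir σ C)
    (h1 : ∀ e ∈ UU ω m n x dir σ C, ω e = false) : ¬ SeedEv ω m n x dir σ := by
  classical
  rintro ⟨u, hF, ⟨v, hv, hj⟩, hs⟩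
  by_cases huC : u ∈ C
  · exact h0 ⟨u, huC, hF, hs⟩
  · obtain ⟨a, haC, δ, hδ, haS, hbS, hbC, hj'⟩ :=
      last_exit ω (Bx n x : Set (V d)) (C : Set (V d)) (v := v) (u := u)
        (Finset.mem_coe.2 (hC hv)) (fun h => huC (Finset.mem_coe.1 h)) hj
    have hmem : ed a δ ∈ UU ω m n x dir σ C := by
      unfold UU
      rw [Finset.mem_filter]
      refine ⟨ed_mem_EB.2 ⟨Finset.mem_coe.1 haS, Finset.mem_coe.1 hbS⟩, a, Finset.mem_coe.1 haC, δ,
        rfl, fun h => hbC (Finset.mem_coe.2 h), u, hF, huC, hj', hs⟩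
    have h2 := h1 _ hmem
    unfold opn at hδ
    rw [hδ] at h2
    exact Bool.noConfusion h2

theorem succ_of (ω : Om d) (m n : ℕ) (x : V d) (dir : Dir d) (σ : Fin d → Bool)
    (C : Finset (V d)) (h : E0 ω m n x dir σ C ∨ ∃ e ∈ UU ω m n x dir σ C, ω e = true) :
    Succ ω m n x dir σ C := by
  classical
  rcases h with ⟨u, huC, hF, hs⟩ | ⟨e, he, hω⟩
  · exact ⟨ctr m dir u, New_ctr hF, fun y hy => Or.inr ⟨u, huC, seed_join hF ω hs y hy⟩⟩
  · unfold UU at he
    rw [Finset.mem_filter] at he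
    obtain ⟨hEB, a, haC, δ, hed, hbC, u, hF, huC, hj, hs⟩ := he
    refine ⟨ctr m dir u, New_ctr hF, fun y hy => Or.inr ⟨a, haC, ?_⟩⟩
    subst hed
    obtain ⟨ha, hb⟩ := ed_mem_EB.1 hEB
    have hsub : Bx n x ⊆ Bx (n + 2 * m + 1) x := Bx_mono (by omega) x
    have hstep : JoinIn ω (Bx (n + 2 * m + 1) x : Set (V d)) (a + st δ) u :=
      JoinIn_mono ω (fun z hz => Finset.mem_coe.2 (hsub (Finset.mem_coe.1 hz.1))) hj
    have hfirst : JoinIn ω (Bx (n + 2 * m + 1) x : Set (V d)) a (a + st δ) :=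
      Relation.ReflTransGen.single
        ⟨Finset.mem_coe.2 (hsub ha), Finset.mem_coe.2 (hsub hb), δ, hω, rfl⟩
    exact Relation.ReflTransGen.trans hfirst (Relation.ReflTransGen.trans hstep
      (seed_join hF ω hs y hy))

end Ein99.GM
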