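import Pool.Agent.LibGM95.P1

/-!
TASK P2. Probabilistic part of the one-step lemma.
Let `R0 U` be the event `UU = U ∧ ¬ E0`.  It depends on `IE n m x C` (`Dep_R0`): the edges of
`EB n x` with both endpoints outside `C`, and the edges of the seeds, which are not in `EB n x`
(`sdE_disjoint`, `sdE_subset`).  On `IE` the parameters `q1` and `q2` agree, so
`(PB q1) (R0 U) = (PB q2) (R0 U)` (`PB_congr`).  The edges of `U` have exactly one endpoint in `C`
(`UU_edges`): they are not in `IE`, `q1 = p1` and `q2 = δ` there, so by `PB_indep`, `PB_false`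
`(PB q1)(R0 U ∧ all of U closed) = w U (1-p1)^|U|` and the same with `δ` for `q2`.  Sum over
`U ∈ (EB n x).powerset` (`PB_partition`).
-/

set_option autoImplicit false

open MeasureTheory ProbabilityTheory Filter Topology

namespace Ein99.GM

variable {d : ℕ}

open Classical in
/-- the edges used by the event `UU = U ∧ ¬ E0` -/
noncomputable def IE (m n : ℕ) (x : V d) (C : Finset (V d)) : Finset (Ed d) :=
  (EB (n + 2 * m + 1) x).filter (fun e => e ∈ EB n x → e.1 ∉ C ∧ e.1 + st (e.2, true) ∉ C)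

theorem P2_mem_IE {m n : ℕ} {x : V d} {C : Finset (V d)} {e : Ed d} :
    e ∈ IE m n x C ↔ e ∈ EB (n + 2 * m + 1) x ∧
      (e ∈ EB n x → e.1 ∉ C ∧ e.1 + st (e.2, true) ∉ C) := by
  unfold IE
  rw [Finset.mem_filter]

theorem P2_sdE_IE {m n : ℕ} {x u : V d} {dir : Dir d} {σ : Fin d → Bool} (C : Finset (V d))
    (h : Fc n x dir σ u) : ∀ e ∈ sdE m dir u, e ∈ IE m n x C := by
  intro e he
  rw [P2_mem_IE]
  refine ⟨sdE_subset h he, fun hen => ?_⟩
  exact absurd hen (Finset.disjoint_left.1 (sdE_disjoint h) he)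

theorem P2_Sd {m n : ℕ} {x u : V d} {dir : Dir d} {σ : Fin d → Bool} {C : Finset (V d)}
    (h : Fc n x dir σ u) (ω ω' : Om d) (hω : ∀ e ∈ IE m n x C, ω e = ω' e) :
    Sd m ω dir u ↔ Sd m ω' dir u :=
  Dep_Sd m dir u ω ω' (fun e he => hω e (P2_sdE_IE C h e (Finset.mem_coe.1 he)))

theorem P2_join (m : ℕ) {n : ℕ} {x : V d} {C : Finset (V d)} (ω ω' : Om d)
    (hω : ∀ e ∈ IE m n x C, ω e = ω' e) (y z : V d) :
    JoinIn ω ((Bx n x : Set (V d)) \ (C : Set (V d))) y z ↔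
      JoinIn ω' ((Bx n x : Set (V d)) \ (C : Set (V d))) y z := by
  refine Dep_JoinIn_sub ((Bx n x : Set (V d)) \ (C : Set (V d))) y z ω ω' ?_
  rintro e ⟨h1, h2⟩
  apply hω
  rw [P2_mem_IE, Ein99.mem_EB]
  have hle : n ≤ n + 2 * m + 1 := by omega
  refine ⟨⟨Bx_mono hle x (Finset.mem_coe.1 h1.1), Bx_mono hle x (Finset.mem_coe.1 h2.1)⟩,
    fun _ => ⟨fun h => h1.2 (Finset.mem_coe.2 h), fun h => h2.2 (Finset.mem_coe.2 h)⟩⟩

theorem P2_E0 {m n : ℕ} {x : V d} {dir : Dir d} {σ : Fin d → Bool} {C : Finset (V d)}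
    (ω ω' : Om d) (hω : ∀ e ∈ IE m n x C, ω e = ω' e) (h : E0 ω m n x dir σ C) :
    E0 ω' m n x dir σ C := by
  obtain ⟨u, hu, hF, hS⟩ := h
  exact ⟨u, hu, hF, (P2_Sd hF ω ω' hω).1 hS⟩

theorem P2_mem_UU {m n : ℕ} {x : V d} {dir : Dir d} {σ : Fin d → Bool} {C : Finset (V d)}
    {ω : Om d} {e : Ed d} : e ∈ UU ω m n x dir σ C ↔ e ∈ EB n x ∧ ∃ a ∈ C, ∃ δ' : Dir d,
      ed a δ' = e ∧ a + st δ' ∉ C ∧ ∃ u, Fc n x dir σ u ∧ u ∉ C ∧
      JoinIn ω ((Bx n x : Set (V d)) \ (C : Set (V d))) (a + st δ') u ∧ Sd m ω dir u := by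
  classical
  unfold UU
  rw [Finset.mem_filter]

theorem P2_UU_sub {m n : ℕ} {x : V d} {dir : Dir d} {σ : Fin d → Bool} {C : Finset (V d)}
    (ω ω' : Om d) (hω : ∀ e ∈ IE m n x C, ω e = ω' e) :
    UU ω m n x dir σ C ⊆ UU ω' m n x dir σ C := by
  intro e he
  rw [P2_mem_UU] at he ⊢
  obtain ⟨h1, a, ha, δ', h2, h3, u, h4, h5, h6, h7⟩ := he
  exact ⟨h1, a, ha, δ', h2, h3, u, h4, h5, (P2_join m ω ω' hω _ _).1 h6, (P2_Sd h4 ω ω' hω).1 h7⟩

theorem P2_UU {m n : ℕ} {x : V d} {dir : Dir d} {σ : Fin d → Bool} {C : Finset (V d)}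
    (ω ω' : Om d) (hω : ∀ e ∈ IE m n x C, ω e = ω' e) :
    UU ω m n x dir σ C = UU ω' m n x dir σ C :=
  Finset.Subset.antisymm (P2_UU_sub ω ω' hω) (P2_UU_sub ω' ω (fun e he => (hω e he).symm))

theorem Dep_R0 (m n : ℕ) (x : V d) (dir : Dir d) (σ : Fin d → Bool) (C : Finset (V d))
    (U : Finset (Ed d)) :
    Dep (IE m n x C : Set (Ed d)) {ω : Om d | UU ω m n x dir σ C = U ∧ ¬ E0 ω m n x dir σ C} := by
  intro ω ω' h
  have h' : ∀ e ∈ IE m n x C, ω e = ω' e := fun e he => h e (Finset.mem_coe.2 he)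
  have h'' : ∀ e ∈ IE m n x C, ω' e = ω e := fun e he => (h' e he).symm
  constructor
  · rintro ⟨h1, h2⟩
    exact ⟨by rw [← P2_UU ω ω' h']; exact h1, fun h3 => h2 (P2_E0 ω' ω h'' h3)⟩
  · rintro ⟨h1, h2⟩
    exact ⟨by rw [P2_UU ω ω' h']; exact h1, fun h3 => h2 (P2_E0 ω ω' h' h3)⟩

theorem UU_edges (ω : Om d) (m n : ℕ) (x : V d) (dir : Dir d) (σ : Fin d → Bool)
    (C : Finset (V d)) (e : Ed d) (he : e ∈ UU ω m n x dir σ C) :
    e ∈ EB n x ∧ e ∉ IE m n x C ∧ ¬ (e.1 ∉ C ∧ e.1 + st (e.2, true) ∉ C) := by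
  rw [P2_mem_UU] at he
  obtain ⟨h1, a, ha, δ', h2, -⟩ := he
  have h3 : ¬ (e.1 ∉ C ∧ e.1 + st (e.2, true) ∉ C) := by
    rintro ⟨h4, h5⟩
    subst h2
    obtain ⟨i, b⟩ := δ'
    cases b with
    | true =>
      apply h4
      simpa [ed] using ha
    | false =>
      apply h5
      have h : (st (i, true) : V d) = - st (i, false) := by
        have := st_rv (d := d) (i, false)
        simpa [rv] using this
      have h6 : (ed a ((i, false) : Dir d)).1 + st ((ed a ((i, false) : Dir d)).2, true) = a := by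
        simp only [ed, Bool.false_eq_true, if_false]
        rw [h, add_neg_cancel_right]
      rw [h6]
      exact ha
  refine ⟨h1, fun h4 => h3 ?_, h3⟩
  rw [P2_mem_IE] at h4
  exact h4.2 h1

/-- the common computation -/
theorem P2_sum (q q' : Ed d → unitInterval) (c : unitInterval) (m n : ℕ) (x : V d) (dir : Dir d)
    (σ : Fin d → Bool) (C : Finset (V d))
    (h1 : ∀ e ∈ IE m n x C, q e = q' e)
    (h2 : ∀ e ∈ EB n x, ¬ (e.1 ∉ C ∧ e.1 + st (e.2, true) ∉ C) → q' e = c) :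
    ∑ U ∈ (EB n x).powerset,
        (PB q).real {ω : Om d | UU ω m n x dir σ C = U ∧ ¬ E0 ω m n x dir σ C} *
          (1 - (c : ℝ)) ^ U.card =
      (PB q').real {ω : Om d | ¬ E0 ω m n x dir σ C ∧
        ∀ e ∈ UU ω m n x dir σ C, ω e = false} := by
  classical
  have hsub : ∀ ω : Om d, UU ω m n x dir σ C ∈ (EB n x).powerset := fun ω => by
    rw [Finset.mem_powerset]
    unfold UU
    exact Finset.filter_subset _ _
  -- all events depend on finitely many edges
  set T : Finset (Ed d) := EB (n + 2 * m + 1) x with hT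
  have hIE : IE m n x C ⊆ T := fun e he => (P2_mem_IE.1 he).1
  have hEB : EB n x ⊆ T := EB_mono (by omega) x
  have hUm : ∀ U ∈ (EB n x).powerset, MeasurableSet {ω : Om d | UU ω m n x dir σ C = U} := by
    intro U _
    refine Dep.measurableSet (IE m n x C) ?_
    intro ω ω' h
    have h' : ∀ e ∈ IE m n x C, ω e = ω' e := fun e he => h e (Finset.mem_coe.2 he)
    show UU ω m n x dir σ C = U ↔ UU ω' m n x dir σ C = U
    rw [P2_UU ω ω' h']
  have hAm : MeasurableSet {ω : Om d | ¬ E0 ω m n x dir σ C ∧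
        ∀ e ∈ UU ω m n x dir σ C, ω e = false} := by
    refine Dep.measurableSet T ?_
    intro ω ω' h
    have h' : ∀ e ∈ IE m n x C, ω e = ω' e := fun e he => h e (Finset.mem_coe.2 (hIE he))
    have h'' : ∀ e ∈ IE m n x C, ω' e = ω e := fun e he => (h' e he).symm
    have hU := P2_UU (dir := dir) (σ := σ) ω ω' h'
    constructor
    · rintro ⟨h3, h4⟩
      refine ⟨fun h5 => h3 (P2_E0 ω' ω h'' h5), fun e he => ?_⟩
      rw [← hU] at he
      rw [← h e (Finset.mem_coe.2 (hEB (Finset.mem_powerset.1 (hsub ω) he)))]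
      exact h4 e he
    · rintro ⟨h3, h4⟩
      refine ⟨fun h5 => h3 (P2_E0 ω ω' h' h5), fun e he => ?_⟩
      have he' := he
      rw [hU] at he'
      rw [h e (Finset.mem_coe.2 (hEB (Finset.mem_powerset.1 (hsub ω) he)))]
      exact h4 e he'
  rw [PB_partition q' (fun ω => UU ω m n x dir σ C) (EB n x).powerset hsub hUm hAm]
  refine Finset.sum_congr rfl (fun U hU => ?_)
  have hset : {ω : Om d | ¬ E0 ω m n x dir σ C ∧ ∀ e ∈ UU ω m n x dir σ C, ω e = false} ∩
      {ω : Om d | UU ω m n x dir σ C = U} =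
      {ω : Om d | UU ω m n x dir σ C = U ∧ ¬ E0 ω m n x dir σ C} ∩
        {ω : Om d | ∀ e ∈ U, ω e = false} := by
    ext ω
    constructor
    · rintro ⟨⟨h3, h4⟩, h5⟩
      refine ⟨⟨h5, h3⟩, ?_⟩
      have h5' : UU ω m n x dir σ C = U := h5
      rw [h5'] at h4
      exact h4
    · rintro ⟨⟨h3, h4⟩, h5⟩
      refine ⟨⟨h4, ?_⟩, h3⟩
      rw [h3]
      exact h5
  rw [hset]
  by_cases hne : ∃ ω : Om d, UU ω m n x dir σ C = U
  · obtain ⟨ω0, hω0⟩ := hne
    have hUe : ∀ e ∈ U, e ∈ EB n x ∧ e ∉ IE m n x C ∧ ¬ (e.1 ∉ C ∧ e.1 + st (e.2, true) ∉ C) := by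
      intro e he
      rw [← hω0] at he
      exact UU_edges ω0 m n x dir σ C e he
    have hdis : Disjoint (IE m n x C) U := by
      rw [Finset.disjoint_left]
      intro e he heU
      exact (hUe e heU).2.1 he
    have hdU : Dep (U : Set (Ed d)) {ω : Om d | ∀ e ∈ U, ω e = false} := by
      intro ω ω' h
      constructor
      · intro h3 e he
        rw [← h e (Finset.mem_coe.2 he)]
        exact h3 e he
      · intro h3 e he
        rw [h e (Finset.mem_coe.2 he)]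
        exact h3 e he
    rw [PB_indep q' (IE m n x C) U hdis (Dep_R0 m n x dir σ C U) hdU, PB_false,
      PB_congr q q' (IE m n x C) h1 (Dep_R0 m n x dir σ C U)]
    congr 1
    rw [Finset.prod_congr rfl (fun e he => by rw [h2 e (hUe e he).1 (hUe e he).2.2]),
      Finset.prod_const]
  · have hem : {ω : Om d | UU ω m n x dir σ C = U ∧ ¬ E0 ω m n x dir σ C} = ∅ := by
      ext ω
      constructor
      · rintro ⟨h3, _⟩
        exact absurd ⟨ω, h3⟩ hne
      · intro h3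
        exact absurd h3 (Set.notMem_empty ω)
    rw [hem]
    simp

open Classical in
theorem sum_q1 (p1 de : unitInterval) (m n : ℕ) (x : V d) (dir : Dir d) (σ : Fin d → Bool)
    (C : Finset (V d)) :
    ∑ U ∈ (EB n x).powerset,
        (PB (q1 p1 de n x)).real {ω : Om d | UU ω m n x dir σ C = U ∧ ¬ E0 ω m n x dir σ C} *
          (1 - (p1 : ℝ)) ^ U.card =
      (PB (q1 p1 de n x)).real {ω : Om d | ¬ E0 ω m n x dir σ C ∧
        ∀ e ∈ UU ω m n x dir σ C, ω e = false} := by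
  refine P2_sum (q1 p1 de n x) (q1 p1 de n x) p1 m n x dir σ C (fun e _ => rfl) ?_
  intro e he _
  unfold q1
  rw [if_pos he]

open Classical in
theorem sum_q2 (p1 de : unitInterval) (m n : ℕ) (x : V d) (dir : Dir d) (σ : Fin d → Bool)
    (C : Finset (V d)) :
    ∑ U ∈ (EB n x).powerset,
        (PB (q1 p1 de n x)).real {ω : Om d | UU ω m n x dir σ C = U ∧ ¬ E0 ω m n x dir σ C} *
          (1 - (de : ℝ)) ^ U.card =
      (PB (q2 p1 de n x C)).real {ω : Om d | ¬ E0 ω m n x dir σ C ∧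
        ∀ e ∈ UU ω m n x dir σ C, ω e = false} := by
  refine P2_sum (q1 p1 de n x) (q2 p1 de n x C) de m n x dir σ C ?_ ?_
  · intro e he
    rw [P2_mem_IE] at he
    unfold q1 q2
    by_cases hen : e ∈ EB n x
    · rw [if_pos hen, if_pos ⟨hen, he.2 hen⟩]
    · rw [if_neg hen, if_neg (fun h => hen h.1)]
  · intro e _ he
    unfold q2
    rw [if_neg (fun h => he h.2)]

open Classical in
theorem sum_le_one (p1 de : unitInterval) (m n : ℕ) (x : V d) (dir : Dir d) (σ : Fin d → Bool)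
    (C : Finset (V d)) :
    ∑ U ∈ (EB n x).powerset,
        (PB (q1 p1 de n x)).real {ω : Om d | UU ω m n x dir σ C = U ∧ ¬ E0 ω m n x dir σ C} ≤ 1 := by
  have hsub : ∀ ω : Om d, UU ω m n x dir σ C ∈ (EB n x).powerset := fun ω => by
    rw [Finset.mem_powerset]
    unfold UU
    exact Finset.filter_subset _ _
  have hUm : ∀ U ∈ (EB n x).powerset, MeasurableSet {ω : Om d | UU ω m n x dir σ C = U} := by
    intro U _
    refine Dep.measurableSet (IE m n x C) ?_
    intro ω ω' h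
    have h' : ∀ e ∈ IE m n x C, ω e = ω' e := fun e he => h e (Finset.mem_coe.2 he)
    show UU ω m n x dir σ C = U ↔ UU ω' m n x dir σ C = U
    rw [P2_UU ω ω' h']
  have h := PB_partition (q1 p1 de n x) (fun ω => UU ω m n x dir σ C) (EB n x).powerset hsub hUm
    (A := Set.univ) MeasurableSet.univ
  calc ∑ U ∈ (EB n x).powerset,
        (PB (q1 p1 de n x)).real {ω : Om d | UU ω m n x dir σ C = U ∧ ¬ E0 ω m n x dir σ C}
      ≤ ∑ U ∈ (EB n x).powerset,
        (PB (q1 p1 de n x)).real (Set.univ ∩ {ω : Om d | UU ω m n x dir σ C = U}) := by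
        refine Finset.sum_le_sum (fun U _ => ?_)
        refine measureReal_mono ?_
        rintro ω ⟨h1, _⟩
        exact ⟨Set.mem_univ _, h1⟩
    _ = (PB (q1 p1 de n x)).real Set.univ := h.symm
    _ ≤ 1 := by simp

end Ein99.GM
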