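import Pool.Agent.LibGM95.G2

/-!
TASK S1. Among many vertices of a face orthant some vertex carries a seed.
`s = δ^(1 + d (2m+1)^d) > 0`; by `PB_true`, `card_sdE` the probability of `Sd m ω dir u` is at least
`s` (all edges of `sdE m dir u` have parameter `δ` by `sdE_disjoint`).  Choose `j` with `(1-s)^j ≤ η`
and `k = j (2m+1)^d`: by pigeonhole (`Finset.exists_le_card_fiber_of_mul_le_card_of_maps_to`) some
residue class modulo `2m+1` contains `j` vertices of `S`; their seeds are independent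
(`sdE_disjoint'`, `PB_indep_family`).
-/

set_option autoImplicit false

open MeasureTheory ProbabilityTheory Filter Topology

namespace Ein99.GM

variable {d : ℕ}

theorem S1_Sd_iff (m : ℕ) (dir : Dir d) (u : V d) (ω : Om d) :
    Sd m ω dir u ↔ ∀ e ∈ sdE m dir u, ω e = true := by
  constructor
  · rintro ⟨h1, h2⟩ e he
    rcases G1_mem_sdE.1 he with rfl | h3
    · exact h1
    · exact h2 e h3
  · intro h
    exact ⟨h _ (G1_mem_sdE.2 (Or.inl rfl)), fun e he => h e (G1_mem_sdE.2 (Or.inr he))⟩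

theorem seed_prob (m n : ℕ) (x u : V d) (dir : Dir d) (σ : Fin d → Bool) (h : Fc n x dir σ u)
    (de : unitInterval) (q : Ed d → unitInterval) (hq : ∀ e, e ∉ EB n x → q e = de) :
    (de : ℝ) ^ (1 + d * (2 * m + 1) ^ d) ≤ (PB q).real {ω : Om d | Sd m ω dir u} := by
  have h1 : {ω : Om d | Sd m ω dir u} = {ω : Om d | ∀ e ∈ sdE m dir u, ω e = true} := by
    ext ω
    exact S1_Sd_iff m dir u ω
  rw [h1, PB_true]
  have h2 : ∏ e ∈ sdE m dir u, (q e : ℝ) = ∏ _e ∈ sdE m dir u, (de : ℝ) := by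
    refine Finset.prod_congr rfl (fun e he => ?_)
    rw [hq e (Finset.disjoint_left.1 (sdE_disjoint h) he)]
  rw [h2, Finset.prod_const]
  exact pow_le_pow_of_le_one de.2.1 de.2.2 (card_sdE m dir u)

theorem residue_class (m j : ℕ) (S : Finset (V d)) (h : j * (2 * m + 1) ^ d ≤ S.card) :
    ∃ T ⊆ S, j ≤ T.card ∧ ∀ u ∈ T, ∀ v ∈ T, ∀ i, ∃ c : ℤ, u i - v i = c * (2 * m + 1) := by
  classical
  have : NeZero (2 * m + 1) := ⟨by omega⟩
  let f : V d → (Fin d → ZMod (2 * m + 1)) := fun u i => ((u i : ℤ) : ZMod (2 * m + 1))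
  have hcard : (Finset.univ : Finset (Fin d → ZMod (2 * m + 1))).card = (2 * m + 1) ^ d := by
    rw [Finset.card_univ, Fintype.card_fun, ZMod.card, Fintype.card_fin]
  obtain ⟨y, -, hy⟩ := Finset.exists_le_card_fiber_of_mul_le_card_of_maps_to
    (s := S) (t := (Finset.univ : Finset (Fin d → ZMod (2 * m + 1)))) (f := f) (n := j)
    (fun a _ => Finset.mem_univ _) Finset.univ_nonempty (by rw [hcard, mul_comm]; exact h)
  refine ⟨S.filter (fun a => f a = y), Finset.filter_subset _ _, hy, ?_⟩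
  intro u hu v hv i
  rw [Finset.mem_filter] at hu hv
  have h1 : f u i = f v i := by rw [hu.2, hv.2]
  have h2 : ((u i : ℤ) : ZMod (2 * m + 1)) = ((v i : ℤ) : ZMod (2 * m + 1)) := h1
  rw [ZMod.intCast_eq_intCast_iff] at h2
  have h3 := h2.symm.dvd
  obtain ⟨c, hc⟩ := h3
  refine ⟨c, ?_⟩
  rw [hc]
  push_cast
  ring

theorem seeds_many (d m : ℕ) (de : unitInterval) (hde : 0 < (de : ℝ)) (η : ℝ) (hη : 0 < η) :
    ∃ k : ℕ, ∀ (n : ℕ) (x : V d) (dir : Dir d) (σ : Fin d → Bool) (S : Finset (V d)),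
      (∀ u ∈ S, Fc n x dir σ u) → k ≤ S.card →
      ∀ q : Ed d → unitInterval, (∀ e, e ∉ EB n x → q e = de) →
        (PB q).real {ω : Om d | ∀ u ∈ S, ¬ Sd m ω dir u} ≤ η := by
  set s : ℝ := (de : ℝ) ^ (1 + d * (2 * m + 1) ^ d) with hs
  have hs0 : 0 < s := by positivity
  have hs1 : s ≤ 1 := pow_le_one₀ hde.le de.2.2
  obtain ⟨j, hj⟩ := exists_pow_lt_of_lt_one hη (show 1 - s < 1 by linarith)
  refine ⟨j * (2 * m + 1) ^ d, ?_⟩
  intro n x dir σ S hS hk q hq
  obtain ⟨T, hTS, hTj, hT⟩ := residue_class m j S hk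
  have hdep : ∀ u ∈ T, Dep (sdE m dir u : Set (Ed d)) {ω : Om d | ¬ Sd m ω dir u} := by
    intro u _
    exact (Dep_Sd m dir u).compl
  have hdis : ∀ u ∈ T, ∀ v ∈ T, u ≠ v → Disjoint (sdE m dir u) (sdE m dir v) := by
    intro u hu v hv huv
    exact sdE_disjoint' (hS u (hTS hu)) (hS v (hTS hv)) huv (hT u hu v hv)
  have h1 := PB_indep_family q T (fun u => sdE m dir u) hdis
    (fun u => {ω : Om d | ¬ Sd m ω dir u}) hdep
  calc (PB q).real {ω : Om d | ∀ u ∈ S, ¬ Sd m ω dir u}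
      ≤ (PB q).real {ω : Om d | ∀ u ∈ T, ω ∈ {ω : Om d | ¬ Sd m ω dir u}} := by
        refine measureReal_mono ?_
        intro ω hω u hu
        exact hω u (hTS hu)
    _ = ∏ u ∈ T, (PB q).real {ω : Om d | ¬ Sd m ω dir u} := h1
    _ ≤ ∏ _u ∈ T, (1 - s) := by
        refine Finset.prod_le_prod (fun u _ => measureReal_nonneg) (fun u hu => ?_)
        have hm : MeasurableSet {ω : Om d | Sd m ω dir u} :=
          (Dep_Sd m dir u).measurableSet (sdE m dir u)
        have hc : {ω : Om d | ¬ Sd m ω dir u} = {ω : Om d | Sd m ω dir u}ᶜ := rfl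
        rw [hc, probReal_compl_eq_one_sub hm]
        have := seed_prob m n x u dir σ (hS u (hTS hu)) de q hq
        linarith
    _ = (1 - s) ^ T.card := Finset.prod_const _
    _ ≤ (1 - s) ^ j := pow_le_pow_of_le_one (by linarith) (by linarith) hTj
    _ ≤ η := hj.le

end Ein99.GM
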