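import Pool.Agent.LibGM95.Defs

/-!
TASK T1. Local events of the product measure `PB q`: measurability and independence.
`Dep.measurableSet`: for finite `S` the set `A` is the preimage under the restriction to `S` of a
subset of the finite discrete space `S → Bool` (extend by `false`).  `PB_indep`: independence of the
restrictions to disjoint finite sets of coordinates (`iIndepFun_infinitePi`,
`iIndepFun.indepFun_finset`); compare `Loc.integral_mul` in team-store `EIN99_C_Loc.lean` (the same
proof for `Pr d p`).
-/

set_option autoImplicit false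

open MeasureTheory ProbabilityTheory Filter Topology

namespace Ein99.GM

variable {ι : Type*}

theorem Dep.mono {S T : Set ι} (h : S ⊆ T) {A : Set (ι → Bool)} (hA : Dep S A) : Dep T A :=
  fun ω ω' H => hA ω ω' (fun i hi => H i (h hi))

theorem Dep.compl {S : Set ι} {A : Set (ι → Bool)} (hA : Dep S A) : Dep S Aᶜ :=
  fun ω ω' H => not_congr (hA ω ω' H)

theorem Dep.inter {S : Set ι} {A B : Set (ι → Bool)} (hA : Dep S A) (hB : Dep S B) :
    Dep S (A ∩ B) :=
  fun ω ω' H => and_congr (hA ω ω' H) (hB ω ω' H)

theorem Dep.union {S : Set ι} {A B : Set (ι → Bool)} (hA : Dep S A) (hB : Dep S B) :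
    Dep S (A ∪ B) :=
  fun ω ω' H => or_congr (hA ω ω' H) (hB ω ω' H)

/-- extension by `false` -/
noncomputable def T1_ext (S : Finset ι) (a : S → Bool) : ι → Bool := by
  classical
  exact fun i => if h : i ∈ S then a ⟨i, h⟩ else false

theorem T1_factor (S : Finset ι) {A : Set (ι → Bool)} (hA : Dep (S : Set ι) A) :
    A = (fun ω : ι → Bool => fun i : S => ω i) ⁻¹' {a | T1_ext S a ∈ A} := by
  ext ω
  change ω ∈ A ↔ T1_ext S (fun i : S => ω i) ∈ A
  apply hA
  intro i hi
  have hi' : i ∈ S := hi
  simp [T1_ext, hi']

theorem T1_restr (S : Finset ι) : Measurable (fun ω : ι → Bool => fun i : S => ω i) :=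
  measurable_pi_lambda _ (fun _ => measurable_pi_apply _)

theorem Dep.measurableSet (S : Finset ι) {A : Set (ι → Bool)} (hA : Dep (S : Set ι) A) :
    MeasurableSet A := by
  rw [T1_factor S hA]
  exact T1_restr S (MeasurableSet.of_discrete)

theorem PB_indep (q : ι → unitInterval) (S T : Finset ι) (hST : Disjoint S T)
    {A B : Set (ι → Bool)} (hA : Dep (S : Set ι) A) (hB : Dep (T : Set ι) B) :
    (PB q).real (A ∩ B) = (PB q).real A * (PB q).real B := by
  have h1 : iIndepFun (fun (i : ι) (ω : ι → Bool) => ω i) (PB q) :=
    iIndepFun_infinitePi (P := fun i : ι => bernoulliMeasure true false (q i))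
      (X := fun _ b => b) (fun _ => measurable_id)
  have h2 := h1.indepFun_finset S T hST (fun i => measurable_pi_apply _)
  have h3 := h2.measure_inter_preimage_eq_mul {a | T1_ext S a ∈ A} {a | T1_ext T a ∈ B}
    (MeasurableSet.of_discrete) (MeasurableSet.of_discrete)
  have e1 := T1_factor S hA
  have e2 := T1_factor T hB
  have h4 : (PB q) (A ∩ B) = (PB q) A * (PB q) B := by
    conv_lhs => rw [e1, e2]
    conv_rhs => rw [e1, e2]
    exact h3
  unfold Measure.real
  rw [h4, ENNReal.toReal_mul]

/-- all coordinates in `S` are `true` -/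
theorem PB_true (q : ι → unitInterval) (S : Finset ι) :
    (PB q).real {ω | ∀ i ∈ S, ω i = true} = ∏ i ∈ S, (q i : ℝ) := by
  have h1 : {ω : ι → Bool | ∀ i ∈ S, ω i = true} =
      Set.pi (S : Set ι) (fun _ => ({true} : Set Bool)) := by
    ext ω
    constructor
    · intro h i hi
      exact h i hi
    · intro h i hi
      exact h i hi
  have h2 : (PB q) (Set.pi (S : Set ι) (fun _ => ({true} : Set Bool))) =
      ∏ i ∈ S, (bernoulliMeasure true false (q i)) ({true} : Set Bool) := by
    unfold PB
    rw [Measure.infinitePi_pi]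
    intro i _
    exact MeasurableSet.of_discrete
  rw [h1]
  unfold Measure.real
  rw [h2, ENNReal.toReal_prod]
  apply Finset.prod_congr rfl
  intro i _
  have h3 := bernoulliMeasure_real_apply (x := true) (y := false) (q i) (s := ({true} : Set Bool))
    MeasurableSet.of_discrete
  unfold Measure.real at h3
  rw [h3]
  simp

/-- all coordinates in `S` are `false` -/
theorem PB_false (q : ι → unitInterval) (S : Finset ι) :
    (PB q).real {ω | ∀ i ∈ S, ω i = false} = ∏ i ∈ S, (1 - (q i : ℝ)) := by
  have h1 : {ω : ι → Bool | ∀ i ∈ S, ω i = false} =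
      Set.pi (S : Set ι) (fun _ => ({false} : Set Bool)) := by
    ext ω
    constructor
    · intro h i hi
      exact h i hi
    · intro h i hi
      exact h i hi
  have h2 : (PB q) (Set.pi (S : Set ι) (fun _ => ({false} : Set Bool))) =
      ∏ i ∈ S, (bernoulliMeasure true false (q i)) ({false} : Set Bool) := by
    unfold PB
    rw [Measure.infinitePi_pi]
    intro i _
    exact MeasurableSet.of_discrete
  rw [h1]
  unfold Measure.real
  rw [h2, ENNReal.toReal_prod]
  apply Finset.prod_congr rfl
  intro i _
  have h3 := bernoulliMeasure_real_apply (x := true) (y := false) (q i) (s := ({false} : Set Bool))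
    MeasurableSet.of_discrete
  unfold Measure.real at h3
  rw [h3]
  simp

end Ein99.GM
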