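import Pool.Agent.LibGM95.T1

/-!
TASK T2. Local events as finite sums over the set of open coordinates; the probability of a local
event only depends on the parameters on its support; partitions; independent families.
`PB_bridge`: partition into the events `{ω | ∀ i ∈ S, ω i = decide (i ∈ B)}`, `B ⊆ S`; each has
probability `∏_B q ∏_{S∖B} (1-q)` (`PB_true`, `PB_false`, `PB_indep`, or `infinitePi_pi`).
`PB_partition`: `f` takes values in the finite set `T`.
-/

set_option autoImplicit false

open MeasureTheory ProbabilityTheory Filter Topology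

namespace Ein99.GM

variable {ι : Type*}

theorem PB_partition {β : Type*} [DecidableEq β] (q : ι → unitInterval) (f : (ι → Bool) → β)
    (T : Finset β) (hT : ∀ ω, f ω ∈ T) (hf : ∀ b ∈ T, MeasurableSet {ω | f ω = b})
    {A : Set (ι → Bool)} (hA : MeasurableSet A) :
    (PB q).real A = ∑ b ∈ T, (PB q).real (A ∩ {ω | f ω = b}) := by
  have hu : A = ⋃ b ∈ T, (A ∩ {ω | f ω = b}) := by
    ext ω
    simp only [Set.mem_iUnion, Set.mem_inter_iff, Set.mem_setOf_eq, exists_prop]
    constructor
    · intro h
      exact ⟨f ω, hT ω, h, rfl⟩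
    · rintro ⟨b, _, h, _⟩
      exact h
  conv_lhs => rw [hu]
  refine measureReal_biUnion_finset ?_ (fun b hb => hA.inter (hf b hb))
  intro b _ b' _ hne
  refine Set.disjoint_left.2 (fun ω h1 h2 => hne ?_)
  rw [← h1.2, ← h2.2]

open Classical in
/-- the atom of the coordinates in `S` -/
private theorem PB_atom (q : ι → unitInterval) (S B : Finset ι) (hB : B ⊆ S) :
    (PB q).real {ω | ∀ i ∈ S, ω i = decide (i ∈ B)}
      = (∏ i ∈ B, (q i : ℝ)) * ∏ i ∈ S \ B, (1 - (q i : ℝ)) := by
  have h1 : {ω : ι → Bool | ∀ i ∈ S, ω i = decide (i ∈ B)}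
      = {ω | ∀ i ∈ B, ω i = true} ∩ {ω | ∀ i ∈ S \ B, ω i = false} := by
    ext ω
    simp only [Set.mem_setOf_eq, Set.mem_inter_iff]
    constructor
    · intro h
      refine ⟨fun i hi => ?_, fun i hi => ?_⟩
      · rw [h i (hB hi)]
        exact decide_eq_true hi
      · rw [h i (Finset.mem_sdiff.1 hi).1]
        exact decide_eq_false (Finset.mem_sdiff.1 hi).2
    · rintro ⟨h2, h3⟩ i hi
      by_cases hiB : i ∈ B
      · rw [h2 i hiB]
        exact (decide_eq_true hiB).symm
      · rw [h3 i (Finset.mem_sdiff.2 ⟨hi, hiB⟩)]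
        exact (decide_eq_false hiB).symm
  rw [h1, PB_indep q B (S \ B) Finset.disjoint_sdiff, PB_true, PB_false]
  · intro ω ω' h
    simp only [Set.mem_setOf_eq]
    refine forall₂_congr (fun i hi => ?_)
    rw [h i hi]
  · intro ω ω' h
    simp only [Set.mem_setOf_eq]
    refine forall₂_congr (fun i hi => ?_)
    rw [h i hi]

open Classical in
theorem PB_bridge (q : ι → unitInterval) (S : Finset ι) {A : Set (ι → Bool)}
    (hA : Dep (S : Set ι) A) :
    (PB q).real A = ∑ B ∈ S.powerset, ((∏ i ∈ B, (q i : ℝ)) * ∏ i ∈ S \ B, (1 - (q i : ℝ))) *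
      (if (fun i => decide (i ∈ B)) ∈ A then 1 else 0) := by
  have hmA : MeasurableSet A := Dep.measurableSet S hA
  have key : ∀ (ω : ι → Bool) (B : Finset ι), B ⊆ S →
      (S.filter (fun i => ω i = true) = B ↔ ∀ i ∈ S, ω i = decide (i ∈ B)) := by
    intro ω B hB
    constructor
    · rintro h i hi
      by_cases hiB : i ∈ B
      · rw [decide_eq_true hiB]
        rw [← h] at hiB
        exact (Finset.mem_filter.1 hiB).2
      · rw [decide_eq_false hiB]
        rw [← h] at hiB
        cases hω : ω i with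
        | false => rfl
        | true => exact absurd (Finset.mem_filter.2 ⟨hi, hω⟩) hiB
    · intro h
      ext i
      rw [Finset.mem_filter]
      constructor
      · rintro ⟨hi, h1⟩
        rw [h i hi] at h1
        exact of_decide_eq_true h1
      · intro hi
        refine ⟨hB hi, ?_⟩
        rw [h i (hB hi)]
        exact decide_eq_true hi
  have hset : ∀ B, B ⊆ S → {ω : ι → Bool | S.filter (fun i => ω i = true) = B}
      = {ω | ∀ i ∈ S, ω i = decide (i ∈ B)} := by
    intro B hB
    ext ω
    exact key ω B hB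
  rw [PB_partition q (fun ω => S.filter (fun i => ω i = true)) S.powerset
    (fun ω => Finset.mem_powerset.2 (Finset.filter_subset _ _)) ?_ hmA]
  · refine Finset.sum_congr rfl (fun B hB => ?_)
    have hBS := Finset.mem_powerset.1 hB
    rw [hset B hBS, ← PB_atom q S B hBS]
    by_cases hm : (fun i => decide (i ∈ B)) ∈ A
    · rw [if_pos hm, mul_one]
      congr 1
      ext ω
      constructor
      · rintro ⟨_, h⟩
        exact h
      · intro h
        refine ⟨?_, h⟩
        exact (hA ω (fun i => decide (i ∈ B)) (fun i hi => h i hi)).2 hm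
    · rw [if_neg hm, mul_zero]
      have : A ∩ {ω : ι → Bool | ∀ i ∈ S, ω i = decide (i ∈ B)} = ∅ := by
        ext ω
        simp only [Set.mem_inter_iff, Set.mem_setOf_eq, Set.mem_empty_iff_false, iff_false]
        rintro ⟨h1, h2⟩
        exact hm ((hA ω (fun i => decide (i ∈ B)) (fun i hi => h2 i hi)).1 h1)
      rw [this, measureReal_empty]
  · intro B hB
    have hBS := Finset.mem_powerset.1 hB
    rw [hset B hBS]
    refine Dep.measurableSet S ?_
    intro ω ω' h
    simp only [Set.mem_setOf_eq]
    refine forall₂_congr (fun i hi => ?_)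
    rw [h i hi]

theorem PB_congr (q q' : ι → unitInterval) (S : Finset ι) (h : ∀ i ∈ S, q i = q' i)
    {A : Set (ι → Bool)} (hA : Dep (S : Set ι) A) : (PB q).real A = (PB q').real A := by
  classical
  rw [PB_bridge q S hA, PB_bridge q' S hA]
  refine Finset.sum_congr rfl (fun B hB => ?_)
  have hBS := Finset.mem_powerset.1 hB
  have h1 : ∏ i ∈ B, (q i : ℝ) = ∏ i ∈ B, (q' i : ℝ) :=
    Finset.prod_congr rfl (fun i hi => by rw [h i (hBS hi)])
  have h2 : ∏ i ∈ S \ B, (1 - (q i : ℝ)) = ∏ i ∈ S \ B, (1 - (q' i : ℝ)) :=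
    Finset.prod_congr rfl (fun i hi => by rw [h i (Finset.mem_sdiff.1 hi).1])
  rw [h1, h2]

/-- product formula for local events on pairwise disjoint supports -/
theorem PB_indep_family {κ : Type*} (q : ι → unitInterval) (I : Finset κ) (S : κ → Finset ι)
    (hS : ∀ i ∈ I, ∀ j ∈ I, i ≠ j → Disjoint (S i) (S j)) (A : κ → Set (ι → Bool))
    (hA : ∀ i ∈ I, Dep (S i : Set ι) (A i)) :
    (PB q).real {ω | ∀ i ∈ I, ω ∈ A i} = ∏ i ∈ I, (PB q).real (A i) := by
  classical
  induction I using Finset.induction_on with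
  | empty => simp
  | insert a I ha ih =>
    rw [Finset.prod_insert ha, ← ih (fun i hi j hj => hS i (Finset.mem_insert_of_mem hi) j
      (Finset.mem_insert_of_mem hj)) (fun i hi => hA i (Finset.mem_insert_of_mem hi))]
    have h1 : {ω : ι → Bool | ∀ i ∈ insert a I, ω ∈ A i} = A a ∩ {ω | ∀ i ∈ I, ω ∈ A i} := by
      ext ω
      simp only [Set.mem_setOf_eq, Set.mem_inter_iff, Finset.forall_mem_insert]
    rw [h1]
    refine PB_indep q (S a) (I.biUnion S) ?_ (hA a (Finset.mem_insert_self a I)) ?_
    · rw [Finset.disjoint_biUnion_right]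
      intro j hj
      refine hS a (Finset.mem_insert_self a I) j (Finset.mem_insert_of_mem hj) ?_
      rintro rfl
      exact ha hj
    · intro ω ω' h
      simp only [Set.mem_setOf_eq]
      refine forall₂_congr (fun i hi => ?_)
      refine hA i (Finset.mem_insert_of_mem hi) ω ω' (fun k hk => h k ?_)
      exact Finset.mem_coe.2 (Finset.mem_biUnion.2 ⟨i, hi, hk⟩)

end Ein99.GM
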