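import Pool.Agent.LibGM95.T2

/-!
TASK T3. Conditioning on one coordinate, monotonicity in the parameters, relabelling.
`PB_split`: independence of the coordinate `j` and `S.erase j` (`PB_indep`, `PB_true`, `PB_false`).
`PB_mono`: induction on the number of coordinates where `q ≠ q'` (`PB_split`, `PB_congr`), or a
coupling, or `PB_bridge`.  `PB_reindex`: `MeasureTheory.Measure.infinitePi` and
`MeasurableEquiv.piCongrLeft` (or `eq_infinitePi` for the map of `PB q`).
-/

set_option autoImplicit false

open MeasureTheory ProbabilityTheory Filter Topology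

namespace Ein99.GM

variable {ι : Type*}

open Classical in
theorem T3_dep_update (S : Finset ι) (j : ι) (b : Bool) {A : Set (ι → Bool)}
    (hA : Dep (S : Set ι) A) :
    Dep ((S.erase j : Finset ι) : Set ι) {ω | Function.update ω j b ∈ A} := by
  intro ω ω' h
  simp only [Set.mem_setOf_eq]
  apply hA
  intro i hi
  by_cases hij : i = j
  · rw [hij, Function.update_self, Function.update_self]
  · rw [Function.update_of_ne hij, Function.update_of_ne hij]
    apply h
    rw [Finset.mem_coe, Finset.mem_erase]
    exact ⟨hij, hi⟩

theorem T3_dep_coord (j : ι) (b : Bool) :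
    Dep (({j} : Finset ι) : Set ι) {ω : ι → Bool | ω j = b} := by
  intro ω ω' h
  simp only [Set.mem_setOf_eq]
  rw [h j (by simp)]

theorem T3_coord_true (q : ι → unitInterval) (j : ι) :
    (PB q).real {ω : ι → Bool | ω j = true} = (q j : ℝ) := by
  have h := PB_true q {j}
  simp only [Finset.mem_singleton, forall_eq, Finset.prod_singleton] at h
  exact h

theorem T3_coord_false (q : ι → unitInterval) (j : ι) :
    (PB q).real {ω : ι → Bool | ω j = false} = 1 - (q j : ℝ) := by
  have h := PB_false q {j}
  simp only [Finset.mem_singleton, forall_eq, Finset.prod_singleton] at h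
  exact h

open Classical in
/-- conditioning on one coordinate -/
theorem PB_split (q : ι → unitInterval) (S : Finset ι) (j : ι) {A : Set (ι → Bool)}
    (hA : Dep (S : Set ι) A) :
    (PB q).real A = (q j : ℝ) * (PB q).real {ω | Function.update ω j true ∈ A}
      + (1 - (q j : ℝ)) * (PB q).real {ω | Function.update ω j false ∈ A} := by
  have hd : Disjoint (S.erase j) {j} := by
    rw [Finset.disjoint_singleton_right]
    exact Finset.notMem_erase j S
  have h1 := T3_dep_update S j true hA
  have h0 := T3_dep_update S j false hA
  have e1 := PB_indep q (S.erase j) {j} hd h1 (T3_dep_coord j true)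
  have e0 := PB_indep q (S.erase j) {j} hd h0 (T3_dep_coord j false)
  rw [T3_coord_true] at e1
  rw [T3_coord_false] at e0
  have m1 : MeasurableSet ({ω | Function.update ω j true ∈ A} ∩ {ω : ι → Bool | ω j = true}) :=
    (Dep.measurableSet _ h1).inter (Dep.measurableSet _ (T3_dep_coord j true))
  have m0 : MeasurableSet ({ω | Function.update ω j false ∈ A} ∩ {ω : ι → Bool | ω j = false}) :=
    (Dep.measurableSet _ h0).inter (Dep.measurableSet _ (T3_dep_coord j false))
  have hU : A = ({ω | Function.update ω j true ∈ A} ∩ {ω : ι → Bool | ω j = true}) ∪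
      ({ω | Function.update ω j false ∈ A} ∩ {ω : ι → Bool | ω j = false}) := by
    ext ω
    simp only [Set.mem_union, Set.mem_inter_iff, Set.mem_setOf_eq]
    cases hj : ω j
    · have : Function.update ω j false = ω := by
        rw [← hj]
        exact Function.update_eq_self j ω
      rw [this]
      simp
    · have : Function.update ω j true = ω := by
        rw [← hj]
        exact Function.update_eq_self j ω
      rw [this]
      simp
  have hdis : Disjoint ({ω | Function.update ω j true ∈ A} ∩ {ω : ι → Bool | ω j = true})
      ({ω | Function.update ω j false ∈ A} ∩ {ω : ι → Bool | ω j = false}) := by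
    rw [Set.disjoint_left]
    rintro ω ⟨-, h⟩ ⟨-, h'⟩
    simp only [Set.mem_setOf_eq] at h h'
    rw [h] at h'
    exact absurd h' (by decide)
  calc (PB q).real A = (PB q).real
        (({ω | Function.update ω j true ∈ A} ∩ {ω : ι → Bool | ω j = true}) ∪
          ({ω | Function.update ω j false ∈ A} ∩ {ω : ι → Bool | ω j = false})) := by
        rw [← hU]
    _ = _ := by
        rw [measureReal_union hdis m0, e1, e0]
        ring

open Classical in
theorem T3_mono_step (q q' : ι → unitInterval) (S : Finset ι) (j : ι) (hj : q j ≤ q' j)
    (hq : ∀ i, i ≠ j → q i = q' i) {A : Set (ι → Bool)} (hA : Dep (S : Set ι) A) (hi : Inc A) :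
    (PB q).real A ≤ (PB q').real A := by
  rw [PB_split q S j hA, PB_split q' S j hA]
  have h1 := T3_dep_update S j true hA
  have h0 := T3_dep_update S j false hA
  have c1 : (PB q).real {ω | Function.update ω j true ∈ A} =
      (PB q').real {ω | Function.update ω j true ∈ A} :=
    PB_congr q q' (S.erase j) (fun i hi' => hq i (Finset.ne_of_mem_erase hi')) h1
  have c0 : (PB q).real {ω | Function.update ω j false ∈ A} =
      (PB q').real {ω | Function.update ω j false ∈ A} :=
    PB_congr q q' (S.erase j) (fun i hi' => hq i (Finset.ne_of_mem_erase hi')) h0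
  have hle : (PB q').real {ω | Function.update ω j false ∈ A} ≤
      (PB q').real {ω | Function.update ω j true ∈ A} := by
    apply measureReal_mono
    · intro ω hω
      simp only [Set.mem_setOf_eq] at hω ⊢
      refine hi _ _ ?_ hω
      intro i hi'
      by_cases hij : i = j
      · rw [hij, Function.update_self]
      · rw [Function.update_of_ne hij] at hi' ⊢
        exact hi'
    · exact measure_ne_top _ _
  rw [c1, c0]
  have hj' : (q j : ℝ) ≤ (q' j : ℝ) := hj
  nlinarith

theorem PB_mono (q q' : ι → unitInterval) (S : Finset ι) (h : ∀ i ∈ S, q i ≤ q' i)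
    {A : Set (ι → Bool)} (hA : Dep (S : Set ι) A) (hi : Inc A) :
    (PB q).real A ≤ (PB q').real A := by
  classical
  have key : ∀ T : Finset ι, T ⊆ S →
      (PB q).real A ≤ (PB (fun i => if i ∈ T then q' i else q i)).real A := by
    intro T
    refine Finset.induction_on T ?_ ?_
    · intro _
      simp
    · intro j T hjT ih hsub
      refine (ih ((Finset.subset_insert j T).trans hsub)).trans ?_
      apply T3_mono_step _ _ S j _ _ hA hi
      · simp only [hjT, if_false, Finset.mem_insert_self, if_true]
        exact h j (hsub (Finset.mem_insert_self j T))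
      · intro i hij
        simp only [Finset.mem_insert, hij, false_or]
  refine (key S (Finset.Subset.refl S)).trans (le_of_eq ?_)
  apply PB_congr _ _ S _ hA
  intro i hiS
  simp only [hiS, if_true]

/-- relabelling the coordinates by a bijection -/
theorem PB_reindex {κ : Type*} (f : κ ≃ ι) (q : ι → unitInterval) {A : Set (κ → Bool)}
    (hA : MeasurableSet A) :
    (PB q).real {ω | (fun k => ω (f k)) ∈ A} = (PB (fun k => q (f k))).real A := by
  classical
  have hmeas : Measurable (fun ω : ι → Bool => fun k : κ => ω (f k)) :=
    measurable_pi_iff.mpr fun k => measurable_pi_apply (f k)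
  have hmap : (PB q).map (fun ω : ι → Bool => fun k : κ => ω (f k)) = PB (fun k => q (f k)) := by
    unfold PB
    refine Measure.eq_infinitePi (μ := fun k : κ => bernoulliMeasure true false (q (f k))) ?_
    intro s t ht
    have hset : MeasurableSet (Set.pi (s : Set κ) t) :=
      MeasurableSet.pi s.countable_toSet fun e _ => ht e
    rw [Measure.map_apply hmeas hset]
    have hpre : (fun ω : ι → Bool => fun k : κ => ω (f k)) ⁻¹' (Set.pi (s : Set κ) t) =
        Set.pi ((s.map f.toEmbedding : Finset ι) : Set ι) (fun i => t (f.symm i)) := by
      ext ω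
      simp only [Set.mem_preimage, Set.mem_pi, Finset.mem_coe, Finset.mem_map,
        Equiv.coe_toEmbedding]
      constructor
      · rintro h i ⟨a, ha, rfl⟩
        rw [Equiv.symm_apply_apply]
        exact h a ha
      · intro h a ha
        have h1 := h (f a) ⟨a, ha, rfl⟩
        rw [Equiv.symm_apply_apply] at h1
        exact h1
    rw [hpre, Measure.infinitePi_pi _ (fun e _ => ht _), Finset.prod_map]
    refine Finset.prod_congr rfl fun a _ => ?_
    rw [Equiv.coe_toEmbedding, Equiv.symm_apply_apply]
  have h2 : (PB (fun k => q (f k))) A = (PB q) {ω | (fun k => ω (f k)) ∈ A} := by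
    rw [← hmap, Measure.map_apply hmeas hA]
    rfl
  unfold Measure.real
  rw [h2]

end Ein99.GM
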