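import Pool.Agent.LibGM95.T3

/-!
TASK T4. The FKG (Harris) inequality for local events.
Induction on `S` with `PB_split`, or `PB_bridge` and Mathlib's `fkg`
(`Mathlib/Combinatorics/SetFamily/FourFunctions.lean`) with the log-modular weight
`∏_B q ∏_{S∖B} (1-q)` on the finite distributive lattice of subsets of `S`.
`PB_fkg_decr`: complements.  `PB_fkg_family`: induction on `I`.
-/

set_option autoImplicit false

open MeasureTheory ProbabilityTheory Filter Topology

namespace Ein99.GM

variable {ι : Type*}

open Classical in
private theorem T4_dep_update {S : Finset ι} {j : ι} {A : Set (ι → Bool)}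
    (hA : Dep ((insert j S : Finset ι) : Set ι) A) (b : Bool) :
    Dep (S : Set ι) {ω | Function.update ω j b ∈ A} := by
  intro ω ω' h
  refine hA _ _ (fun i hi => ?_)
  by_cases hij : i = j
  · subst hij; simp
  · rw [Function.update_of_ne hij, Function.update_of_ne hij]
    refine h i ?_
    have := Finset.mem_coe.mp hi
    rcases Finset.mem_insert.mp this with h1 | h1
    · exact absurd h1 hij
    · exact Finset.mem_coe.mpr h1

open Classical in
private theorem T4_inc_update {A : Set (ι → Bool)} (iA : Inc A) (j : ι) (b : Bool) :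
    Inc {ω | Function.update ω j b ∈ A} := by
  intro ω ω' h hω
  refine iA _ _ (fun i => ?_) hω
  by_cases hij : i = j
  · subst hij; simp
  · rw [Function.update_of_ne hij, Function.update_of_ne hij]
    exact h i

open Classical in
private theorem T4_le {A : Set (ι → Bool)} (iA : Inc A) (j : ι) :
    {ω | Function.update ω j false ∈ A} ⊆ {ω | Function.update ω j true ∈ A} := by
  intro ω hω
  refine iA _ _ (fun i => ?_) hω
  by_cases hij : i = j
  · subst hij; simp
  · rw [Function.update_of_ne hij, Function.update_of_ne hij]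
    exact id

theorem PB_fkg (q : ι → unitInterval) (S : Finset ι) {A B : Set (ι → Bool)}
    (hA : Dep (S : Set ι) A) (hB : Dep (S : Set ι) B) (iA : Inc A) (iB : Inc B) :
    (PB q).real A * (PB q).real B ≤ (PB q).real (A ∩ B) := by
  classical
  induction S using Finset.induction_on generalizing A B with
  | empty =>
    have hu : ∀ {C : Set (ι → Bool)}, Dep ((∅ : Finset ι) : Set ι) C → C = ∅ ∨ C = Set.univ := by
      intro C hC
      rcases Set.eq_empty_or_nonempty C with h | ⟨ω, hω⟩
      · exact Or.inl h
      · right
        ext ω'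
        simp only [Set.mem_univ, iff_true]
        exact (hC ω ω' (by simp)).mp hω
    rcases hu hA with h | h
    · subst h; simp
    · subst h; simp
  | insert j S hj ih =>
    have h1 := ih (T4_dep_update hA true) (T4_dep_update hB true) (T4_inc_update iA j true)
      (T4_inc_update iB j true)
    have h0 := ih (T4_dep_update hA false) (T4_dep_update hB false) (T4_inc_update iA j false)
      (T4_inc_update iB j false)
    have e1 := PB_split q (insert j S) j hA
    have e2 := PB_split q (insert j S) j hB
    have e3 := PB_split q (insert j S) j (hA.inter hB)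
    have m1 : (PB q).real {ω | Function.update ω j false ∈ A} ≤
        (PB q).real {ω | Function.update ω j true ∈ A} := measureReal_mono (T4_le iA j)
    have m2 : (PB q).real {ω | Function.update ω j false ∈ B} ≤
        (PB q).real {ω | Function.update ω j true ∈ B} := measureReal_mono (T4_le iB j)
    have k1 : {ω : ι → Bool | Function.update ω j true ∈ A ∩ B} =
        {ω | Function.update ω j true ∈ A} ∩ {ω | Function.update ω j true ∈ B} := rfl
    have k0 : {ω : ι → Bool | Function.update ω j false ∈ A ∩ B} =
        {ω | Function.update ω j false ∈ A} ∩ {ω | Function.update ω j false ∈ B} := rfl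
    rw [k1, k0] at e3
    rw [e1, e2, e3]
    have t0 : (0 : ℝ) ≤ (q j : ℝ) := (q j).2.1
    have t1 : (q j : ℝ) ≤ 1 := (q j).2.2
    have key := mul_nonneg (mul_nonneg t0 (sub_nonneg.mpr t1))
      (mul_nonneg (sub_nonneg.mpr m1) (sub_nonneg.mpr m2))
    have h1' := mul_le_mul_of_nonneg_left h1 t0
    have h0' := mul_le_mul_of_nonneg_left h0 (sub_nonneg.mpr t1)
    nlinarith

private theorem T4_compl {A : Set (ι → Bool)} (iA : Decr A) : Inc Aᶜ := by
  intro ω ω' h hω hω'
  exact hω (iA ω ω' h hω')

theorem PB_fkg_decr (q : ι → unitInterval) (S : Finset ι) {A B : Set (ι → Bool)}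
    (hA : Dep (S : Set ι) A) (hB : Dep (S : Set ι) B) (iA : Decr A) (iB : Decr B) :
    (PB q).real A * (PB q).real B ≤ (PB q).real (A ∩ B) := by
  have hmA := hA.measurableSet S
  have hmB := hB.measurableSet S
  have h := PB_fkg q S hA.compl hB.compl (T4_compl iA) (T4_compl iB)
  have e1 := probReal_compl_eq_one_sub (μ := PB q) hmA
  have e2 := probReal_compl_eq_one_sub (μ := PB q) hmB
  have e3 := probReal_compl_eq_one_sub (μ := PB q) (hmA.inter hmB)
  have e4 := measureReal_union_add_inter (μ := PB q) (s := Aᶜ) (t := Bᶜ) hmB.compl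
  rw [← Set.compl_inter] at e4
  rw [e1, e2] at h
  rw [e3, e1, e2] at e4
  have e5 : (1 - (PB q).real A) * (1 - (PB q).real B) =
      1 - (PB q).real A - (PB q).real B + (PB q).real A * (PB q).real B := by ring
  linarith

/-- FKG for a finite family of decreasing local events -/
theorem PB_fkg_family {κ : Type*} (q : ι → unitInterval) (I : Finset κ) (S : Finset ι)
    (A : κ → Set (ι → Bool)) (hA : ∀ i ∈ I, Dep (S : Set ι) (A i)) (iA : ∀ i ∈ I, Decr (A i)) :
    ∏ i ∈ I, (PB q).real (A i) ≤ (PB q).real {ω | ∀ i ∈ I, ω ∈ A i} := by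
  classical
  induction I using Finset.induction_on with
  | empty => simp
  | insert k I hk ih =>
    have hA' : ∀ i ∈ I, Dep (S : Set ι) (A i) := fun i hi => hA i (Finset.mem_insert_of_mem hi)
    have iA' : ∀ i ∈ I, Decr (A i) := fun i hi => iA i (Finset.mem_insert_of_mem hi)
    have ih' := ih hA' iA'
    have hd : Dep (S : Set ι) {ω | ∀ i ∈ I, ω ∈ A i} := by
      intro ω ω' h
      constructor
      · exact fun hω i hi => (hA' i hi ω ω' h).mp (hω i hi)
      · exact fun hω i hi => (hA' i hi ω ω' h).mpr (hω i hi)
    have hi : Decr {ω | ∀ i ∈ I, ω ∈ A i} := by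
      intro ω ω' h hω i hi
      exact iA' i hi ω ω' h (hω i hi)
    have h := PB_fkg_decr q S (hA k (Finset.mem_insert_self k I)) hd
      (iA k (Finset.mem_insert_self k I)) hi
    have e : {ω | ∀ i ∈ insert k I, ω ∈ A i} = A k ∩ {ω | ∀ i ∈ I, ω ∈ A i} := by
      ext ω
      simp only [Finset.mem_insert, forall_eq_or_imp, Set.mem_inter_iff, Set.mem_ofPred_eq]
    rw [Finset.prod_insert hk, e]
    exact (mul_le_mul_of_nonneg_left ih' measureReal_nonneg).trans h

end Ein99.GM
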